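import Pool.Agent.TH585.SV.Mov3

/-!
Cyclic covers branched over moving hyperplanes: the total multiplicities are divisible by `N`.
-/

set_option autoImplicit false

open FF Module Pool.Agent.W603.LV Pool.Agent.W602.GT Pool.Agent.W602.Cov Pool.Agent.W602.Cov.G
open Pool.Agent.W168.CG.PGR Pool.Agent.TH152.AC Pool.Agent.TH152.HY Pool.Agent.TH766.MC

namespace Pool.Agent.TH585.SV

variable {d e k n q c κ : ℕ} {K : Type} [Field K] [Algebra ℂ K]
variable {w N : ℕ} {X : Set (Place ℂ K)} {L : IntermediateField ℂ K}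
  {a : Fin q → Fin (e + 1) → K} {x : Fin e → K}

/-- the linear forms are not zero -/
theorem mℓ_ne (halg : ∀ i j, IsAlgebraic L (a i j))
    (hgen : ∀ τ : Fin (e + 1) → Fin q, Function.Injective τ → mD a τ ≠ 0)
    (hbas : IsTranscendenceBasis L x) (hq : e + 1 ≤ q) (i : Fin q) : mℓ a x i ≠ 0 :=
  MovData.ne (w := 0) (N := 0) (X := ∅) (L := L)
    ⟨halg, hgen, hbas, fun P hP => absurd hP (Set.notMem_empty P)⟩ hq i

/-- the total multiplicities for a cyclic cover -/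
theorem mult_cyc (halg : ∀ i j, IsAlgebraic L (a i j)) (hℓ : ∀ i, mℓ a x i ≠ 0)
    {b y : K} (hb : IsAlgebraic L b) (hNq : N ∣ q) (hy : ∏ i, mℓ a x i = b * y ^ N)
    {P : Place ℂ K} (hv : ∀ b : K, IsAlgebraic L b → b ≠ 0 → P.ord b = 0) {a₀ : ℤ}
    (h0 : ∀ j, (Fin.cons 1 x : Fin (e + 1) → K) j = 0 ∨
      a₀ ≤ P.ord ((Fin.cons 1 x : Fin (e + 1) → K) j)) :
    ∑ i, (P.ord (mℓ a x i) - a₀) = 0 ∨ (N : ℤ) ≤ ∑ i, (P.ord (mℓ a x i) - a₀) := by
  have hao : ∀ i j, Ge P 0 (a i j) := fun i j => by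
    by_cases h0 : a i j = 0
    · exact Or.inl h0
    · exact Or.inr (hv _ (halg i j) h0).ge
  have hge : ∀ i, 0 ≤ P.ord (mℓ a x i) - a₀ := by
    intro i
    have h1 : Ge P a₀ (mℓ a x i) := by
      refine Ge.sum _ _ fun j _ => ?_
      have := (hao i j).mul (h0 j)
      rwa [zero_add] at this
    rcases h1 with h2 | h2
    · exact absurd h2 (hℓ i)
    · linarith
  have hsum : 0 ≤ ∑ i, (P.ord (mℓ a x i) - a₀) := Finset.sum_nonneg fun i _ => hge i
  have hne : ∏ i, mℓ a x i ≠ 0 := Finset.prod_ne_zero_iff.2 fun i _ => hℓ i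
  have hdvd : (N : ℤ) ∣ ∑ i, (P.ord (mℓ a x i) - a₀) := by
    rw [Finset.sum_sub_distrib, ← ord_prod' P _ _ fun i _ => hℓ i, hy]
    rw [hy] at hne
    have hb0 : b ≠ 0 := left_ne_zero_of_mul hne
    have hy0 : y ^ N ≠ 0 := right_ne_zero_of_mul hne
    rw [P.ord_mul hb0 hy0, hv b hb hb0, zero_add]
    refine dvd_sub ?_ ?_
    · rw [P.ord_pow]
      exact dvd_mul_right _ _
    · rw [Finset.sum_const, Finset.card_univ, Fintype.card_fin, nsmul_eq_mul]
      exact Dvd.dvd.mul_right (by exact_mod_cast hNq) _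
  rcases hsum.eq_or_lt with h1 | h1
  · exact Or.inl h1.symm
  · exact Or.inr (Int.le_of_dvd h1 hdvd)

end Pool.Agent.TH585.SV
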