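import Pool.Agent.TH585.SV.Mov3
import Pool.Agent.TH143.GT.Pull

/-!
Fibrations over an arbitrary base: sections of multiples of the canonical divisor of the base and
forms along the fibres.
-/

set_option autoImplicit false

open FF Module Pool.Agent.W603.LV Pool.Agent.W602.GT Pool.Agent.W602.Cov Pool.Agent.W602.Cov.G
open Pool.Agent.W168.CG.PGR Pool.Agent.TH152.AC Pool.Agent.TH152.HY Pool.Agent.TH766.MC
open Pool.Agent.TH143.GT

namespace Pool.Agent.TH585.SV

variable {d e κ lam N : ℕ} {K : Type} [Field K] [Algebra ℂ K]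

/-- a pluricanonical form in coordinates -/
theorem pluri_coord {L : IntermediateField ℂ K} {M : ℕ}
    {ω : (Fin d → Derivation ℂ L L) → L} (hω : IsPluri M ω) {y : Fin d → L}
    {E : Fin d → Derivation ℂ L L} (h : Dual y E) (D : Fin d → Derivation ℂ L L) :
    ω D = (Matrix.of fun i j => D i (y j)).det ^ M * ω E := by
  have hch : CharZero L := charZero_of_injective_algebraMap (algebraMap ℂ L).injective
  rw [← hω]
  congr 1
  funext i
  exact h.expand (D i)

/-- **Pull-back of pluricanonical forms.** -/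
theorem pull_ge {L : IntermediateField ℂ K} [Algebra.EssFiniteType ℂ L]
    (hd : Algebra.trdeg ℂ L = d) (hN : Algebra.trdeg ℂ K = N) {M : ℕ}
    {ω : (Fin d → Derivation ℂ L L) → L} (hω : IsPluri M ω)
    (hreg : ∀ v : Place ℂ L, Divisorial d v → ∀ D : Fin d → Derivation ℂ L L,
      (∀ i, DerReg v (D i)) → v.Reg (ω D)) {y : Fin d → L} {E : Fin d → Derivation ℂ L L}
    (h : Dual y E) {P : Place ℂ K} (hP : Divisorial N P) {D : Fin d → Derivation ℂ K K}
    (hD : ∀ i, DerReg P (D i)) :
    Ge P 0 ((mtx (fun j => (y j : K)) D).det ^ M * (ω E : K)) := by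
  classical
  have hch : CharZero ℂ := inferInstance
  by_cases htriv : ∀ g : L, P.ord (algebraMap L K g) = 0
  · have hr : ∀ g : L, Ge P 0 (g : K) := fun g => Or.inr (htriv g).ge
    have h1 : Ge P 0 (mtx (fun j => (y j : K)) D).det :=
      ge_det' P _ 0 (fun _ _ => 0) (fun i j => hD i _ (hr (y j))) (fun _ => by simp)
    have := (h1.pow M).mul (hr (ω E))
    simpa using this
  push Not at htriv
  obtain ⟨ε, v, hov⟩ := exists_over (K := L) P htriv
  have hv : Divisorial d v := Pool.Agent.W419.PG.main ℂ L K d N v P ε hd hN hov hP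
  obtain ⟨y', E', i0, hb', hE', hi0, hy'r, hpres⟩ := Pool.Agent.W240.PG.Frame.main
    Pool.Agent.W762.PG.main ℂ L d hd (fun y hy => fin_adjoin y hy) v hv
  have h' : Dual y' E' := ⟨hb', hE'⟩
  have hmat : mtx (fun j => (y j : K)) D =
      (Matrix.of fun i l => D i (algebraMap L K (y' l))) *
        (Matrix.of fun l j => E' l (y j)).map (algebraMap L K) := by
    ext i j
    rw [Matrix.mul_apply]
    exact h'.chain (L := K) (D i) (y j)
  have h1 : Ge P 0 (Matrix.of fun i l => D i (algebraMap L K (y' l))).det :=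
    ge_det' P _ 0 (fun _ _ => 0) (fun i l => hD i _ (hov.reg.2 (hy'r l))) (fun _ => by simp)
  have h2 := hreg v hv E' (fun i => hpres i)
  rw [pluri_coord hω h] at h2
  have h3 : Ge P 0 (algebraMap L K ((Matrix.of fun i j => E' i (y j)).det ^ M * ω E)) :=
    hov.reg.2 h2
  have h4 := (h1.pow M).mul h3
  have h5 : (mtx (fun j => (y j : K)) D).det ^ M * (ω E : K) =
      (Matrix.of fun i l => D i (algebraMap L K (y' l))).det ^ M *
        algebraMap L K ((Matrix.of fun i j => E' i (y j)).det ^ M * ω E) := by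
    have h6 : ((Matrix.of fun l j => E' l (y j)).map (algebraMap L K)).det =
        algebraMap L K (Matrix.of fun l j => E' l (y j)).det :=
      ((algebraMap L K).map_det _).symm
    rw [hmat, Matrix.det_mul, h6, map_mul, map_pow]
    change _ * algebraMap L K (ω E) = _
    ring
  rw [h5]
  simpa using h4

/-- **Fibrations over an arbitrary base.** -/
theorem base_fib {L : IntermediateField ℂ K} [Algebra.EssFiniteType ℂ L]
    (hd : Algebra.trdeg ℂ L = d) (hK : Algebra.trdeg ℂ K = (d + e : ℕ)) {x : Fin e → K}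
    (hx : IsTranscendenceBasis L x)
    {M : ℕ} (hM : 0 < M) {ω : Fin (κ + 1) → (Fin d → Derivation ℂ L L) → L}
    (hω : ∀ j, IsPluri M (ω j))
    (hreg : ∀ j, ∀ v : Place ℂ L, Divisorial d v → ∀ D : Fin d → Derivation ℂ L L,
      (∀ i, DerReg v (D i)) → v.Reg (ω j D))
    (hne : ∃ D, ω 0 D ≠ 0 ∧ AlgebraicIndependent ℂ (fun i : Fin κ => ω i.succ D / ω 0 D))
    (X : Set (Place ℂ K)) {m : ℕ} (hm : 0 < m)
    {θ : Fin (lam + 1) → (Fin e → Derivation L K K) → K}
    (hθ : ∀ b, FibSec (d + e) m X (fun _ => 0) L (θ b))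
    (hne' : ∃ G, θ 0 G ≠ 0 ∧ AlgebraicIndependent L (fun i : Fin lam => θ i.succ G / θ 0 G)) :
    ∃ M' : ℕ, 0 < M' ∧ ∃ Ω : Fin (κ + lam + 1) → (Fin (d + e) → Derivation ℂ K K) → K,
      (∀ j, PairSec (d + e) X (fun _ => 0) M' (Ω j)) ∧
      ∃ D, Ω 0 D ≠ 0 ∧ AlgebraicIndependent ℂ (fun i : Fin (κ + lam) => Ω i.succ D / Ω 0 D) := by
  classical
  -- coordinates on the base
  obtain ⟨T, hT⟩ := exists_isTranscendenceBasis ℂ L
  have hTcard : Cardinal.mk T = d := by
    rw [hT.cardinalMk_eq_trdeg, hd]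
  have hTfin : Finite T := by
    rw [← Cardinal.lt_aleph0_iff_finite, hTcard]
    exact Cardinal.natCast_lt_aleph0
  let _ : Fintype T := Fintype.ofFinite T
  have hTc : Fintype.card T = d := by
    have := hTcard
    rw [Cardinal.mk_fintype] at this
    exact_mod_cast this
  let ν : Fin d ≃ T := (Fintype.equivFinOfCardEq hTc).symm
  obtain ⟨y, hy⟩ : ∃ y : Fin d → L, y = fun j => ((ν j : T) : L) := ⟨_, rfl⟩
  have hyb : IsTranscendenceBasis ℂ y := by
    rw [hy]
    exact hT.comp_equiv ν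
  have hE : ∀ i : Fin d, ∃ D : Derivation ℂ L L, ∀ j, D (y j) = if i = j then 1 else 0 :=
    fun i => exists_der (L := ℂ) y hyb _
  choose E0 hE0 using hE
  have hdual : Dual y E0 := ⟨hyb, hE0⟩
  obtain ⟨g, hg⟩ : ∃ g : Fin (κ + 1) → L, ∀ a, g a = ω a E0 := ⟨_, fun _ => rfl⟩
  obtain ⟨D0, hD0, hD0i⟩ := hne
  have hval : ∀ a, ω a D0 = (Matrix.of fun i j => D0 i (y j)).det ^ M * g a := fun a => by
    rw [hg]
    exact pluri_coord (hω a) hdual D0
  have hdet0 : (Matrix.of fun i j => D0 i (y j)).det ^ M ≠ 0 := by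
    intro h0
    apply hD0
    rw [hval, h0, zero_mul]
  have hg0 : g 0 ≠ 0 := by
    intro h0
    apply hD0
    rw [hval, h0, mul_zero]
  have hg0K : (g 0 : K) ≠ 0 := by
    intro h0
    exact hg0 (Subtype.ext h0)
  have hratio : (fun i : Fin κ => ω i.succ D0 / ω 0 D0) = fun i : Fin κ => g i.succ / g 0 := by
    funext i
    rw [hval, hval, mul_div_mul_left _ _ hdet0]
  rw [hratio] at hD0i
  -- the frame
  have hTU := IsTranscendenceBasis.sumElim_comp hyb hx
  have hbas : IsTranscendenceBasis ℂ (Sum.elim (fun j : Fin d => (y j : K)) x) := by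
    have h1 := hTU.comp_equiv (Equiv.sumComm (Fin d) (Fin e))
    have h2 : (Sum.elim (fun j : Fin d => (y j : K)) x) =
        (Sum.elim x (algebraMap L K ∘ y)) ∘ (Equiv.sumComm (Fin d) (Fin e)) := by
      funext a
      rcases a with a | a
      · rfl
      · rfl
    rw [h2]
    exact h1
  obtain ⟨Dt, Du, F⟩ := exists_frame hbas
  have hHz : ∀ f ∈ L, Hz Du f := by
    intro f hf i
    obtain ⟨D', hD'⟩ := exists_der (L := L) x hx (fun a => Du i (x a))
    have h1 : Du i = D'.restrictScalars ℂ := by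
      refine F.ext (fun j => ?_) fun j => ?_
      · rw [F.ut]
        change (0 : K) = D' (y j : K)
        have h2 : (y j : K) = algebraMap L K (y j) := rfl
        rw [h2, D'.map_algebraMap]
      · change Du i (x j) = D' (x j)
        rw [hD']
    rw [h1]
    change D' f = 0
    have h2 : f = algebraMap L K ⟨f, hf⟩ := rfl
    rw [h2, D'.map_algebraMap]
  obtain ⟨Ω, h1, D, h2, h3⟩ := F.pairs (δ₁ := fun _ => 0) (δ₂ := fun _ => 0) (δ := fun _ => 0)
    (X := X) hHz (fun j => (y j).2) (fun _ _ => by simp) hm (fun b => (hθ b).1)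
    (fun P hPX hPd G hG b => (hθ b).2 P hPX hPd G hG) hne' hM (f := (g 0 : K)) hg0K
    (w := fun j => ((g j / g 0 : L) : K)) (by
      change ((g 0 / g 0 : L) : K) = 1
      rw [div_self hg0]
      rfl) (by
      have h1 := hD0i.map' (f := (IsScalarTower.toAlgHom ℂ L K)) (algebraMap L K).injective
      exact h1) (fun j => Subtype.coe_prop _)
    (fun P hPX hPd E hE a => by
      refine ⟨0, ?_, by simp⟩
      have h1 := pull_ge (M := M) hd hK (hω a) (hreg a) hdual hPd hE
      have h2 : (g 0 : K) * ((g a / g 0 : L) : K) = (g a : K) := by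
        have h3 : g 0 * (g a / g 0) = g a := by
          field_simp
        exact congrArg (fun z : L => (z : K)) h3
      rw [h2, hg]
      exact h1)
  exact ⟨M * m, Nat.mul_pos hM hm, Ω, h1, D, h2, h3⟩

end Pool.Agent.TH585.SV
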