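import Pool.Agent.TH152.HY.Find

/-!
Generalised Wronskians of the coordinates of a map to projective space from a variety of dimension
`d`, generically finite onto its image: the first block of rows consists of the coordinates and their
first derivatives, the other rows are given by words (`Pool.Agent.TH152.HY.Words`).
-/

set_option autoImplicit false

open FF Pool.Agent.W603.LV Pool.Agent.W602.GT Pool.Agent.W602.Cov Pool.Agent.W602.Cov.G
open Pool.Agent.TH152.AC Pool.Agent.TH152.HY

namespace Pool.Agent.TH585.SV

variable {d k n q : ℕ} {K : Type} [Field K] [Algebra ℂ K]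

/-- the rows of the first block: the coordinates and their derivatives -/
def blk (D : Fin d → Derivation ℂ K K) (x : Fin (n + 1) → K) : Fin (d + 1) → Fin (n + 1) → K :=
  fun i j => col D (x j) i

theorem blk_zero (D : Fin d → Derivation ℂ K K) (x : Fin (n + 1) → K) : blk D x 0 = x := rfl

theorem blk_succ (D : Fin d → Derivation ℂ K K) (x : Fin (n + 1) → K) (l : Fin d)
    (j : Fin (n + 1)) : blk D x l.succ j = D l (x j) := rfl

/-- the determinant of rows indexed by a sum type -/
def dt (e : Fin (d + 1) ⊕ Fin k ≃ Fin (n + 1)) (r : Fin (d + 1) ⊕ Fin k → Fin (n + 1) → K) : K :=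
  (Matrix.of fun a b : Fin (d + 1) ⊕ Fin k => r a (e b)).det

omit [Algebra ℂ K] in
theorem dt_update_add (e : Fin (d + 1) ⊕ Fin k ≃ Fin (n + 1))
    (r : Fin (d + 1) ⊕ Fin k → Fin (n + 1) → K) (i : Fin (d + 1) ⊕ Fin k) (y z : Fin (n + 1) → K) :
    dt e (Function.update r i (y + z)) =
      dt e (Function.update r i y) + dt e (Function.update r i z) := by
  have h : ∀ y : Fin (n + 1) → K, (Matrix.of fun a b : Fin (d + 1) ⊕ Fin k =>
      (Function.update r i y) a (e b)) =
      (Matrix.of fun a b : Fin (d + 1) ⊕ Fin k => r a (e b)).updateRow i (fun b => y (e b)) := by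
    intro y
    ext a b
    by_cases ha : a = i
    · subst ha
      simp
    · simp [ha]
  unfold dt
  rw [h, h, h]
  exact Matrix.det_updateRow_add _ i _ _

omit [Algebra ℂ K] in
theorem dt_update_smul (e : Fin (d + 1) ⊕ Fin k ≃ Fin (n + 1))
    (r : Fin (d + 1) ⊕ Fin k → Fin (n + 1) → K) (i : Fin (d + 1) ⊕ Fin k) (c : K)
    (y : Fin (n + 1) → K) :
    dt e (Function.update r i (c • y)) = c • dt e (Function.update r i y) := by
  have h : ∀ y : Fin (n + 1) → K, (Matrix.of fun a b : Fin (d + 1) ⊕ Fin k =>
      (Function.update r i y) a (e b)) =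
      (Matrix.of fun a b : Fin (d + 1) ⊕ Fin k => r a (e b)).updateRow i (fun b => y (e b)) := by
    intro y
    ext a b
    by_cases ha : a = i
    · subst ha
      simp
    · simp [ha]
  unfold dt
  rw [h, h]
  exact Matrix.det_updateRow_smul _ i _ _

omit [Algebra ℂ K] in
/-- linear combinations of the rows -/
theorem dt_mul (e : Fin (d + 1) ⊕ Fin k ≃ Fin (n + 1))
    (M : Matrix (Fin (d + 1) ⊕ Fin k) (Fin (d + 1) ⊕ Fin k) K)
    (r : Fin (d + 1) ⊕ Fin k → Fin (n + 1) → K) :
    dt e (fun a => ∑ b, M a b • r b) = M.det * dt e r := by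
  unfold dt
  rw [← Matrix.det_mul]
  congr 1
  ext a b
  rw [Matrix.mul_apply]
  change (∑ b', M a b' • r b') (e b) = _
  rw [Finset.sum_apply]
  rfl

/-- the determinant with the first block -/
def phi (e : Fin (d + 1) ⊕ Fin k ≃ Fin (n + 1)) (D : Fin d → Derivation ℂ K K)
    (x : Fin (n + 1) → K) (m : Fin k → Fin (n + 1) → K) : K := dt e (Sum.elim (blk D x) m)

theorem phi_update_add (e : Fin (d + 1) ⊕ Fin k ≃ Fin (n + 1)) (D : Fin d → Derivation ℂ K K)
    (x : Fin (n + 1) → K) (m : Fin k → Fin (n + 1) → K) (i : Fin k) (y z : Fin (n + 1) → K) :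
    phi e D x (Function.update m i (y + z)) =
      phi e D x (Function.update m i y) + phi e D x (Function.update m i z) := by
  unfold phi
  rw [← Sum.update_elim_inr, ← Sum.update_elim_inr, ← Sum.update_elim_inr]
  exact dt_update_add e _ _ y z

theorem phi_update_smul (e : Fin (d + 1) ⊕ Fin k ≃ Fin (n + 1)) (D : Fin d → Derivation ℂ K K)
    (x : Fin (n + 1) → K) (m : Fin k → Fin (n + 1) → K) (i : Fin k) (c : K)
    (y : Fin (n + 1) → K) :
    phi e D x (Function.update m i (c • y)) = c • phi e D x (Function.update m i y) := by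
  unfold phi
  rw [← Sum.update_elim_inr, ← Sum.update_elim_inr]
  exact dt_update_smul e _ _ c y

/-- all rows multiplied by scalars -/
theorem phi_smul (e : Fin (d + 1) ⊕ Fin k ≃ Fin (n + 1)) (D : Fin d → Derivation ℂ K K)
    (x : Fin (n + 1) → K) (m : Fin k → Fin (n + 1) → K) (c : Fin k → K) :
    phi e D x (fun a => c a • m a) = (∏ a, c a) * phi e D x m := by
  classical
  have h1 : (Sum.elim (blk D x) fun a => c a • m a) = fun a =>
      ∑ b, (Matrix.diagonal (Sum.elim (fun _ => (1 : K)) c)) a b • (Sum.elim (blk D x) m) b := by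
    funext a
    rw [Finset.sum_eq_single a]
    · rw [Matrix.diagonal_apply_eq]
      rcases a with i | a
      · simp
      · simp
    · intro b _ hb
      rw [Matrix.diagonal_apply_ne _ hb.symm, zero_smul]
    · intro h
      exact absurd (Finset.mem_univ _) h
  unfold phi
  rw [h1, dt_mul, Matrix.det_diagonal, Fintype.prod_sum_type]
  simp

/-- the first block under a change of the vector fields -/
theorem phi_change (e : Fin (d + 1) ⊕ Fin k ≃ Fin (n + 1)) (D : Fin d → Derivation ℂ K K)
    (x : Fin (n + 1) → K) (m : Fin k → Fin (n + 1) → K) (A : Matrix (Fin d) (Fin d) K) :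
    phi e (fun i => ∑ j, A i j • D j) x m = A.det * phi e D x m := by
  classical
  have h1 : (Sum.elim (blk (fun i => ∑ j, A i j • D j) x) m) = fun a =>
      ∑ b, (Matrix.fromBlocks (Pool.Agent.W351.CG.bd A) 0 0 (1 : Matrix (Fin k) (Fin k) K)) a b •
        (Sum.elim (blk D x) m) b := by
    funext a
    rw [Fintype.sum_sum_type]
    rcases a with i | a
    · simp only [Sum.elim_inl, Matrix.fromBlocks_apply₁₁, Matrix.fromBlocks_apply₁₂,
        Sum.elim_inr, Matrix.zero_apply, zero_smul, Finset.sum_const_zero, add_zero]
      rw [Fin.sum_univ_succ]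
      refine Fin.cases ?_ (fun l => ?_) i
      · have h1 : Pool.Agent.W351.CG.bd A 0 0 = 1 := rfl
        have h2 : ∀ k : Fin d, Pool.Agent.W351.CG.bd A 0 k.succ = 0 := fun k => rfl
        rw [h1, one_smul, Finset.sum_eq_zero (fun k _ => by rw [h2, zero_smul]), add_zero,
          blk_zero, blk_zero]
      · have h1 : Pool.Agent.W351.CG.bd A l.succ 0 = 0 := rfl
        have h2 : ∀ k : Fin d, Pool.Agent.W351.CG.bd A l.succ k.succ = A l k := fun k => rfl
        rw [h1, zero_smul, zero_add]
        funext j
        rw [Finset.sum_apply, blk_succ]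
        rw [der_sum]
        refine Finset.sum_congr rfl fun b _ => ?_
        rw [h2]
        rfl
    · simp only [Sum.elim_inr, Matrix.fromBlocks_apply₂₁, Matrix.fromBlocks_apply₂₂,
        Sum.elim_inl, Matrix.zero_apply, zero_smul, Finset.sum_const_zero, zero_add]
      rw [Finset.sum_eq_single a]
      · rw [Matrix.one_apply_eq, one_smul]
      · intro b _ hb
        rw [Matrix.one_apply_ne hb.symm, zero_smul]
      · intro h
        exact absurd (Finset.mem_univ _) h
  unfold phi
  rw [h1, dt_mul, Matrix.det_fromBlocks_zero₂₁, Matrix.det_one, mul_one,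
    Pool.Agent.W351.CG.bd_det]

/-- a tuple of words is minimal -/
structure MinW (e : Fin (d + 1) ⊕ Fin k ≃ Fin (n + 1)) (D : Fin d → Derivation ℂ K K)
    (g : Fin q → K) (x : Fin (n + 1) → K) (S : Fin k → List (Letter d q)) : Prop where
  ne : phi e D x (fun a => wv D g x (S a)) ≠ 0
  low : ∀ S' : Fin k → List (Letter d q), ∑ a, (S' a).length < ∑ a, (S a).length →
    phi e D x (fun a => wv D g x (S' a)) = 0
  le : 2 * (1 + ∑ a, (S a).length) ≤ (k + 1) * (k + 2)

theorem phi_low {e : Fin (d + 1) ⊕ Fin k ≃ Fin (n + 1)} {D : Fin d → Derivation ℂ K K}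
    {g : Fin q → K} {x : Fin (n + 1) → K} {S : Fin k → List (Letter d q)} (hS : MinW e D g x S)
    (m : Fin k → Fin (n + 1) → K) (a0 : Fin k) (h0 : m a0 ∈ V D g x (S a0).length)
    (h1 : ∀ a, a ≠ a0 → m a ∈ V D g x ((S a).length + 1)) : phi e D x m = 0 := by
  classical
  refine multi_span (R := K) (phi e D x) (phi_update_add e D x) (phi_update_smul e D x)
    (fun a => wv D g x '' {w | w.length < if a = a0 then (S a).length else (S a).length + 1})
    ?_ m ?_
  · intro m' hm'
    choose S' hS' hS'2 using hm'
    have e1 : m' = fun a => wv D g x (S' a) := funext fun a => (hS'2 a).symm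
    rw [e1]
    refine hS.low S' (Finset.sum_lt_sum (fun a _ => ?_) ⟨a0, Finset.mem_univ _, ?_⟩)
    · have h2 := hS' a
      simp only [Set.mem_ofPred_eq] at h2
      split_ifs at h2 <;> omega
    · have h2 := hS' a0
      simp only [Set.mem_ofPred_eq, if_true] at h2
      exact h2
  · intro a
    by_cases ha : a = a0
    · subst ha
      simp only [if_true]
      exact h0
    · simp only [if_neg ha]
      exact h1 a ha

/-- the determinant under a change of the vector fields -/
theorem phi_wv_change {e : Fin (d + 1) ⊕ Fin k ≃ Fin (n + 1)} {D : Fin d → Derivation ℂ K K}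
    {g : Fin q → K} {x : Fin (n + 1) → K} {S : Fin k → List (Letter d q)} (hS : MinW e D g x S)
    (A : Matrix (Fin d) (Fin d) K) :
    phi e (fun i => ∑ j, A i j • D j) x (fun a => wv (fun i => ∑ j, A i j • D j) g x (S a)) =
      A.det ^ (1 + ∑ a, (S a).length) * phi e D x (fun a => wv D g x (S a)) := by
  classical
  choose r hr er using fun a => wv_change D g x A (S a)
  have key : ∀ F : Finset (Fin k), phi e D x (fun a =>
      if a ∈ F then A.det ^ (S a).length • wv D g x (S a) + r a else
        A.det ^ (S a).length • wv D g x (S a)) =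
      phi e D x (fun a => A.det ^ (S a).length • wv D g x (S a)) := by
    intro F
    induction F using Finset.induction_on with
    | empty => simp
    | insert b F hb ih =>
      rw [← ih]
      have e1 : (fun a => if a ∈ insert b F then
          A.det ^ (S a).length • wv D g x (S a) + r a else A.det ^ (S a).length • wv D g x (S a)) =
          Function.update (fun a => if a ∈ F then A.det ^ (S a).length • wv D g x (S a) + r a else
            A.det ^ (S a).length • wv D g x (S a)) b
            (A.det ^ (S b).length • wv D g x (S b) + r b) := by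
        funext i
        by_cases hi : i = b
        · subst hi
          simp
        · simp [hi]
      rw [e1, phi_update_add]
      have e2 : Function.update (fun a => if a ∈ F then A.det ^ (S a).length • wv D g x (S a) + r a
            else A.det ^ (S a).length • wv D g x (S a)) b
            (A.det ^ (S b).length • wv D g x (S b)) = (fun a => if a ∈ F then
            A.det ^ (S a).length • wv D g x (S a) + r a else
            A.det ^ (S a).length • wv D g x (S a)) := by
        funext i
        by_cases hi : i = b
        · subst hi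
          simp [hb]
        · simp [hi]
      have e3 : phi e D x (Function.update (fun a => if a ∈ F then
            A.det ^ (S a).length • wv D g x (S a) + r a else
            A.det ^ (S a).length • wv D g x (S a)) b (r b)) = 0 := by
        refine phi_low hS _ b ?_ fun a ha => ?_
        · rw [Function.update_self]
          exact hr b
        · rw [Function.update_of_ne ha]
          have h1 : A.det ^ (S a).length • wv D g x (S a) ∈ V D g x ((S a).length + 1) :=
            Submodule.smul_mem _ _ (wv_mem D g x (Nat.lt_succ_self _))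
          split_ifs
          · exact Submodule.add_mem _ h1 (V_mono D g x (Nat.le_succ _) (hr a))
          · exact h1
      rw [e2, e3, add_zero]
  have h1 := key Finset.univ
  simp only [Finset.mem_univ, if_true] at h1
  rw [phi_change, pow_add, pow_one, mul_assoc]
  congr 1
  have h2 : (fun a => wv (fun i => ∑ j, A i j • D j) g x (S a)) =
      fun a => A.det ^ (S a).length • wv D g x (S a) + r a := funext fun a => er a
  rw [h2, h1, phi_smul, Finset.prod_pow_eq_pow_sum]

/-- the first block is in the span of the words of length at most `1` -/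
theorem blk_mem {D : Fin d → Derivation ℂ K K} {g : Fin q → K} (hg : ∀ i, g i ≠ 0)
    {I0 : Fin (d + 1) → Fin q} (hI : bw D (fun j => g (I0 j)) ≠ 0) (x : Fin (n + 1) → K)
    (i : Fin (d + 1)) : blk D x i ∈ V D g x 2 := by
  refine Fin.cases ?_ (fun l => ?_) i
  · rw [blk_zero]
    have h4 := wv_mem D g x (w := []) (k := 2) (by simp)
    rwa [wv_nil] at h4
  · obtain ⟨c, hc⟩ := der_of_op hg hI l
    have e : blk D x l.succ = ∑ k, c k • opv D g (I0, k) x := by
      funext j
      rw [Finset.sum_apply, blk_succ, hc (x j)]
      rfl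
    rw [e]
    refine Submodule.sum_mem _ fun k _ => Submodule.smul_mem _ _ ?_
    refine opv_mem D g x _ ?_
    have h4 := wv_mem D g x (w := []) (k := 1) (by simp)
    rwa [wv_nil] at h4

/-- words of small lengths -/
theorem greedy2 {D : Fin d → Derivation ℂ K K}
    (hconst : ∀ f : K, (∀ l, D l f = 0) → ∃ c : ℂ, f = algebraMap ℂ K c)
    {g : Fin q → K} (hg : ∀ i, g i ≠ 0) {I0 : Fin (d + 1) → Fin q}
    (hI : bw D (fun j => g (I0 j)) ≠ 0) {x : Fin (n + 1) → K} (hli : LinearIndependent ℂ x)
    (hblk : LinearIndependent K (blk D x)) (j : ℕ) (hj : d + j ≤ n) :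
    ∃ S : Fin j → List (Letter d q), LinearIndependent K (fun a =>
      (Submodule.span K (Set.range (blk D x))).mkQ (wv D g x (S a))) ∧
      ∀ a, (S a).length ≤ a + 2 := by
  classical
  set U := Submodule.span K (Set.range (blk D x)) with hU
  have hUV : U ≤ V D g x 2 := by
    rw [hU, Submodule.span_le]
    rintro _ ⟨i, rfl⟩
    exact blk_mem hg hI x i
  have hrank : Module.finrank K ((Fin (n + 1) → K) ⧸ U) + (d + 1) = n + 1 := by
    have h1 := Submodule.finrank_quotient_add_finrank U
    have h2 : Module.finrank K U = d + 1 := by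
      rw [hU, finrank_span_eq_card hblk, Fintype.card_fin]
    rw [h2, Module.finrank_fin_fun] at h1
    exact h1
  induction j with
  | zero => exact ⟨Fin.elim0, linearIndependent_empty_type, fun a => a.elim0⟩
  | succ j ih =>
    obtain ⟨S, hS, hlen⟩ := ih (by omega)
    set W := Submodule.span K (Set.range fun a => U.mkQ (wv D g x (S a))) with hW
    have hex : ∃ w : List (Letter d q), w.length ≤ j + 2 ∧ U.mkQ (wv D g x w) ∉ W := by
      by_contra hcon
      push Not at hcon
      have h1 : V D g x (j + 3) ≤ W.comap U.mkQ := by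
        unfold V
        rw [Submodule.span_le]
        rintro _ ⟨w, hw, rfl⟩
        have hw' : w.length < j + 3 := hw
        exact hcon w (by omega)
      have h2 : W.comap U.mkQ ≤ V D g x (j + 2) := by
        have h3 : W = (Submodule.span K (Set.range fun a => wv D g x (S a))).map U.mkQ := by
          rw [hW, Submodule.map_span, ← Set.range_comp]
          rfl
        rw [h3, Submodule.comap_map_mkQ]
        refine sup_le (hUV.trans (V_mono D g x (by omega))) ?_
        rw [Submodule.span_le]
        rintro _ ⟨a, rfl⟩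
        refine wv_mem D g x ?_
        have := hlen a
        have := a.2
        omega
      have h3 : V D g x (j + 2) = ⊤ := by
        refine stable_top hconst hli _ ?_ ?_
        · have h4 := wv_mem D g x (w := []) (k := j + 2) (by simp)
          rwa [wv_nil] at h4
        · intro l y hy
          obtain ⟨c, hc⟩ := der_of_op hg hI l
          have e : (fun j => D l (y j)) = ∑ k, c k • opv D g (I0, k) y := by
            funext j
            rw [Finset.sum_apply, hc (y j)]
            rfl
          rw [e]
          exact Submodule.sum_mem _ fun k _ => Submodule.smul_mem _ _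
            (h2 (h1 (opv_mem D g x _ hy)))
      have h5 : W = ⊤ := by
        have h6 : W.comap U.mkQ = ⊤ := by
          rw [eq_top_iff, ← h3]
          exact (V_mono D g x (by omega)).trans h1
        have h7 := Submodule.map_comap_eq_of_surjective (Submodule.mkQ_surjective U) W
        rw [← h7, h6, Submodule.map_top, Submodule.range_mkQ]
      have h6 : Module.finrank K W = j := by
        rw [hW, finrank_span_eq_card hS, Fintype.card_fin]
      rw [h5, finrank_top] at h6
      omega
    obtain ⟨w, hw, hwW⟩ := hex
    refine ⟨Fin.snoc S w, ?_, ?_⟩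
    · have e : (fun a => U.mkQ (wv D g x ((Fin.snoc S w : Fin (j + 1) → List (Letter d q)) a))) =
          Fin.snoc (fun a => U.mkQ (wv D g x (S a))) (U.mkQ (wv D g x w)) := by
        funext a
        refine Fin.lastCases ?_ (fun a => ?_) a
        · simp
        · simp
      rw [e, linearIndependent_finSnoc]
      exact ⟨hS, hwW⟩
    · intro a
      refine Fin.lastCases ?_ (fun a => ?_) a
      · simpa using hw
      · simpa using hlen a

omit [Algebra ℂ K] in
theorem dt_ne_zero (e : Fin (d + 1) ⊕ Fin k ≃ Fin (n + 1))
    {r : Fin (d + 1) ⊕ Fin k → Fin (n + 1) → K} (h : LinearIndependent K r) : dt e r ≠ 0 := by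
  have h1 : LinearIndependent K (Matrix.of fun a b : Fin (d + 1) ⊕ Fin k => r a (e b)).row :=
    h.map' (LinearEquiv.funCongrLeft K K e).toLinearMap (LinearEquiv.ker _)
  rw [Matrix.linearIndependent_rows_iff_isUnit, Matrix.isUnit_iff_isUnit_det] at h1
  exact h1.ne_zero

theorem sum_val2 (k : ℕ) : 2 * (1 + ∑ a : Fin k, ((a : ℕ) + 2)) = (k + 1) * (k + 2) := by
  rw [Fin.sum_univ_eq_sum_range (fun a => a + 2) k]
  induction k with
  | zero => simp
  | succ k ih =>
    rw [Finset.sum_range_succ]
    nlinarith

/-- **A minimal tuple of words.** -/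
theorem exists_minW (e : Fin (d + 1) ⊕ Fin k ≃ Fin (n + 1)) {D : Fin d → Derivation ℂ K K}
    (hconst : ∀ f : K, (∀ l, D l f = 0) → ∃ c : ℂ, f = algebraMap ℂ K c)
    {g : Fin q → K} (hg : ∀ i, g i ≠ 0) {I0 : Fin (d + 1) → Fin q}
    (hI : bw D (fun j => g (I0 j)) ≠ 0) {x : Fin (n + 1) → K} (hli : LinearIndependent ℂ x)
    (hblk : LinearIndependent K (blk D x)) :
    ∃ S : Fin k → List (Letter d q), MinW e D g x S := by
  classical
  have hcard : d + k = n := by
    have := Fintype.card_congr e
    simp only [Fintype.card_sum, Fintype.card_fin] at this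
    omega
  obtain ⟨S1, hS1, hlen⟩ := greedy2 hconst hg hI hli hblk k hcard.le
  have hdet : phi e D x (fun a => wv D g x (S1 a)) ≠ 0 := by
    refine dt_ne_zero e ?_
    have h1 := LinearIndependent.sumElim_of_quotient
      (M' := Submodule.span K (Set.range (blk D x)))
      (f := fun i => ⟨blk D x i, Submodule.subset_span ⟨i, rfl⟩⟩)
      (LinearIndependent.of_comp (Submodule.subtype _) hblk) _ hS1
    exact h1
  have hex : ∃ N : ℕ, ∃ S : Fin k → List (Letter d q),
      phi e D x (fun a => wv D g x (S a)) ≠ 0 ∧ ∑ a, (S a).length = N := ⟨_, S1, hdet, rfl⟩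
  obtain ⟨S, hS, hN⟩ := Nat.find_spec hex
  refine ⟨S, hS, fun S' hS' => ?_, ?_⟩
  · by_contra hne
    rw [hN] at hS'
    exact Nat.find_min hex hS' ⟨S', hne, rfl⟩
  · have h1 : Nat.find hex ≤ ∑ a, (S1 a).length := Nat.find_min' hex ⟨S1, hdet, rfl⟩
    have h2 : ∑ a, (S1 a).length ≤ ∑ a : Fin k, ((a : ℕ) + 2) :=
      Finset.sum_le_sum fun a _ => hlen a
    rw [hN, ← sum_val2 k]
    omega

/-- the first block is independent -/
theorem blk_li {D : Fin d → Derivation ℂ K K} {x : Fin (n + 1) → K} {σ : Fin (d + 1) → Fin (n + 1)}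
    (h : bw D (fun j => x (σ j)) ≠ 0) : LinearIndependent K (blk D x) := by
  have h1 : IsUnit (Mat D fun j => x (σ j)) := by
    rw [Matrix.isUnit_iff_isUnit_det, ← bw_mat]
    exact isUnit_iff_ne_zero.2 h
  rw [← Matrix.linearIndependent_rows_iff_isUnit] at h1
  refine LinearIndependent.of_comp (LinearMap.funLeft K K σ) ?_
  exact h1

end Pool.Agent.TH585.SV
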