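import Pool.Agent.TH585.SV.Fib9

/-!
The discriminant form of an elliptic curve is regular along the fibres.
-/

set_option autoImplicit false

open FF Module Pool.Agent.W603.LV Pool.Agent.W602.GT Pool.Agent.W602.Cov Pool.Agent.W602.Cov.G
open Pool.Agent.W168.CG.PGR Pool.Agent.TH152.AC Pool.Agent.TH152.HY Pool.Agent.TH766.MC

namespace Pool.Agent.TH585.SV

variable {K : Type} [Field K] [Algebra ℂ K]

theorem ge_int_mul {P : Place ℂ K} {c : ℤ} {f : K} (n : ℤ) (h : Ge P c f) :
    Ge P c ((n : K) * f) := by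
  have h1 := (Ge.intCast (P := P) n).mul h
  rwa [zero_add] at h1

/-- regular derivations with a constant which is not a unit are logarithmic -/
theorem log_of_const {P : Place ℂ K} {G : Derivation ℂ K K} (hG : DerReg P G) {a : K}
    (ha : G a = 0) (ha0 : P.ord a ≠ 0) {f : K} (hf : f ≠ 0) : Ge P 0 (G f / f) := by
  have hane : a ≠ 0 := by
    rintro rfl
    exact ha0 P.ord_zero
  have : CharZero K := charZero_of_injective_algebraMap (algebraMap ℂ K).injective
  obtain ⟨z, hz⟩ : ∃ z, z = f ^ (P.ord a) * a ^ (-(P.ord f)) := ⟨_, rfl⟩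
  have hz0 : z ≠ 0 := by
    rw [hz]
    exact mul_ne_zero (zpow_ne_zero _ hf) (zpow_ne_zero _ hane)
  have hzo : P.ord z = 0 := by
    rw [hz, P.ord_mul (zpow_ne_zero _ hf) (zpow_ne_zero _ hane), P.ord_zpow, P.ord_zpow]
    ring
  have h1 := ge_logder_reg hG hz0 hzo
  have h2 : G z / z = (P.ord a : K) * (G f / f) := by
    have h3 : G z = G (f ^ (P.ord a)) * a ^ (-(P.ord f)) + f ^ (P.ord a) * G (a ^ (-(P.ord f))) := by
      rw [hz, G.leibniz, smul_eq_mul, smul_eq_mul]
      ring
    rw [h3, der_zpow G hf, der_zpow G hane, ha, hz]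
    have h4 := zpow_ne_zero (P.ord a) hf
    have h5 := zpow_ne_zero (-(P.ord f)) hane
    field_simp
    ring
  rw [h2] at h1
  have h3 := (Ge.const (P := P) ((P.ord a : ℂ)⁻¹)).mul h1
  have h4 : algebraMap ℂ K ((P.ord a : ℂ)⁻¹) * ((P.ord a : K) * (G f / f)) = G f / f := by
    have h5 : (P.ord a : K) = algebraMap ℂ K (P.ord a : ℂ) := by
      rw [map_intCast]
    rw [h5, ← mul_assoc, ← map_mul, inv_mul_cancel₀ (by exact_mod_cast ha0), map_one, one_mul]
  rw [h4, zero_add] at h3
  exact h3

/-- the derivative of a regular derivation -/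
theorem reg_ord {P : Place ℂ K} {G : Derivation ℂ K K} (hG : DerReg P G) {f : K} (hf : f ≠ 0) :
    Ge P (P.ord f - 1) (G f) := by
  obtain ⟨π, hπ0, hπ⟩ := P.surj
  obtain ⟨u, hu, hu0, -, e⟩ := logder_eq P G hπ hf
  have h1 : Ge P (-1) (G π / π) := by
    have := ge_div hπ0 (hG π (Or.inr (by omega)))
    rw [hπ] at this
    simpa using this
  have h3 : Ge P (-1) (G f / f) := by
    rw [e]
    exact Ge.add ((ge_logder_reg hG hu hu0).mono (by omega)) (ge_int_mul _ h1)
  have h4 := (Pool.Agent.W602.GT.ge_ord P f).mul h3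
  rw [mul_div_cancel₀ _ hf] at h4
  exact h4

/-- **The discriminant form.** -/
theorem ell_ge {P : Place ℂ K} {G : Derivation ℂ K K} (hG : DerReg P G) {A B x y : K}
    (hA : G A = 0) (hB : G B = 0) (hxy : y ^ 2 = x ^ 3 + A * x + B)
    (hΔ : 4 * A ^ 3 + 27 * B ^ 2 ≠ 0) : Ge P 0 ((4 * A ^ 3 + 27 * B ^ 2) * (G x / y) ^ 12) := by
  have : CharZero K := charZero_of_injective_algebraMap (algebraMap ℂ K).injective
  by_cases hy : y = 0
  · left
    rw [hy]
    simp
  by_cases hGx : G x = 0
  · left
    rw [hGx]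
    simp
  have e1 : 2 * y * G y = (3 * x ^ 2 + A) * G x := by
    have h1 := congrArg G hxy
    rw [map_add, map_add, hB, G.leibniz, hA, G.leibniz_pow, G.leibniz_pow] at h1
    simp only [nsmul_eq_mul, smul_eq_mul, Nat.cast_ofNat, mul_zero, add_zero] at h1
    linear_combination h1
  have e2 : G (3 * x ^ 2 + A) = 6 * x * G x := by
    have h3 : G (3 * x ^ 2) = 3 * G (x ^ 2) := by
      have : (3 : K) * x ^ 2 = x ^ 2 + x ^ 2 + x ^ 2 := by ring
      rw [this, map_add, map_add]
      ring
    rw [map_add, hA, h3, G.leibniz_pow]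
    simp only [nsmul_eq_mul, smul_eq_mul, Nat.cast_ofNat, add_zero]
    ring
  obtain ⟨g, hg⟩ : ∃ g, g = 3 * x ^ 2 + A := ⟨_, rfl⟩
  rw [← hg] at e1 e2
  have hx : x ≠ 0 := by
    rintro rfl
    exact hGx (map_zero _)
  have hg0 : g ≠ 0 := by
    intro h0
    rw [h0, map_zero] at e2
    have h1 : (6 : K) * x ≠ 0 := mul_ne_zero (by norm_num) hx
    exact mul_ne_zero h1 hGx e2.symm
  have hGy : G y ≠ 0 := by
    intro h0
    rw [h0, mul_zero] at e1
    exact mul_ne_zero hg0 hGx e1.symm
  obtain ⟨h, hh⟩ : ∃ h, h = G x / y := ⟨_, rfl⟩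
  rw [← hh]
  have hh0 : h ≠ 0 := by
    rw [hh]
    exact div_ne_zero hGx hy
  have eGx : G x = h * y := by rw [hh, div_mul_cancel₀ _ hy]
  have o2 : P.ord (2 : K) = 0 := by
    have := P.ord_const (c := (2 : ℂ)) (by norm_num)
    rwa [map_ofNat] at this
  have o6 : P.ord (6 : K) = 0 := by
    have := P.ord_const (c := (6 : ℂ)) (by norm_num)
    rwa [map_ofNat] at this
  have two0 : (2 : K) ≠ 0 := by norm_num
  have six0 : (6 : K) ≠ 0 := by norm_num
  have oGx : P.ord (G x) = P.ord h + P.ord y := by
    rw [eGx, P.ord_mul hh0 hy]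
  have oGy : P.ord (G y) = P.ord g + P.ord h := by
    have h1 := congrArg P.ord e1
    rw [P.ord_mul (mul_ne_zero two0 hy) hGy, P.ord_mul two0 hy, o2, P.ord_mul hg0 hGx, oGx] at h1
    linarith
  have oGg : P.ord (G g) = P.ord x + P.ord h + P.ord y := by
    rw [e2, P.ord_mul (mul_ne_zero six0 hx) hGx, P.ord_mul six0 hx, o6, oGx]
    ring
  have hGg : G g ≠ 0 := by
    rw [e2]
    exact mul_ne_zero (mul_ne_zero six0 hx) hGx
  have eA : A = g - (3 : ℤ) * x ^ 2 := by
    rw [hg]
    push_cast
    ring
  have eB : B = y ^ 2 - x ^ 3 - A * x := by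
    rw [hxy]
    ring
  by_cases hc : ∃ a, G a = 0 ∧ P.ord a ≠ 0
  · obtain ⟨a, ha, ha0⟩ := hc
    have hlog : ∀ f, f ≠ 0 → G f ≠ 0 → P.ord f ≤ P.ord (G f) := by
      intro f hf hGf
      rcases log_of_const hG ha ha0 hf with h1 | h1
      · exact absurd h1 (div_ne_zero hGf hf)
      · rw [P.ord_div hGf hf] at h1
        linarith
    have i1 := hlog x hx hGx
    have i2 := hlog y hy hGy
    have i3 := hlog g hg0 hGg
    rw [oGx] at i1
    rw [oGy] at i2
    rw [oGg] at i3
    have j1 : -2 * P.ord h ≤ P.ord x := by linarith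
    have j2 : -3 * P.ord h ≤ P.ord y := by linarith
    have j3 : -4 * P.ord h ≤ P.ord g := by linarith
    have gx : Ge P (-2 * P.ord h) x := Or.inr j1
    have gy : Ge P (-3 * P.ord h) y := Or.inr j2
    have gg : Ge P (-4 * P.ord h) g := Or.inr j3
    have gA : Ge P (-4 * P.ord h) A := by
      rw [eA]
      exact Ge.sub gg (ge_int_mul 3 ((gx.pow 2).mono (by push_cast; linarith)))
    have gB : Ge P (-6 * P.ord h) B := by
      rw [eB]
      exact Ge.sub (Ge.sub ((gy.pow 2).mono (by push_cast; linarith))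
        ((gx.pow 3).mono (by push_cast; linarith))) ((gA.mul gx).mono (by linarith))
    have gΔ : Ge P (-12 * P.ord h) (4 * A ^ 3 + 27 * B ^ 2) := by
      have h1 : (4 : K) * A ^ 3 + 27 * B ^ 2 = ((4 : ℤ) : K) * A ^ 3 + ((27 : ℤ) : K) * B ^ 2 := by
        push_cast
        ring
      rw [h1]
      exact Ge.add (ge_int_mul 4 ((gA.pow 3).mono (by push_cast; linarith)))
        (ge_int_mul 27 ((gB.pow 2).mono (by push_cast; linarith)))
    have h1 := gΔ.mul ((Pool.Agent.W602.GT.ge_ord P h).pow 12)
    exact h1.mono (by push_cast; linarith)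
  · push Not at hc
    have gA : Ge P 0 A := Or.inr (hc A hA).ge
    have gB : Ge P 0 B := Or.inr (hc B hB).ge
    have hGΔ : G (4 * A ^ 3 + 27 * B ^ 2) = 0 := by
      have h1 : (4 : K) * A ^ 3 + 27 * B ^ 2 = algebraMap ℂ K 4 * A ^ 3 + algebraMap ℂ K 27 * B ^ 2 := by
        rw [map_ofNat, map_ofNat]
      rw [h1, map_add, G.leibniz, G.leibniz, G.map_algebraMap, G.map_algebraMap, G.leibniz_pow,
        G.leibniz_pow, hA, hB]
      simp
    have oΔ := hc _ hGΔ
    have gΔ : Ge P 0 (4 * A ^ 3 + 27 * B ^ 2) := Or.inr oΔ.ge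
    suffices gh : Ge P 0 h by
      have h1 := gΔ.mul (gh.pow 12)
      simpa using h1
    rcases lt_or_ge (P.ord x) 0 with hx1 | hx1
    · -- a pole
      have h1 : Ge P (P.ord x) (A * x + B) := by
        refine Ge.add ?_ (gB.mono hx1.le)
        have := gA.mul (Pool.Agent.W602.GT.ge_ord P x)
        rwa [zero_add] at this
      have h2 : P.ord (y ^ 2) = 3 * P.ord x := by
        rw [hxy, add_assoc]
        rcases h1 with h1 | h1
        · rw [h1, add_zero, P.ord_pow]
          norm_num
        · by_cases h3 : A * x + B = 0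
          · rw [h3, add_zero, P.ord_pow]
            norm_num
          · rw [(P.ord_add_eq (pow_ne_zero 3 hx) h3 (by
              rw [P.ord_pow]
              push_cast
              linarith)).2, P.ord_pow]
            norm_num
      rw [P.ord_pow] at h2
      push_cast at h2
      right
      rcases reg_ord hG hx with h3 | h3
      · exact absurd h3 hGx
      · rw [oGx] at h3
        omega
    · have gx : Ge P 0 x := Or.inr hx1
      have gy2 : Ge P 0 (y ^ 2) := by
        rw [hxy]
        exact Ge.add (Ge.add (by simpa using gx.pow 3) (by simpa using gA.mul gx)) gB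
      have hy1 : 0 ≤ P.ord y := by
        rcases gy2 with h1 | h1
        · exact absurd h1 (pow_ne_zero 2 hy)
        · rw [P.ord_pow] at h1
          push_cast at h1
          omega
      have gGx : Ge P 0 (G x) := hG x (Or.inr hx1)
      have gGy : Ge P 0 (G y) := hG y (Or.inr hy1)
      rcases Nat.eq_zero_or_pos (P.ord y).toNat with hy2 | hy2
      · have hy3 : P.ord y = 0 := by omega
        rw [hh]
        have := ge_div hy gGx
        rwa [hy3, sub_zero] at this
      · have hy3 : 1 ≤ P.ord y := by omega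
        have gg : Ge P 0 g := by
          have h1 : g = (3 : ℤ) * x ^ 2 + A := by
            rw [hg]
            push_cast
            ring
          rw [h1]
          exact Ge.add (ge_int_mul 3 (by simpa using gx.pow 2)) gA
        have hg1 : P.ord g = 0 := by
          rcases gg with h1 | h1
          · exact absurd h1 hg0
          by_contra hne
          have hg2 : Ge P 1 g := Or.inr (by omega)
          have gf : Ge P 1 (x ^ 3 + A * x + B) := by
            rw [← hxy]
            right
            rw [P.ord_pow]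
            push_cast
            linarith
          have hid : (4 : K) * A ^ 3 + 27 * B ^ 2 =
              (((27 : ℤ) : K) * B - ((18 : ℤ) : K) * (A * x)) * (x ^ 3 + A * x + B) +
              (((6 : ℤ) : K) * (A * x ^ 2) - ((9 : ℤ) : K) * (B * x) + ((4 : ℤ) : K) * A ^ 2) * g := by
            rw [hg]
            push_cast
            ring
          have g1 : Ge P 0 (((27 : ℤ) : K) * B - ((18 : ℤ) : K) * (A * x)) :=
            Ge.sub (ge_int_mul 27 gB) (ge_int_mul 18 (by simpa using gA.mul gx))
          have g2 : Ge P 0 (((6 : ℤ) : K) * (A * x ^ 2) - ((9 : ℤ) : K) * (B * x) +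
              ((4 : ℤ) : K) * A ^ 2) :=
            Ge.add (Ge.sub (ge_int_mul 6 (by simpa using gA.mul (gx.pow 2)))
              (ge_int_mul 9 (by simpa using gB.mul gx))) (ge_int_mul 4 (by simpa using gA.pow 2))
          have h3 : Ge P 1 (4 * A ^ 3 + 27 * B ^ 2) := by
            rw [hid]
            exact Ge.add (by simpa using g1.mul gf) (by simpa using g2.mul hg2)
          rcases h3 with h3 | h3
          · exact hΔ h3
          · omega
        have h1 : h = 2 * G y / g := by
          rw [hh]
          field_simp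
          linear_combination -e1
        rw [h1]
        have h2 : Ge P 0 (2 * G y) := by
          have := ge_int_mul 2 gGy
          simpa using this
        have := ge_div hg0 h2
        rwa [hg1, sub_zero] at this

end Pool.Agent.TH585.SV
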