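import Pool.Agent.TH585.SV.Fib6

/-!
Bogomolov sheaves from linear systems.
-/

set_option autoImplicit false

open FF Module Pool.Agent.W603.LV Pool.Agent.W602.GT Pool.Agent.W602.Cov Pool.Agent.W602.Cov.G
open Pool.Agent.W168.CG.PGR Pool.Agent.TH152.AC Pool.Agent.TH152.HY Pool.Agent.TH766.MC

namespace Pool.Agent.TH585.SV

variable {N d e k n q : ℕ} {K : Type} [Field K] [Algebra ℂ K]

/-- the data for a linear system with members which do not decompose it -/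
theorem lin_data1 (hn : 1 ≤ n) {V : Submodule ℂ K} (hV : Module.finrank ℂ V = n + 1)
    {φ : Fin q → K} (hφV : ∀ i, φ i ∈ V) (hφ0 : ∀ i, φ i ≠ 0)
    (hdec : ¬ ∃ V₁ V₂ : Submodule ℂ K, V₁ ≠ ⊥ ∧ V₂ ≠ ⊥ ∧ V₁ ⊓ V₂ = ⊥ ∧ V₁ ⊔ V₂ = V ∧
      ∀ i, φ i ∈ V₁ ∨ φ i ∈ V₂) {s B : ℝ}
    (hs : ((n : ℝ) + 2) * B < 2 * s ∨
      ((∃ τ : Fin (n + 3) → Fin q, ∀ i j, i ≠ j → ∀ t : ℂ, φ (τ i) ≠ t • φ (τ j)) ∧
        ((n : ℝ) + 1) * B < 2 * s)) :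
    ∃ (y : Fin (n + 1) → K) (ℓ : Fin q → Form n) (R : ℕ),
      LinearIndependent ℂ y ∧ (∀ i, lf (ℓ i) y = φ i) ∧ (∀ i, ℓ i ≠ 0) ∧
      Comps ℓ (fun _ => (0 : Fin 1)) ∧ ¬ Splits ℓ (1 + 1) ∧
      Submodule.span ℂ (Set.range ℓ) = ⊤ ∧ Bound ℓ 1 R ∧ (R : ℝ) * B < 2 * s ∧
      (∀ ψ : Form n, lf ψ y ∈ V) ∧ ∀ f ∈ V, ∃ ψ : Form n, lf ψ y = f := by
  classical
  have hfin : Module.Finite ℂ V := Module.finite_of_finrank_pos (by omega)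
  let b : Basis (Fin (n + 1)) ℂ V := Module.finBasisOfFinrankEq ℂ V hV
  obtain ⟨x, hx⟩ : ∃ x : Fin (n + 1) → K, ∀ j, x j = (b j : K) := ⟨fun j => b j, fun _ => rfl⟩
  have hli : LinearIndependent ℂ x := by
    have h1 := b.linearIndependent.map' V.subtype V.ker_subtype
    have h2 : x = V.subtype ∘ b := funext hx
    rw [h2]
    exact h1
  have hfm : ∀ f ∈ V, ∃ ψ : Form n, lf ψ x = f := by
    intro f hf
    refine ⟨∑ j, b.repr ⟨f, hf⟩ j • (LinearMap.proj j : Form n), ?_⟩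
    rw [← lfm_apply, map_sum]
    simp only [map_smul, lfm_apply, lf_proj]
    have h1 := congrArg V.subtype (b.sum_repr ⟨f, hf⟩)
    rw [map_sum] at h1
    simp only [map_smul] at h1
    simp only [hx]
    exact h1
  have hmem : ∀ ψ : Form n, lf ψ x ∈ V := by
    intro ψ
    rw [lf_eq_smul]
    refine Submodule.sum_mem _ fun j _ => Submodule.smul_mem _ _ ?_
    rw [hx]
    exact (b j).2
  choose ℓ hℓ using fun i => hfm (φ i) (hφV i)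
  have hr : LinearMap.range (lfm x) = V := by
    apply le_antisymm
    · rintro _ ⟨ψ, rfl⟩
      exact hmem ψ
    · intro f hf
      obtain ⟨ψ, hψ⟩ := hfm f hf
      exact ⟨ψ, hψ⟩
  have hred : ¬ Reducible ℓ := by
    intro hred
    apply hdec
    obtain ⟨V₁, V₂, h1, h2, h3, h4, h5⟩ := decomposable_of_reducible hli hr hred
    refine ⟨V₁, V₂, h1, h2, h3, h4, fun i => ?_⟩
    rw [← hℓ i]
    exact h5 i
  have hspan := Pool.Agent.W392.CG.span_top hn ℓ hred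
  obtain ⟨R, hR, hRs⟩ : ∃ R : ℕ, Bound ℓ 1 R ∧ (R : ℝ) * B < 2 * s := by
    rcases hs with hs | ⟨⟨τ, hτ⟩, hs⟩
    · exact ⟨n + 2, Or.inl (by omega), by push_cast; exact hs⟩
    · refine ⟨n + 1, Or.inr ⟨rfl, ⟨τ, fun i j hij t heq => hτ i j hij t ?_⟩, rfl⟩,
        by push_cast; exact hs⟩
      rw [← hℓ, ← hℓ, heq, lf_smul, Algebra.smul_def]
  refine ⟨x, ℓ, R, hli, hℓ, fun i h0 => hφ0 i ?_, comps_one, not_splits_two hred, hspan, hR, hRs,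
    hmem, hfm⟩
  rw [← hℓ i, h0, lf_zero]

/-- the multiplicities -/
theorem lin_high1 {V : Submodule ℂ K} {φ : Fin q → K} (hφ0 : ∀ i, φ i ≠ 0)
    {X : Set (Place ℂ K)} {δ : Place ℂ K → ℝ} {s : ℝ} {x y : Fin (n + 1) → K} {ℓ : Fin q → Form n}
    (hspan : Submodule.span ℂ (Set.range ℓ) = ⊤)
    (hℓ : ∀ i, lf (ℓ i) y = φ i) (hmem : ∀ ψ : Form n, lf ψ y ∈ V)
    (hfm : ∀ f ∈ V, ∃ ψ : Form n, lf ψ y = f) (hy0 : y 0 ≠ 0)
    (hxy : ∀ ψ : Form n, lf ψ y = lf ψ x * y 0)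
    (h : ∀ P ∈ X, Divisorial N P → ∀ a : ℤ, (∀ f ∈ V, f = 0 ∨ a ≤ P.ord f) →
      (∃ f ∈ V, f ≠ 0 ∧ P.ord f = a) → (∃ i, P.ord (φ i) ≠ a) →
      ∃ i, s * (1 - δ P) ≤ ((P.ord (φ i) - a : ℤ) : ℝ)) :
    HighV N ℓ (fun _ => (0 : Fin 1)) x X δ s := by
  refine lin_high2 hφ0 hℓ hmem hfm hy0 hxy fun P hPX hPd a h1 h2 h3 => ?_
  obtain ⟨i, hi⟩ := h P hPX hPd a h1 h2 h3
  obtain ⟨i', hi'⟩ : ∃ i', P.ord (φ i') = a := by
    by_contra hcon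
    push Not at hcon
    obtain ⟨f, hf, hf0, hfa⟩ := h2
    obtain ⟨ψ, rfl⟩ := hfm f hf
    have h3 := ge_span P (a + 1) (Set.range ℓ) y (by
      rintro _ ⟨i, rfl⟩
      right
      rw [hℓ i]
      have h4 := hcon i
      rcases h1 (φ i) (by rw [← hℓ i]; exact hmem _) with h5 | h5
      · exact absurd h5 (hφ0 i)
      · omega) ψ (by rw [hspan]; trivial)
    rcases h3 with h3 | h3
    · exact hf0 h3
    · omega
  refine ⟨i, i', rfl, ?_⟩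
  rw [hi']
  exact hi

/-- **Bogomolov sheaves from linear systems.** -/
theorem lin_bog (hd : 1 ≤ d) (hdk : d + k = n) (hK : Algebra.trdeg ℂ K = (d + e : ℕ))
    {V : Submodule ℂ K} (hV : Module.finrank ℂ V = n + 1) (hL : Algebra.trdeg ℂ (rf V) = d)
    {φ : Fin q → K} (hφV : ∀ i, φ i ∈ V) (hφ0 : ∀ i, φ i ≠ 0)
    (hdec : ¬ ∃ V₁ V₂ : Submodule ℂ K, V₁ ≠ ⊥ ∧ V₂ ≠ ⊥ ∧ V₁ ⊓ V₂ = ⊥ ∧ V₁ ⊔ V₂ = V ∧
      ∀ i, φ i ∈ V₁ ∨ φ i ∈ V₂)
    (X : Set (Place ℂ K)) {s : ℝ}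
    (hs : ((n : ℝ) + 2) * ((k + 1) * (k + 2)) < 2 * s ∨
      ((∃ τ : Fin (n + 3) → Fin q, ∀ i j, i ≠ j → ∀ t : ℂ, φ (τ i) ≠ t • φ (τ j)) ∧
        ((n : ℝ) + 1) * ((k + 1) * (k + 2)) < 2 * s))
    (h : ∀ P ∈ X, Divisorial N P → ∀ a : ℤ, (∀ f ∈ V, f = 0 ∨ a ≤ P.ord f) →
      (∃ f ∈ V, f ≠ 0 ∧ P.ord f = a) → (∃ i, P.ord (φ i) ≠ a) →
      ∃ i, s ≤ ((P.ord (φ i) - a : ℤ) : ℝ)) :
    ∃ η : (Derivation ℂ K K) [⋀^Fin d]→ₗ[K] K, η ≠ 0 ∧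
      (∃ t : Fin d → K, (∀ i, t i ∈ rf V) ∧ AlgebraicIndependent ℂ t ∧
        ∀ D, η D = (Matrix.of fun i j => D i (t j)).det) ∧ ∃ M : ℕ, 0 < M ∧
      ∃ g : Fin (d + 1) → K, g 0 ≠ 0 ∧ (∀ j, g j / g 0 ∈ rf V) ∧
      AlgebraicIndependent ℂ (fun i : Fin d => g i.succ / g 0) ∧
      ∀ P ∈ X, Divisorial N P → ∀ D : Fin d → Derivation ℂ K K, (∀ i, DerReg P (D i)) →
        ∀ j, P.Reg (g j * η D ^ M) := by
  obtain ⟨y, ℓ, R, hliy, hℓ, hℓ0, hcomp, hspl, hspan, hB, hs', hmem, hfm⟩ :=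
    lin_data1 (by omega) hV hφV hφ0 hdec hs
  have hyV : ∀ j, y j ∈ V := fun j => by
    have := hmem (LinearMap.proj j)
    rwa [lf_proj] at this
  obtain ⟨x, σ, u, Dt, Du, hli, hσ, F, hx, hxy, hLHz, xL, hxL, hbas⟩ :=
    exists_frame_lin hliy hyV hfm hL hK
  have hh := lin_high1 (N := N) (X := X) (δ := fun _ => 0) (s := s) hφ0 hspan hℓ hmem hfm
    (hliy.ne_zero 0) hxy (fun P hPX hPd a h1 h2 h3 => by
      obtain ⟨i, h5⟩ := h P hPX hPd a h1 h2 h3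
      exact ⟨i, by rw [sub_zero, mul_one]; exact h5⟩)
  obtain ⟨M, hM, f, hf, w, hw0, hw, hwL, hest⟩ := F.est_kod (by omega) hℓ0 hcomp hspl hspan hB
    hli hdk σ hσ hx hxL hbas X (fun _ => 0) (fun _ _ => le_rfl) hs' hh rfl
  refine ⟨dform (fun j => x (σ j.succ)), fun h0 => ?_, ⟨fun j => x (σ j.succ), fun j => ?_, ?_,
    fun _ => rfl⟩, M, hM, fun j => f * w j, ?_, fun j => ?_, ?_, fun P hPX hPd D hD j => ?_⟩
  · have h1 := congrArg (fun T => T Dt) h0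
    change (mtx (fun j => x (σ j.succ)) Dt).det = 0 at h1
    have h3 : mtx (fun j => x (σ j.succ)) Dt = 1 := by
      ext i j
      change Dt i (x (σ j.succ)) = _
      rw [F.tt, Matrix.one_apply]
    rw [h3, Matrix.det_one] at h1
    exact one_ne_zero h1
  · change x (σ j.succ) ∈ rf V
    rw [← hxL]
    exact Subtype.coe_prop _
  · have h1 : (fun j : Fin d => x (σ j.succ)) = fun j => algebraMap (rf V) K (xL (σ j.succ)) :=
      funext fun j => (hxL _).symm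
    rw [h1]
    exact hbas.1.map' (f := IsScalarTower.toAlgHom ℂ (rf V) K) (algebraMap (rf V) K).injective
  · change f * w 0 ≠ 0
    rw [hw0, mul_one]
    exact hf
  · change f * w j / (f * w 0) ∈ rf V
    rw [hw0, mul_one, mul_div_cancel_left₀ _ hf]
    exact hwL j
  · have h1 : (fun i : Fin d => f * w i.succ / (f * w 0)) = fun i : Fin d => w i.succ := by
      funext i
      rw [hw0, mul_one, mul_div_cancel_left₀ _ hf]
    change AlgebraicIndependent ℂ (fun i : Fin d => f * w i.succ / (f * w 0))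
    rw [h1]
    exact hw
  · obtain ⟨c', h3, h4⟩ := hest P hPX hPd D hD j
    rw [reg_iff_ge]
    have h5 : (0 : ℤ) ≤ c' := by
      have : (0 : ℝ) ≤ (c' : ℝ) := by simpa using h4
      exact_mod_cast this
    have h6 := h3.mono h5
    rw [mul_comm] at h6
    exact h6

end Pool.Agent.TH585.SV
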