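import Pool.Agent.TH585.SV.Ell
import Pool.Agent.TH585.SV.Fib10

/-!
Linear systems whose fibres are covers of products of elliptic curves.
-/

set_option autoImplicit false

open FF Module Pool.Agent.W603.LV Pool.Agent.W602.GT Pool.Agent.W602.Cov Pool.Agent.W602.Cov.G
open Pool.Agent.W168.CG.PGR Pool.Agent.TH152.AC Pool.Agent.TH152.HY Pool.Agent.TH766.MC

namespace Pool.Agent.TH585.SV

variable {d e k n q c κ : ℕ} {K : Type} [Field K] [Algebra ℂ K]

/-- derivations vanish on algebraic elements -/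
theorem der_alg {L : IntermediateField ℂ K} (G : Derivation L K K) {a : K} (ha : IsAlgebraic L a) :
    G a = 0 := by
  have hint : IsIntegral L a := ha.isIntegral
  have h1 := congrArg G (minpoly.aeval L a)
  rw [map_zero, G.map_aeval, smul_eq_mul] at h1
  rcases mul_eq_zero.1 h1 with h2 | h2
  · exfalso
    have : CharZero K := charZero_of_injective_algebraMap (algebraMap ℂ K).injective
    have : CharZero L := charZero_of_injective_algebraMap (algebraMap ℂ L).injective
    have hsep := (minpoly.irreducible hint).separable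
    exact hsep.aeval_derivative_ne_zero (minpoly.aeval L a) h2
  · exact h2

/-- the discriminant form -/
noncomputable def ellf {L : IntermediateField ℂ K} (A B x y : Fin e → K)
    (G : Fin e → Derivation L K K) : K :=
  (∏ j, (4 * A j ^ 3 + 27 * B j ^ 2)) * (Matrix.of fun i j => G i (x j) / y j).det ^ 12

/-- **The discriminant form is regular along the fibres.** -/
theorem ell_fib {N : ℕ} {L : IntermediateField ℂ K} {A B x y : Fin e → K}
    (hA : ∀ j, IsAlgebraic L (A j)) (hB : ∀ j, IsAlgebraic L (B j))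
    (hxy : ∀ j, y j ^ 2 = x j ^ 3 + A j * x j + B j)
    (hΔ : ∀ j, 4 * A j ^ 3 + 27 * B j ^ 2 ≠ 0) (X : Set (Place ℂ K)) :
    FibSec N 12 X (fun _ => 0) L (ellf A B x y) := by
  refine ⟨fun M G => ?_, fun P _ _ G hG => ?_⟩
  · unfold ellf
    have h1 : (Matrix.of fun i j => (fun i => ∑ l, M i l • G l) i (x j) / y j) =
        M * Matrix.of fun i j => G i (x j) / y j := by
      ext i j
      rw [Matrix.mul_apply, Matrix.of_apply]
      have h2 : (∑ l, M i l • G l) (x j) = ∑ l, M i l * G l (x j) := by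
        rw [← Derivation.coeFnAddMonoidHom_apply, map_sum, Finset.sum_apply]
        rfl
      change (∑ l, M i l • G l) (x j) / y j = _
      rw [h2, Finset.sum_div]
      refine Finset.sum_congr rfl fun l _ => ?_
      rw [Matrix.of_apply, mul_div_assoc]
    rw [h1, Matrix.det_mul, mul_pow]
    ring
  · have h1 : ∀ i j, Ge P (-(P.ord (4 * A j ^ 3 + 27 * B j ^ 2) / 12)) (G i (x j) / y j) := by
      intro i j
      have h2 := ell_ge (P := P) (G := (G i).restrictScalars ℂ) (fun f hf => hG i f hf)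
        (der_alg (G i) (hA j)) (der_alg (G i) (hB j)) (hxy j) (hΔ j)
      change Ge P 0 ((4 * A j ^ 3 + 27 * B j ^ 2) * (G i (x j) / y j) ^ 12) at h2
      by_cases h0 : G i (x j) / y j = 0
      · exact Or.inl h0
      · rcases h2 with h2 | h2
        · exact absurd h2 (mul_ne_zero (hΔ j) (pow_ne_zero _ h0))
        · right
          rw [P.ord_mul (hΔ j) (pow_ne_zero _ h0), P.ord_pow] at h2
          push_cast at h2
          omega
    have h2 := ge_det' P (Matrix.of fun i j => G i (x j) / y j)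
      (∑ j, -(P.ord (4 * A j ^ 3 + 27 * B j ^ 2) / 12))
      (fun _ j => -(P.ord (4 * A j ^ 3 + 27 * B j ^ 2) / 12)) (fun i j => h1 i j)
      (fun _ => le_rfl)
    have h3 := Ge.prod (P := P) Finset.univ (fun j => 4 * A j ^ 3 + 27 * B j ^ 2)
      (fun j => P.ord (4 * A j ^ 3 + 27 * B j ^ 2)) (fun j _ => Pool.Agent.W602.GT.ge_ord P _)
    have h4 := h3.mul (h2.pow 12)
    have h5 : Ge P 0 (ellf A B x y G) := by
      refine h4.mono ?_
      rw [Finset.mul_sum, ← Finset.sum_add_distrib]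
      refine Finset.sum_nonneg fun j _ => ?_
      push_cast
      omega
    rcases h5 with h5 | h5
    · exact Or.inl h5
    · right
      have : (0 : ℝ) ≤ (P.ord (ellf A B x y G) : ℝ) := by exact_mod_cast h5
      simpa using this

/-- the discriminant form is not zero -/
theorem ell_ne {L : IntermediateField ℂ K} {A B x y : Fin e → K}
    (hA : ∀ j, IsAlgebraic L (A j)) (hB : ∀ j, IsAlgebraic L (B j))
    (hxy : ∀ j, y j ^ 2 = x j ^ 3 + A j * x j + B j)
    (hΔ : ∀ j, 4 * A j ^ 3 + 27 * B j ^ 2 ≠ 0) (hx : IsTranscendenceBasis L x) :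
    ∃ G : Fin e → Derivation L K K, ellf A B x y G ≠ 0 := by
  classical
  have : CharZero K := charZero_of_injective_algebraMap (algebraMap ℂ K).injective
  have h1 : ∀ i : Fin e, ∃ D : Derivation L K K, ∀ j, D (x j) = if i = j then 1 else 0 :=
    fun i => exists_der (L := L) x hx _
  choose G hG using h1
  have hy : ∀ j, y j ≠ 0 := by
    intro j h0
    have h2 := congrArg (G j) (hxy j)
    have h3 := hG j j
    rw [if_pos rfl] at h3
    rw [h0, map_add, map_add, (G j).leibniz, (G j).leibniz_pow, (G j).leibniz_pow,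
      der_alg (G j) (hA j), der_alg (G j) (hB j), h3] at h2
    simp only [nsmul_eq_mul, smul_eq_mul, Nat.cast_ofNat, mul_zero, add_zero, map_zero,
      mul_one] at h2
    have h4 := congrArg (G j) h2
    rw [map_zero, map_add, der_alg (G j) (hA j)] at h4
    have h5 : (G j) (3 * x j ^ (3 - 1)) = 6 * x j := by
      have h6 : (3 : K) * x j ^ (3 - 1) = x j ^ 2 + x j ^ 2 + x j ^ 2 := by ring
      rw [h6, map_add, map_add, (G j).leibniz_pow, h3]
      simp only [nsmul_eq_mul, smul_eq_mul, Nat.cast_ofNat, mul_one]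
      ring
    rw [h5, add_zero] at h4
    have h7 : x j = 0 := by
      rcases mul_eq_zero.1 h4.symm with h8 | h8
      · norm_num at h8
      · exact h8
    rw [h7, map_zero] at h3
    exact zero_ne_one h3
  refine ⟨G, ?_⟩
  unfold ellf
  have h2 : (Matrix.of fun i j => G i (x j) / y j) = Matrix.diagonal fun j => (y j)⁻¹ := by
    ext i j
    rw [Matrix.of_apply, hG, Matrix.diagonal_apply]
    by_cases hij : i = j
    · subst hij
      simp
    · simp [hij]
  rw [h2, Matrix.det_diagonal]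
  exact mul_ne_zero (Finset.prod_ne_zero_iff.2 fun j _ => hΔ j)
    (pow_ne_zero _ (Finset.prod_ne_zero_iff.2 fun j _ => inv_ne_zero (hy j)))

section pairs0

variable {t : Fin d → K} {u : Fin e → K} {Dt : Fin d → Derivation ℂ K K}
  {Du : Fin e → Derivation ℂ K K}

/-- pairs with a form along the fibres; the ratios are functions on the base -/
theorem Frame.pairs0 (F : Frame t u Dt Du) {L : IntermediateField ℂ K}
    (hL : ∀ f ∈ L, Hz Du f) (htL : ∀ j, t j ∈ L) {X : Set (Place ℂ K)} {δ₁ δ₂ δ : Place ℂ K → ℝ}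
    (hδ : ∀ P ∈ X, δ₁ P + δ₂ P ≤ δ P) {m : ℕ} (hm : 0 < m)
    {θ : (Fin e → Derivation L K K) → K} (hθ : IsPluri m θ)
    (hreg : ∀ P ∈ X, Divisorial (d + e) P → ∀ G : Fin e → Derivation L K K,
      (∀ i f, P.Reg f → P.Reg (G i f)) → θ G = 0 ∨ -(m * δ₂ P) ≤ (P.ord (θ G) : ℝ))
    (hne : ∃ G, θ G ≠ 0)
    {M : ℕ} (hM : 0 < M) {f : K} (hf : f ≠ 0) {w : Fin (κ + 1) → K} (hw0 : w 0 = 1)
    (hest : ∀ P ∈ X, Divisorial (d + e) P → ∀ E : Fin d → Derivation ℂ K K,
      (∀ i, DerReg P (E i)) → ∀ a, ∃ c' : ℤ,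
        Ge P c' ((mtx t E).det ^ M * (f * w a)) ∧ -(M * δ₁ P) ≤ (c' : ℝ)) :
    ∃ ω : Fin (κ + 1) → (Fin (d + e) → Derivation ℂ K K) → K,
      (∀ j, PairSec (d + e) X δ (M * m) (ω j)) ∧
      ∃ D, ω 0 D ≠ 0 ∧ ∀ i : Fin κ, ω i.succ D / ω 0 D = w i.succ := by
  classical
  -- the vertical frame
  obtain ⟨Dv, hDv⟩ : ∃ Dv : Fin e → Derivation L K K, ∀ l f, Dv l f = Du l f :=
    ⟨fun l => lft L (Du l) (fun f hf => hL f hf l), fun _ _ => rfl⟩
  have hall : ∀ G : Fin e → Derivation L K K,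
      θ G = (Matrix.of fun i l => G i (u l) : Matrix (Fin e) (Fin e) K).det ^ m * θ Dv := by
    intro G
    have h1 : G = fun i => ∑ l, (Matrix.of fun i l => G i (u l) : Matrix (Fin e) (Fin e) K) i l •
        Dv l := by
      funext i
      ext f
      have h2 := F.eq ((G i).restrictScalars ℂ) f
      change G i f = ∑ j, G i (t j) * Dt j f + ∑ l, G i (u l) * Du l f at h2
      have h3 : ∀ j, G i (t j) = 0 := by
        intro j
        have h4 : t j = algebraMap L K ⟨t j, htL j⟩ := rfl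
        rw [h4]
        exact (G i).map_algebraMap _
      have h5 : (∑ l, (Matrix.of fun i l => G i (u l) : Matrix (Fin e) (Fin e) K) i l • Dv l) f =
          ∑ l, G i (u l) * Du l f := by
        rw [← Derivation.coeFnAddMonoidHom_apply, map_sum, Finset.sum_apply]
        refine Finset.sum_congr rfl fun l _ => ?_
        change G i (u l) * Dv l f = _
        rw [hDv]
      rw [h5, h2]
      simp only [h3, zero_mul, Finset.sum_const_zero, zero_add]
    conv_lhs => rw [h1]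
    exact hθ _ _
  obtain ⟨G0, hG0⟩ := hne
  have hθ0 : θ Dv ≠ 0 := by
    intro h0
    apply hG0
    rw [hall, h0, mul_zero]
  -- the sections
  obtain ⟨g, hg⟩ : ∃ g : Fin (κ + 1) → K, ∀ a, g a = f ^ m * w a * θ Dv ^ M := ⟨_, fun _ => rfl⟩
  have hsec : ∀ a, PairSec (d + e) X δ (M * m) (pf t u M m (g a)) := by
    intro a
    refine ⟨pf_pluri t u M m _, fun P hPX hPd D hD => ?_⟩
    by_cases h0 : (big t u D).det = 0
    · left
      unfold pf
      rw [h0, zero_pow (Nat.mul_pos hM hm).ne', mul_zero]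
    obtain ⟨E, G, hE, hG, hGt, hdet⟩ := F.split hD h0
    have hGL : ∀ i, ∀ f ∈ L, G i f = 0 := fun i => F.vert hL (hGt i)
    obtain ⟨Gv, hGv⟩ : ∃ Gv : Fin e → Derivation L K K, ∀ l f, Gv l f = G l f :=
      ⟨fun l => lft L (G l) (hGL l), fun _ _ => rfl⟩
    have h1 : GeR P (-(m * δ₂ P)) ((mtx u G).det ^ m * θ Dv) := by
      have h2 := hreg P hPX hPd Gv (fun i f hf => by rw [hGv]; exact hG i f hf)
      have h3 : θ Gv = (mtx u G).det ^ m * θ Dv := by
        rw [hall]
        congr 3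
        ext i l
        exact hGv i (u l)
      rw [h3] at h2
      exact h2
    have h2 : ∀ a, GeR P (-(M * δ₁ P)) ((mtx t E).det ^ M * (f * w a)) := by
      intro a
      obtain ⟨c', h3, h4⟩ := hest P hPX hPd E hE a
      rcases h3 with h3 | h3
      · exact Or.inl h3
      · right
        have : (c' : ℝ) ≤ P.ord ((mtx t E).det ^ M * (f * w a)) := by exact_mod_cast h3
        linarith
    have h3 := (((h2 0).pow (m - 1)).mul (h2 a)).mul (h1.pow M)
    rw [hw0, mul_one] at h3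
    have e1 : ((mtx t E).det ^ M * f) ^ (m - 1) * ((mtx t E).det ^ M * (f * w a)) *
        ((mtx u G).det ^ m * θ Dv) ^ M =
        g a * ((mtx t E).det * (mtx u G).det) ^ (M * m) := by
      rw [hg]
      obtain ⟨m', rfl⟩ := Nat.exists_eq_succ_of_ne_zero hm.ne'
      simp only [Nat.succ_eq_add_one, Nat.add_sub_cancel]
      have e2 : (mtx t E).det ^ (M * (m' + 1)) =
          ((mtx t E).det ^ M) ^ m' * (mtx t E).det ^ M := by
        rw [← pow_mul, ← pow_add]
        congr 1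
      have e3 : (mtx u G).det ^ (M * (m' + 1)) = ((mtx u G).det ^ (m' + 1)) ^ M := by
        rw [← pow_mul]
        congr 1
        ring
      rw [mul_pow ((mtx t E).det), e2, e3, mul_pow, mul_pow, pow_succ f]
      ring
    rw [e1] at h3
    have h4 : GeR P (-((M * m : ℕ) * δ P)) (g a * ((mtx t E).det * (mtx u G).det) ^ (M * m)) := by
      refine h3.mono ?_
      have hm1 : ((m - 1 : ℕ) : ℝ) = m - 1 := by
        rw [Nat.cast_sub hm]
        simp
      rw [hm1]
      have h5 := hδ P hPX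
      have h6 : (0 : ℝ) ≤ M * m := by positivity
      have h7 := mul_le_mul_of_nonneg_left h5 h6
      push_cast
      nlinarith
    change GeR P (-((M * m : ℕ) * δ P)) (pf t u M m (g a) D)
    unfold pf
    rcases hdet with h5 | h5
    · rw [h5]
      exact h4
    · rw [h5]
      rcases Nat.even_or_odd (M * m) with h6 | h6
      · rw [h6.neg_pow]
        exact h4
      · rw [h6.neg_pow, mul_neg]
        exact h4.neg
  obtain ⟨D0, hD0⟩ : ∃ D0 : Fin (d + e) → Derivation ℂ K K, (big t u D0).det = 1 :=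
    ⟨_, F.big_frame⟩
  have hval : ∀ z : K, pf t u M m z D0 = z := by
    intro z
    unfold pf
    rw [hD0, one_pow, mul_one]
  refine ⟨fun a => pf t u M m (g a), hsec, D0, ?_, fun i => ?_⟩
  · change pf t u M m (g 0) D0 ≠ 0
    rw [hval, hg, hw0]
    exact mul_ne_zero (mul_ne_zero (pow_ne_zero _ hf) one_ne_zero) (pow_ne_zero _ hθ0)
  · change pf t u M m (g i.succ) D0 / pf t u M m (g 0) D0 = w i.succ
    rw [hval, hval, hg, hg, hw0]
    have := pow_ne_zero m hf
    have := pow_ne_zero M hθ0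
    field_simp

end pairs0

/-- **Linear systems with fibres over products of elliptic curves: Kodaira dimension.** -/
theorem lin_ell_kod (hd : 1 ≤ d) (hdk : d + k = n) (hK : Algebra.trdeg ℂ K = (d + e : ℕ))
    {V : Submodule ℂ K} (hV : Module.finrank ℂ V = n + 1) (hL : Algebra.trdeg ℂ (rf V) = d)
    {φ : Fin q → K} (hφV : ∀ i, φ i ∈ V) (hφ0 : ∀ i, φ i ≠ 0)
    (hdec : ¬ ∃ V₁ V₂ : Submodule ℂ K, V₁ ≠ ⊥ ∧ V₂ ≠ ⊥ ∧ V₁ ⊓ V₂ = ⊥ ∧ V₁ ⊔ V₂ = V ∧
      ∀ i, φ i ∈ V₁ ∨ φ i ∈ V₂)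
    (X : Set (Place ℂ K)) (δ : Place ℂ K → ℝ) (hδ : ∀ P ∈ X, 0 ≤ δ P) {s : ℝ}
    (hs : ((n : ℝ) + 2) * ((k + 1) * (k + 2)) < 2 * s ∨
      ((∃ τ : Fin (n + 3) → Fin q, ∀ i j, i ≠ j → ∀ t : ℂ, φ (τ i) ≠ t • φ (τ j)) ∧
        ((n : ℝ) + 1) * ((k + 1) * (k + 2)) < 2 * s))
    (h : ∀ P ∈ X, Divisorial (d + e) P → ∀ a : ℤ, (∀ f ∈ V, f = 0 ∨ a ≤ P.ord f) →
      (∃ f ∈ V, f ≠ 0 ∧ P.ord f = a) → (∃ i, P.ord (φ i) ≠ a) →
      ∃ i, s * (1 - δ P) ≤ ((P.ord (φ i) - a : ℤ) : ℝ))
    {A B x y : Fin e → K} (hA : ∀ j, IsAlgebraic (rf V) (A j))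
    (hB : ∀ j, IsAlgebraic (rf V) (B j)) (hxy : ∀ j, y j ^ 2 = x j ^ 3 + A j * x j + B j)
    (hΔ : ∀ j, 4 * A j ^ 3 + 27 * B j ^ 2 ≠ 0) (hx : IsTranscendenceBasis (rf V) x) :
    ∃ N : ℕ, 0 < N ∧ ∃ ω : Fin (d + 1) → (Fin (d + e) → Derivation ℂ K K) → K,
      (∀ j, PairSec (d + e) X δ N (ω j)) ∧
      ∃ D, ω 0 D ≠ 0 ∧ (∀ i : Fin d, ω i.succ D / ω 0 D ∈ rf V) ∧
        AlgebraicIndependent ℂ (fun i : Fin d => ω i.succ D / ω 0 D) := by
  obtain ⟨y', ℓ, R, hliy, hℓ, hℓ0, hcomp, hspl, hspan, hBd, hs', hmem, hfm⟩ :=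
    lin_data1 (by omega) hV hφV hφ0 hdec hs
  have hyV : ∀ j, y' j ∈ V := fun j => by
    have := hmem (LinearMap.proj j)
    rwa [lf_proj] at this
  obtain ⟨x', σ, u, Dt, Du, hli, hσ, F, hx', hxy', hLHz, xL, hxL, hbas⟩ :=
    exists_frame_lin hliy hyV hfm hL hK
  have hh := lin_high1 (N := d + e) (X := X) (δ := δ) (s := s) hφ0 hspan hℓ hmem hfm
    (hliy.ne_zero 0) hxy' h
  obtain ⟨M, hM, f, hf, w, hw0, hw, hwL, hest⟩ := F.est_kod (by omega) hℓ0 hcomp hspl hspan hBd
    hli hdk σ hσ hx' hxL hbas X δ hδ hs' hh rfl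
  have htL : ∀ j : Fin d, x' (σ j.succ) ∈ rf V := fun j => by
    rw [← hxL]
    exact Subtype.coe_prop _
  have hE := ell_fib (N := d + e) hA hB hxy hΔ X
  obtain ⟨ω, h1, D, h2, h3⟩ := F.pairs0 (δ₂ := fun _ => 0) hLHz htL
    (fun P _ => by rw [add_zero]) (by norm_num : 0 < 12) hE.1 hE.2 (ell_ne hA hB hxy hΔ hx) hM hf
    hw0 hest
  refine ⟨M * 12, by positivity, ω, h1, D, h2, fun i => ?_, ?_⟩
  · rw [h3]
    exact hwL _
  · have h4 : (fun i : Fin d => ω i.succ D / ω 0 D) = fun i : Fin d => w i.succ := funext h3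
    rw [h4]
    exact hw

end Pool.Agent.TH585.SV
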