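import Pool.Agent.TH585.SV.Fib

/-!
Existence of minimal words for maps which are not generically finite, and the forms.
-/

set_option autoImplicit false

open FF Module Pool.Agent.W603.LV Pool.Agent.W602.GT Pool.Agent.W602.Cov Pool.Agent.W602.Cov.G
open Pool.Agent.W168.CG.PGR Pool.Agent.TH152.AC Pool.Agent.TH152.HY Pool.Agent.TH766.MC

namespace Pool.Agent.TH585.SV

variable {d e k n q : ℕ} {K : Type} [Field K] [Algebra ℂ K]

/-- words of small lengths, if stable spaces of words are the whole space -/
theorem greedy3 {D : Fin d → Derivation ℂ K K} {g : Fin q → K} (hg : ∀ i, g i ≠ 0)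
    {I0 : Fin (d + 1) → Fin q} (hI : bw D (fun j => g (I0 j)) ≠ 0) {x : Fin (n + 1) → K}
    (htop : ∀ k, x ∈ V D g x k → (∀ l, ∀ y ∈ V D g x k, (fun j => D l (y j)) ∈ V D g x k) →
      V D g x k = ⊤)
    (hblk : LinearIndependent K (blk D x)) (j : ℕ) (hj : d + j ≤ n) :
    ∃ S : Fin j → List (Letter d q), LinearIndependent K (fun a =>
      (Submodule.span K (Set.range (blk D x))).mkQ (wv D g x (S a))) ∧
      ∀ a, (S a).length ≤ a + 2 := by
  classical
  set U := Submodule.span K (Set.range (blk D x)) with hU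
  have hUV : U ≤ V D g x 2 := by
    rw [hU, Submodule.span_le]
    rintro _ ⟨i, rfl⟩
    exact blk_mem hg hI x i
  have hrank : Module.finrank K ((Fin (n + 1) → K) ⧸ U) + (d + 1) = n + 1 := by
    have h1 := Submodule.finrank_quotient_add_finrank U
    have h2 : Module.finrank K U = d + 1 := by
      rw [hU, finrank_span_eq_card hblk, Fintype.card_fin]
    rw [h2, Module.finrank_fin_fun] at h1
    exact h1
  induction j with
  | zero => exact ⟨Fin.elim0, linearIndependent_empty_type, fun a => a.elim0⟩
  | succ j ih =>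
    obtain ⟨S, hS, hlen⟩ := ih (by omega)
    set W := Submodule.span K (Set.range fun a => U.mkQ (wv D g x (S a))) with hW
    have hex : ∃ w : List (Letter d q), w.length ≤ j + 2 ∧ U.mkQ (wv D g x w) ∉ W := by
      by_contra hcon
      push Not at hcon
      have h1 : V D g x (j + 3) ≤ W.comap U.mkQ := by
        unfold V
        rw [Submodule.span_le]
        rintro _ ⟨w, hw, rfl⟩
        have hw' : w.length < j + 3 := hw
        exact hcon w (by omega)
      have h2 : W.comap U.mkQ ≤ V D g x (j + 2) := by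
        have h3 : W = (Submodule.span K (Set.range fun a => wv D g x (S a))).map U.mkQ := by
          rw [hW, Submodule.map_span, ← Set.range_comp]
          rfl
        rw [h3, Submodule.comap_map_mkQ]
        refine sup_le (hUV.trans (V_mono D g x (by omega))) ?_
        rw [Submodule.span_le]
        rintro _ ⟨a, rfl⟩
        refine wv_mem D g x ?_
        have := hlen a
        have := a.2
        omega
      have h3 : V D g x (j + 2) = ⊤ := by
        refine htop _ ?_ ?_
        · have h4 := wv_mem D g x (w := []) (k := j + 2) (by simp)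
          rwa [wv_nil] at h4
        · intro l y hy
          obtain ⟨c, hc⟩ := der_of_op hg hI l
          have e : (fun j => D l (y j)) = ∑ k, c k • opv D g (I0, k) y := by
            funext j
            rw [Finset.sum_apply, hc (y j)]
            rfl
          rw [e]
          exact Submodule.sum_mem _ fun k _ => Submodule.smul_mem _ _
            (h2 (h1 (opv_mem D g x _ hy)))
      have h5 : W = ⊤ := by
        have h6 : W.comap U.mkQ = ⊤ := by
          rw [eq_top_iff, ← h3]
          exact (V_mono D g x (by omega)).trans h1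
        have h7 := Submodule.map_comap_eq_of_surjective (Submodule.mkQ_surjective U) W
        rw [← h7, h6, Submodule.map_top, Submodule.range_mkQ]
      have h6 : Module.finrank K W = j := by
        rw [hW, finrank_span_eq_card hS, Fintype.card_fin]
      rw [h5, finrank_top] at h6
      omega
    obtain ⟨w, hw, hwW⟩ := hex
    refine ⟨Fin.snoc S w, ?_, ?_⟩
    · have e : (fun a => U.mkQ (wv D g x ((Fin.snoc S w : Fin (j + 1) → List (Letter d q)) a))) =
          Fin.snoc (fun a => U.mkQ (wv D g x (S a))) (U.mkQ (wv D g x w)) := by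
        funext a
        refine Fin.lastCases ?_ (fun a => ?_) a
        · simp
        · simp
      rw [e, linearIndependent_finSnoc]
      exact ⟨hS, hwW⟩
    · intro a
      refine Fin.lastCases ?_ (fun a => ?_) a
      · simpa using hw
      · simpa using hlen a

/-- **A minimal tuple of words.** -/
theorem exists_minW3 (ε : Fin (d + 1) ⊕ Fin k ≃ Fin (n + 1)) {D : Fin d → Derivation ℂ K K}
    {g : Fin q → K} (hg : ∀ i, g i ≠ 0) {I0 : Fin (d + 1) → Fin q}
    (hI : bw D (fun j => g (I0 j)) ≠ 0) {x : Fin (n + 1) → K}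
    (htop : ∀ k, x ∈ V D g x k → (∀ l, ∀ y ∈ V D g x k, (fun j => D l (y j)) ∈ V D g x k) →
      V D g x k = ⊤)
    (hblk : LinearIndependent K (blk D x)) :
    ∃ S : Fin k → List (Letter d q), MinW ε D g x S := by
  classical
  have hcard : d + k = n := by
    have := Fintype.card_congr ε
    simp only [Fintype.card_sum, Fintype.card_fin] at this
    omega
  obtain ⟨S1, hS1, hlen⟩ := greedy3 hg hI htop hblk k hcard.le
  have hdet : phi ε D x (fun a => wv D g x (S1 a)) ≠ 0 := by
    refine dt_ne_zero ε ?_
    have h1 := LinearIndependent.sumElim_of_quotient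
      (M' := Submodule.span K (Set.range (blk D x)))
      (f := fun i => ⟨blk D x i, Submodule.subset_span ⟨i, rfl⟩⟩)
      (LinearIndependent.of_comp (Submodule.subtype _) hblk) _ hS1
    exact h1
  have hex : ∃ N : ℕ, ∃ S : Fin k → List (Letter d q),
      phi ε D x (fun a => wv D g x (S a)) ≠ 0 ∧ ∑ a, (S a).length = N := ⟨_, S1, hdet, rfl⟩
  obtain ⟨S, hS, hN⟩ := Nat.find_spec hex
  refine ⟨S, hS, fun S' hS' => ?_, ?_⟩
  · by_contra hne
    rw [hN] at hS'
    exact Nat.find_min hex hS' ⟨S', hne, rfl⟩
  · have h1 : Nat.find hex ≤ ∑ a, (S1 a).length := Nat.find_min' hex ⟨S1, hdet, rfl⟩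
    have h2 : ∑ a, (S1 a).length ≤ ∑ a : Fin k, ((a : ℕ) + 2) :=
      Finset.sum_le_sum fun a _ => hlen a
    rw [hN, ← sum_val2 k]
    omega

section frame

variable {u : Fin e → K} {Dt : Fin d → Derivation ℂ K K} {Du : Fin e → Derivation ℂ K K}
  {t : Fin d → K}

/-- stable spaces of words -/
theorem Frame.top (F : Frame t u Dt Du) {g : Fin q → K} (hg : ∀ i, Hz Du (g i))
    {x : Fin (n + 1) → K} (hx : ∀ j, Hz Du (x j)) (hli : LinearIndependent ℂ x) (k : ℕ)
    (h1 : x ∈ V Dt g x k) (h2 : ∀ l, ∀ y ∈ V Dt g x k, (fun j => Dt l (y j)) ∈ V Dt g x k) :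
    V Dt g x k = ⊤ := by
  classical
  refine stable_top (D := Sum.elim Dt Du ∘ (finSumFinEquiv (m := d) (n := e)).symm)
    (fun f hf => F.const (fun l => ?_) fun l => ?_) hli _ h1 fun l y hy => ?_
  · have := hf (finSumFinEquiv (Sum.inl l))
    rwa [Function.comp_apply, Equiv.symm_apply_apply] at this
  · have := hf (finSumFinEquiv (Sum.inr l))
    rwa [Function.comp_apply, Equiv.symm_apply_apply] at this
  · rw [Function.comp_apply]
    rcases finSumFinEquiv.symm l with l' | l'
    · exact h2 l' y hy
    · change (fun j => Du l' (y j)) ∈ _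
      unfold V at hy
      induction hy using Submodule.span_induction with
      | mem y hy =>
        obtain ⟨w, hw, rfl⟩ := hy
        have e1 : (fun j => Du l' (wv Dt g x w j)) = 0 := by
          funext j
          exact F.hz_wv hg hx w j l'
        rw [e1]
        exact Submodule.zero_mem _
      | zero =>
        have e1 : (fun j => Du l' ((0 : Fin (n + 1) → K) j)) = 0 := by
          funext j
          exact map_zero _
        rw [e1]
        exact Submodule.zero_mem _
      | add y z hy1 hz1 hy hz =>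
        have e1 : (fun j => Du l' ((y + z) j)) = (fun j => Du l' (y j)) + fun j => Du l' (z j) := by
          funext j
          exact map_add _ _ _
        rw [e1]
        exact Submodule.add_mem _ hy hz
      | smul c y hy1 hy =>
        have e1 : (fun j => Du l' ((c • y) j)) = c • (fun j => Du l' (y j)) + Du l' c • y := by
          funext j
          change Du l' (c * y j) = c * Du l' (y j) + Du l' c * y j
          rw [(Du l').leibniz]
          simp only [smul_eq_mul]
          ring
        rw [e1]
        exact Submodule.add_mem _ (Submodule.smul_mem _ _ hy) (Submodule.smul_mem _ _ hy1)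

variable {ℓ : Fin q → Form n}

/-- **The form**, for arbitrary vector fields. -/
theorem Frame.form (hℓ : ∀ i, ℓ i ≠ 0) (hspan : Submodule.span ℂ (Set.range ℓ) = ⊤)
    {x : Fin (n + 1) → K} (hli : LinearIndependent ℂ x) (hdk : d + k = n)
    (σ : Fin (d + 1) → Fin (n + 1)) (hσ : x (σ 0) = 1)
    (F : Frame (fun j => x (σ j.succ)) u Dt Du) (hx : ∀ j, Hz Du (x j)) (p : Bases ℓ → ℕ) :
    ∃ (ε : Fin (d + 1) ⊕ Fin k ≃ Fin (n + 1)) (S : Fin k → List (Letter d q)),
      2 * (1 + ∑ a, (S a).length) ≤ (k + 1) * (k + 2) ∧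
      ∀ s, sg ℓ x p s ε S Dt ≠ 0 ∧ ∀ E : Fin d → Derivation ℂ K K, sg ℓ x p s ε S E =
        (mtx (fun j => x (σ j.succ)) E).det ^ ((1 + ∑ a, (S a).length) * (s * ∑ B, p B)) *
          sg ℓ x p s ε S Dt := by
  classical
  have hlx : ∀ i, lf (ℓ i) x ≠ 0 := fun i => lf_ne_of_li hli (hℓ i)
  have hD : bw Dt (fun j => x (σ j)) ≠ 0 := by
    rw [Pool.Agent.W930.CG.bw_eq bwa Dt (fun j => x (σ j)) (by rw [hσ]; exact one_ne_zero)]
    have e1 : (Matrix.of fun i j : Fin d => Dt i (x (σ j.succ) / x (σ 0))) = 1 := by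
      ext i j
      rw [Matrix.of_apply, hσ, div_one, F.tt i j, Matrix.one_apply]
    rw [e1, Matrix.det_one, mul_one, hσ, one_pow]
    exact one_ne_zero
  obtain ⟨I0, hI0⟩ := exists_index hspan Dt σ hD
  have hg : ∀ i, Hz Du (lf (ℓ i) x) := fun i => Hz.lf hx (ℓ i)
  let ε : Fin (d + 1) ⊕ Fin k ≃ Fin (n + 1) :=
    finSumFinEquiv.trans (finCongr (by omega))
  obtain ⟨S, hS⟩ := exists_minW3 ε hlx hI0 (F.top hg hx hli) (blk_li hD)
  have hne : pw ε Dt (fun i => lf (ℓ i) x) x S ≠ 0 := by
    rw [← phi_eq_pw]
    exact hS.ne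
  refine ⟨ε, S, hS.le, fun s => ⟨?_, fun E => ?_⟩⟩
  · unfold sg
    exact div_ne_zero (pow_ne_zero _ hne) (den_ne hlx p s)
  · have h1 : pw ε E (fun i => lf (ℓ i) x) x S =
        (mtx (fun j => x (σ j.succ)) E).det ^ (1 + ∑ a, (S a).length) *
          pw ε Dt (fun i => lf (ℓ i) x) x S := by
      rw [← phi_eq_pw, ← phi_eq_pw, F.phi_wv_eq E hg hx hS]
    unfold sg
    rw [h1, mul_pow, ← pow_mul, mul_div_assoc]

end frame

end Pool.Agent.TH585.SV
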