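import Pool.Agent.TH585.SV.Pairs

/-!
The theorem for linear systems.
-/

set_option autoImplicit false

open FF Module Pool.Agent.W603.LV Pool.Agent.W602.GT Pool.Agent.W602.Cov Pool.Agent.W602.Cov.G
open Pool.Agent.W168.CG.PGR Pool.Agent.TH152.AC Pool.Agent.TH152.HY Pool.Agent.TH766.MC

namespace Pool.Agent.TH585.SV

variable {d k n q : ℕ} {ℓ : Fin q → Form n} {K : Type} [Field K] [Algebra ℂ K]

/-- bigness for irreducible arrangements -/
theorem sub_big (hn : 1 ≤ n) (hℓ : ∀ i, ℓ i ≠ 0) (hr : ¬ Reducible ℓ)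
    {x : Fin (n + 1) → K} (hli : LinearIndependent ℂ x) (hdk : d + k = n)
    (σ : Fin (d + 1) → Fin (n + 1)) (hσ : x (σ 0) ≠ 0)
    (hbas : IsTranscendenceBasis ℂ (fun j : Fin d => x (σ j.succ) / x (σ 0)))
    (X : Set (Place ℂ K)) (δ : Place ℂ K → ℝ) (hδ : ∀ P ∈ X, 0 ≤ δ P) {s : ℝ}
    (hs : ((n : ℝ) + 2) * ((k + 1) * (k + 2)) < 2 * s ∨
      (Many ℓ ∧ ((n : ℝ) + 1) * ((k + 1) * (k + 2)) < 2 * s))
    (h : ∀ P ∈ X, Divisorial d P → ∀ (a : ℤ) (v : Fin q → ℕ),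
      (∀ φ : Form n, lf φ x = 0 ∨ a ≤ P.ord (lf φ x)) →
      (∃ φ : Form n, lf φ x ≠ 0 ∧ P.ord (lf φ x) = a) →
      (∀ i, P.ord (lf (ℓ i) x) = a + v i) → v ≠ 0 → ∃ i, s * (1 - δ P) ≤ v i) :
    ∃ N : ℕ, 0 < N ∧ ∃ ω : Fin (d + 1) → (Fin d → Derivation ℂ K K) → K,
      (∀ j, PairSec d X δ N (ω j)) ∧
      ∃ D, ω 0 D ≠ 0 ∧ AlgebraicIndependent ℂ (fun i : Fin d => ω i.succ D / ω 0 D) := by
  have hspan := Pool.Agent.W392.CG.span_top hn ℓ hr
  obtain ⟨R, hR, hRs⟩ : ∃ R : ℕ, Bound ℓ 1 R ∧ (R : ℝ) * ((k + 1) * (k + 2)) < 2 * s := by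
    rcases hs with hs | ⟨hm, hs⟩
    · exact ⟨n + 2, Or.inl (by omega), by push_cast; exact hs⟩
    · exact ⟨n + 1, Or.inr ⟨rfl, hm, rfl⟩, by push_cast; exact hs⟩
  refine sub_kod hn hℓ comps_one (not_splits_two hr) hspan hR hli hdk σ hσ hbas X δ hδ hRs ?_ rfl
  intro P hPX hPd a v h1 h2 hv hv0
  obtain ⟨i, hi⟩ := h P hPX hPd a v h1 h2 hv hv0
  obtain ⟨i', hi'⟩ : ∃ i', v i' = 0 := by
    by_contra hcon
    push Not at hcon
    obtain ⟨φ, hφ, hφa⟩ := h2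
    have h3 := ge_span P (a + 1) (Set.range ℓ) x (by
      rintro _ ⟨i, rfl⟩
      right
      rw [hv i]
      have := hcon i
      omega) φ (by rw [hspan]; trivial)
    rcases h3 with h3 | h3
    · exact hφ h3
    · omega
  refine ⟨i, i', rfl, ?_⟩
  rw [hi', Nat.cast_zero, sub_zero]
  exact hi

section lin

variable (x : Fin (n + 1) → K)

/-- the values of the linear forms -/
noncomputable def lfm : Form n →ₗ[ℂ] K where
  toFun φ := lf φ x
  map_add' φ ψ := lf_add φ ψ x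
  map_smul' c φ := by rw [lf_smul, RingHom.id_apply, Algebra.smul_def]

theorem lfm_apply (φ : Form n) : lfm x φ = lf φ x := rfl

end lin

/-- quotients of the members of a linear system -/
theorem exists_sigma {V : Submodule ℂ K} {x : Fin (n + 1) → K}
    (hx : ∀ f ∈ V, ∃ φ : Form n, lf φ x = f) (hx0 : x 0 ≠ 0)
    (htr : Algebra.trdeg ℂ K = d)
    (halg : Algebra.IsAlgebraic
      (IntermediateField.adjoin ℂ {y : K | ∃ f ∈ V, ∃ g ∈ V, y = f / g}) K) :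
    ∃ σ : Fin (d + 1) → Fin (n + 1), x (σ 0) ≠ 0 ∧
      IsTranscendenceBasis ℂ (fun j : Fin d => x (σ j.succ) / x (σ 0)) := by
  classical
  let f : Fin (n + 1) → K := fun j => x j / x 0
  set E := IntermediateField.adjoin ℂ (Set.range f) with hE
  have hE1 : ∀ j, x j / x 0 ∈ E := fun j => IntermediateField.subset_adjoin ℂ _ ⟨j, rfl⟩
  have hE2 : ∀ φ : Form n, lf φ x / x 0 ∈ E := by
    intro φ
    rw [lf_eq_smul, Finset.sum_div]
    refine sum_mem fun j _ => ?_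
    rw [smul_div_assoc, Algebra.smul_def]
    exact mul_mem (E.algebraMap_mem _) (hE1 j)
  have hle : IntermediateField.adjoin ℂ {y : K | ∃ f ∈ V, ∃ g ∈ V, y = f / g} ≤ E := by
    rw [IntermediateField.adjoin_le_iff]
    rintro y ⟨f, hf, g, hg, rfl⟩
    obtain ⟨φ, rfl⟩ := hx f hf
    obtain ⟨ψ, rfl⟩ := hx g hg
    have h1 := div_mem (hE2 φ) (hE2 ψ)
    rwa [div_div_div_cancel_right₀ hx0] at h1
  have halg1 : Algebra.IsAlgebraic E K := by
    constructor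
    intro z
    obtain ⟨P, hP0, hP⟩ := halg.isAlgebraic z
    refine ⟨P.map (IntermediateField.inclusion hle).toRingHom, ?_, ?_⟩
    · rw [Ne, Polynomial.map_eq_zero_iff]
      · exact hP0
      · exact (IntermediateField.inclusion hle).toRingHom.injective
    · rw [Polynomial.aeval_def, Polynomial.eval₂_map]
      rw [Polynomial.aeval_def] at hP
      exact hP
  have halg2 : Algebra.IsAlgebraic (Algebra.adjoin ℂ (Set.range f)) K := alg_adjoin halg1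
  obtain ⟨T, hTf, hT⟩ := exists_isTranscendenceBasis_subset (R := ℂ) (Set.range f)
  have hTcard : Cardinal.mk T = d := by
    rw [hT.cardinalMk_eq_trdeg, htr]
  have hTfin : Finite T := by
    rw [← Cardinal.lt_aleph0_iff_finite, hTcard]
    exact Cardinal.natCast_lt_aleph0
  let _ : Fintype T := Fintype.ofFinite T
  have hTc : Fintype.card T = d := by
    have := hTcard
    rw [Cardinal.mk_fintype] at this
    exact_mod_cast this
  choose b hb using fun t : T => hTf t.2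
  let e : Fin d ≃ T := (Fintype.equivFinOfCardEq hTc).symm
  refine ⟨Fin.cons 0 fun j => b (e j), hx0, ?_⟩
  have h1 : (fun j : Fin d => x ((Fin.cons 0 fun j => b (e j) : Fin (d + 1) → Fin (n + 1)) j.succ) /
      x ((Fin.cons 0 fun j => b (e j) : Fin (d + 1) → Fin (n + 1)) 0)) =
      fun j => ((e j : T) : K) := by
    funext j
    rw [Fin.cons_succ, Fin.cons_zero]
    exact hb (e j)
  rw [h1]
  exact hT.comp_equiv e

/-- decompositions of the linear system -/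
theorem decomposable_of_reducible {x : Fin (n + 1) → K} (hli : LinearIndependent ℂ x)
    {V : Submodule ℂ K} (hV : LinearMap.range (lfm x) = V) (hr : Reducible ℓ) :
    ∃ V₁ V₂ : Submodule ℂ K, V₁ ≠ ⊥ ∧ V₂ ≠ ⊥ ∧ V₁ ⊓ V₂ = ⊥ ∧ V₁ ⊔ V₂ = V ∧
      ∀ i, lf (ℓ i) x ∈ V₁ ∨ lf (ℓ i) x ∈ V₂ := by
  obtain ⟨U₁, U₂, h1, h2, hc, h⟩ := hr
  have hinj : Function.Injective (lfm x) := by
    rw [injective_iff_map_eq_zero]
    intro φ hφ
    by_contra h0
    exact lf_ne_of_li hli h0 hφ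
  have hbot : ∀ {U W : Submodule ℂ (Fin (n + 1) → ℂ)}, IsCompl U W → U ≠ ⊥ →
      W.dualAnnihilator ≠ ⊥ := by
    intro U W hUW hU h0
    apply hU
    have h3 : W = ⊤ := by
      rw [← Subspace.dualAnnihilator_inj, h0, Submodule.dualAnnihilator_top]
    have h4 := hUW.inf_eq_bot
    rwa [h3, inf_top_eq] at h4
  have hmapne : ∀ {A : Submodule ℂ (Form n)}, A ≠ ⊥ → A.map (lfm x) ≠ ⊥ := by
    intro A hA h0
    apply hA
    rw [← Submodule.map_bot (lfm x)] at h0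
    exact Submodule.map_injective_of_injective hinj h0
  refine ⟨(U₂.dualAnnihilator : Submodule ℂ (Form n)).map (lfm x),
    (U₁.dualAnnihilator : Submodule ℂ (Form n)).map (lfm x), ?_, ?_, ?_, ?_, fun i => ?_⟩
  · exact hmapne (hbot hc h1)
  · exact hmapne (hbot hc.symm h2)
  · rw [← Submodule.map_inf _ hinj]
    have h3 : (U₂.dualAnnihilator : Submodule ℂ (Form n)) ⊓ U₁.dualAnnihilator = ⊥ := by
      rw [← Submodule.dualAnnihilator_sup_eq, sup_comm, hc.sup_eq_top,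
        Submodule.dualAnnihilator_top]
    rw [h3, Submodule.map_bot]
  · rw [← Submodule.map_sup]
    have h3 : (U₂.dualAnnihilator : Submodule ℂ (Form n)) ⊔ U₁.dualAnnihilator = ⊤ := by
      rw [← Subspace.dualAnnihilator_inf_eq, inf_comm, hc.inf_eq_bot,
        Submodule.dualAnnihilator_bot]
    rw [h3, Submodule.map_top, hV]
  · rcases h i with h3 | h3
    · right
      exact ⟨ℓ i, (Submodule.mem_dualAnnihilator _).2 h3, rfl⟩
    · left
      exact ⟨ℓ i, (Submodule.mem_dualAnnihilator _).2 h3, rfl⟩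

/-- **Linear systems.** -/
theorem lin_big (hd : 1 ≤ d) (hdk : d + k = n) (htr : Algebra.trdeg ℂ K = d)
    {V : Submodule ℂ K} (hV : Module.finrank ℂ V = n + 1)
    (halg : Algebra.IsAlgebraic
      (IntermediateField.adjoin ℂ {y : K | ∃ f ∈ V, ∃ g ∈ V, y = f / g}) K)
    {φ : Fin q → K} (hφV : ∀ i, φ i ∈ V) (hφ0 : ∀ i, φ i ≠ 0)
    (hdec : ¬ ∃ V₁ V₂ : Submodule ℂ K, V₁ ≠ ⊥ ∧ V₂ ≠ ⊥ ∧ V₁ ⊓ V₂ = ⊥ ∧ V₁ ⊔ V₂ = V ∧
      ∀ i, φ i ∈ V₁ ∨ φ i ∈ V₂)
    (X : Set (Place ℂ K)) (δ : Place ℂ K → ℝ) (hδ : ∀ P ∈ X, 0 ≤ δ P) {s : ℝ}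
    (hs : ((n : ℝ) + 2) * ((k + 1) * (k + 2)) < 2 * s ∨
      ((∃ τ : Fin (n + 3) → Fin q, ∀ i j, i ≠ j → ∀ t : ℂ, φ (τ i) ≠ t • φ (τ j)) ∧
        ((n : ℝ) + 1) * ((k + 1) * (k + 2)) < 2 * s))
    (h : ∀ P ∈ X, Divisorial d P → ∀ a : ℤ, (∀ f ∈ V, f = 0 ∨ a ≤ P.ord f) →
      (∃ f ∈ V, f ≠ 0 ∧ P.ord f = a) → (∃ i, P.ord (φ i) ≠ a) →
      ∃ i, s * (1 - δ P) ≤ ((P.ord (φ i) - a : ℤ) : ℝ)) :
    ∃ N : ℕ, 0 < N ∧ ∃ ω : Fin (d + 1) → (Fin d → Derivation ℂ K K) → K,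
      (∀ j, PairSec d X δ N (ω j)) ∧
      ∃ D, ω 0 D ≠ 0 ∧ AlgebraicIndependent ℂ (fun i : Fin d => ω i.succ D / ω 0 D) := by
  classical
  have hfin : Module.Finite ℂ V := Module.finite_of_finrank_pos (by omega)
  let b : Basis (Fin (n + 1)) ℂ V := Module.finBasisOfFinrankEq ℂ V hV
  obtain ⟨x, hx⟩ : ∃ x : Fin (n + 1) → K, ∀ j, x j = (b j : K) := ⟨fun j => b j, fun _ => rfl⟩
  have hli : LinearIndependent ℂ x := by
    have h1 := b.linearIndependent.map' V.subtype V.ker_subtype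
    have h2 : x = V.subtype ∘ b := funext hx
    rw [h2]
    exact h1
  have hfm : ∀ f ∈ V, ∃ ψ : Form n, lf ψ x = f := by
    intro f hf
    refine ⟨∑ j, b.repr ⟨f, hf⟩ j • (LinearMap.proj j : Form n), ?_⟩
    rw [← lfm_apply, map_sum]
    simp only [map_smul, lfm_apply, lf_proj]
    have h1 := congrArg V.subtype (b.sum_repr ⟨f, hf⟩)
    rw [map_sum] at h1
    simp only [map_smul] at h1
    simp only [hx]
    exact h1
  have hmem : ∀ ψ : Form n, lf ψ x ∈ V := by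
    intro ψ
    rw [lf_eq_smul]
    refine Submodule.sum_mem _ fun j _ => Submodule.smul_mem _ _ ?_
    rw [hx]
    exact (b j).2
  choose ℓ hℓ using fun i => hfm (φ i) (hφV i)
  have hr : LinearMap.range (lfm x) = V := by
    apply le_antisymm
    · rintro _ ⟨ψ, rfl⟩
      exact hmem ψ
    · intro f hf
      obtain ⟨ψ, hψ⟩ := hfm f hf
      exact ⟨ψ, hψ⟩
  obtain ⟨σ, hσ, hbas⟩ := exists_sigma hfm (hli.ne_zero 0) htr halg
  refine sub_big (s := s) (by omega) (ℓ := ℓ) (fun i h0 => hφ0 i ?_) (fun hred => hdec ?_) hli hdk σ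
    hσ hbas X δ hδ ?_ ?_
  · rw [← hℓ i, h0, lf_zero]
  · obtain ⟨V₁, V₂, h1, h2, h3, h4, h5⟩ := decomposable_of_reducible hli hr hred
    refine ⟨V₁, V₂, h1, h2, h3, h4, fun i => ?_⟩
    rw [← hℓ i]
    exact h5 i
  · rcases hs with hs | ⟨⟨τ, hτ⟩, hs⟩
    · exact Or.inl hs
    · refine Or.inr ⟨⟨τ, fun i j hij t heq => hτ i j hij t ?_⟩, hs⟩
      rw [← hℓ, ← hℓ, heq, lf_smul, Algebra.smul_def]
  · intro P hPX hPd a v h1 h2 hv hv0
    obtain ⟨i, hi⟩ := h P hPX hPd a (fun f hf => by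
      obtain ⟨ψ, rfl⟩ := hfm f hf
      exact h1 ψ) (by
      obtain ⟨ψ, hψ0, hψ⟩ := h2
      exact ⟨lf ψ x, hmem ψ, hψ0, hψ⟩) (by
      obtain ⟨i, hi⟩ := Function.ne_iff.1 hv0
      refine ⟨i, ?_⟩
      rw [← hℓ i, hv i]
      have hi' : v i ≠ 0 := hi
      omega)
    refine ⟨i, ?_⟩
    rw [← hℓ i, hv i] at hi
    have e1 : ((a + (v i : ℤ) - a : ℤ) : ℝ) = v i := by
      push_cast
      ring
    rwa [e1] at hi

end Pool.Agent.TH585.SV
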