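import Pool.Agent.TH585.SV.Fib2
import Pool.Agent.TH585.SV.Lin

/-!
The frame of a linear system.
-/

set_option autoImplicit false

open FF Module Pool.Agent.W603.LV Pool.Agent.W602.GT Pool.Agent.W602.Cov Pool.Agent.W602.Cov.G
open Pool.Agent.W168.CG.PGR Pool.Agent.TH152.AC Pool.Agent.TH152.HY Pool.Agent.TH766.MC

namespace Pool.Agent.TH585.SV

variable {d e k n q : ℕ} {K : Type} [Field K] [Algebra ℂ K]

/-- the field of the quotients of the members of a linear system -/
noncomputable def rf (V : Submodule ℂ K) : IntermediateField ℂ K :=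
  IntermediateField.adjoin ℂ {y : K | ∃ f ∈ V, ∃ g ∈ V, y = f / g}

/-- a frame adapted to a linear system -/
theorem exists_frame_lin {V : Submodule ℂ K} {y : Fin (n + 1) → K}
    (hliy : LinearIndependent ℂ y) (hyV : ∀ j, y j ∈ V)
    (hfmy : ∀ f ∈ V, ∃ ψ : Form n, lf ψ y = f)
    (hL : Algebra.trdeg ℂ (rf V) = d) (hK : Algebra.trdeg ℂ K = (d + e : ℕ)) :
    ∃ (x : Fin (n + 1) → K) (σ : Fin (d + 1) → Fin (n + 1)) (u : Fin e → K)
      (Dt : Fin d → Derivation ℂ K K) (Du : Fin e → Derivation ℂ K K),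
      LinearIndependent ℂ x ∧ x (σ 0) = 1 ∧ Frame (fun j => x (σ j.succ)) u Dt Du ∧
      (∀ j, Hz Du (x j)) ∧ (∀ ψ : Form n, lf ψ y = lf ψ x * y 0) ∧ (∀ f ∈ rf V, Hz Du f) ∧
      ∃ xL : Fin (n + 1) → rf V, (∀ j, (xL j : K) = x j) ∧
        IsTranscendenceBasis ℂ (fun j : Fin d => xL (σ j.succ)) := by
  classical
  have hy0 : y 0 ≠ 0 := hliy.ne_zero 0
  obtain ⟨x, hx⟩ : ∃ x : Fin (n + 1) → K, ∀ j, x j = y j / y 0 := ⟨_, fun _ => rfl⟩
  have hx0 : x 0 = 1 := by rw [hx, div_self hy0]
  have hyx : ∀ j, y j = x j * y 0 := fun j => by rw [hx, div_mul_cancel₀ _ hy0]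
  have hli : LinearIndependent ℂ x := by
    rw [Fintype.linearIndependent_iff]
    intro c hc i
    refine Fintype.linearIndependent_iff.1 hliy c ?_ i
    have h1 : ∑ j, c j • y j = (∑ j, c j • x j) * y 0 := by
      rw [Finset.sum_mul]
      exact Finset.sum_congr rfl fun j _ => by rw [hyx j, smul_mul_assoc]
    rw [h1, hc, zero_mul]
  have hlf : ∀ φ : Form n, lf φ y = lf φ x * y 0 := by
    intro φ
    rw [lf_eq_smul, lf_eq_smul, Finset.sum_mul]
    exact Finset.sum_congr rfl fun j _ => by rw [hyx j, smul_mul_assoc]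
  have hfm : ∀ f ∈ V, ∃ ψ : Form n, lf ψ x * y 0 = f := by
    intro f hf
    obtain ⟨ψ, hψ⟩ := hfmy f hf
    exact ⟨ψ, by rw [← hlf, hψ]⟩
  -- the field of the quotients
  have hxL : ∀ j, x j ∈ rf V := fun j =>
    IntermediateField.subset_adjoin ℂ _ ⟨y j, hyV j, y 0, hyV 0, hx j⟩
  have hLeq : IntermediateField.adjoin ℂ (Set.range x) = rf V := by
    apply le_antisymm
    · rw [IntermediateField.adjoin_le_iff]
      rintro _ ⟨j, rfl⟩
      exact hxL j
    · unfold rf
      rw [IntermediateField.adjoin_le_iff]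
      rintro z ⟨f, hf, g, hg, rfl⟩
      obtain ⟨φ, rfl⟩ := hfm f hf
      obtain ⟨ψ, rfl⟩ := hfm g hg
      rw [mul_div_mul_right _ _ hy0]
      have h2 : ∀ φ : Form n, lf φ x ∈ IntermediateField.adjoin ℂ (Set.range x) := by
        intro φ
        rw [lf_eq_smul]
        refine sum_mem fun j _ => ?_
        rw [Algebra.smul_def]
        exact mul_mem (IntermediateField.algebraMap_mem _ _)
          (IntermediateField.subset_adjoin ℂ _ ⟨j, rfl⟩)
      exact div_mem (h2 φ) (h2 ψ)
  let xL : Fin (n + 1) → rf V := fun j => ⟨x j, hxL j⟩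
  have htop : IntermediateField.adjoin ℂ (Set.range xL) = ⊤ := by
    rw [eq_top_iff]
    rintro z -
    have h1 : (IntermediateField.adjoin ℂ (Set.range xL)).map (rf V).val = rf V := by
      rw [IntermediateField.adjoin_map, ← Set.range_comp]
      exact hLeq
    have h2 : (z : K) ∈ (IntermediateField.adjoin ℂ (Set.range xL)).map (rf V).val := by
      rw [h1]
      exact z.2
    obtain ⟨z', hz', hzz⟩ := h2
    have h3 : z' = z := Subtype.ext hzz
    rw [← h3]
    exact hz'
  have halg0 : Algebra.IsAlgebraic (IntermediateField.adjoin ℂ (Set.range xL)) (rf V) := by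
    constructor
    intro z
    have hz : z ∈ IntermediateField.adjoin ℂ (Set.range xL) := by
      rw [htop]
      trivial
    exact isAlgebraic_algebraMap (R := IntermediateField.adjoin ℂ (Set.range xL))
      (⟨z, hz⟩ : IntermediateField.adjoin ℂ (Set.range xL))
  have halg : Algebra.IsAlgebraic (Algebra.adjoin ℂ (Set.range xL)) (rf V) := alg_adjoin halg0
  obtain ⟨T, hTx, hT⟩ := exists_isTranscendenceBasis_subset (R := ℂ) (Set.range xL)
  have hTcard : Cardinal.mk T = d := by
    rw [hT.cardinalMk_eq_trdeg, hL]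
  have hTfin : Finite T := by
    rw [← Cardinal.lt_aleph0_iff_finite, hTcard]
    exact Cardinal.natCast_lt_aleph0
  let _ : Fintype T := Fintype.ofFinite T
  have hTc : Fintype.card T = d := by
    have := hTcard
    rw [Cardinal.mk_fintype] at this
    exact_mod_cast this
  choose c hc using fun s : T => hTx s.2
  let ν : Fin d ≃ T := (Fintype.equivFinOfCardEq hTc).symm
  have hTL : IsTranscendenceBasis ℂ (fun j : Fin d => xL (c (ν j))) := by
    have h1 : (fun j : Fin d => xL (c (ν j))) = fun j => ((ν j : T) : rf V) :=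
      funext fun j => hc (ν j)
    rw [h1]
    exact hT.comp_equiv ν
  -- the fibres
  obtain ⟨U, hU⟩ := exists_isTranscendenceBasis (rf V) K
  have hTU := IsTranscendenceBasis.sumElim_comp hTL hU
  have hUcard : Cardinal.mk (U ⊕ Fin d) = (d + e : ℕ) := by
    rw [hTU.cardinalMk_eq_trdeg, hK]
  have hUfin' : Finite (U ⊕ Fin d) := by
    rw [← Cardinal.lt_aleph0_iff_finite, hUcard]
    exact Cardinal.natCast_lt_aleph0
  have hUfin : Finite U := Finite.of_injective (Sum.inl : U → U ⊕ Fin d) Sum.inl_injective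
  let _ : Fintype U := Fintype.ofFinite U
  have hUc : Fintype.card U = e := by
    rw [Cardinal.mk_fintype, Fintype.card_sum, Fintype.card_fin] at hUcard
    have h1 : Fintype.card U + d = d + e := by exact_mod_cast hUcard
    omega
  let μ : Fin e ≃ U := (Fintype.equivFinOfCardEq hUc).symm
  have hbas : IsTranscendenceBasis ℂ
      (Sum.elim (fun j : Fin d => x (c (ν j))) (fun i : Fin e => ((μ i : U) : K))) := by
    have h1 := hTU.comp_equiv ((Equiv.sumComm (Fin d) (Fin e)).trans (μ.sumCongr (Equiv.refl _)))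
    have h2 : (Sum.elim (fun j : Fin d => x (c (ν j))) (fun i : Fin e => ((μ i : U) : K))) =
        (Sum.elim (fun a : U => (a : K)) (algebraMap (rf V) K ∘ fun j : Fin d => xL (c (ν j)))) ∘
          ((Equiv.sumComm (Fin d) (Fin e)).trans (μ.sumCongr (Equiv.refl _))) := by
      funext a
      rcases a with a | a
      · rfl
      · rfl
    rw [h2]
    exact h1
  obtain ⟨Dt, Du, F⟩ := exists_frame hbas
  have hHz : ∀ f ∈ rf V, Hz Du f := by
    intro f hf i
    obtain ⟨D', hD'⟩ := exists_der (L := rf V) (fun a : U => (a : K)) hU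
      (fun a => Du i (a : K))
    have h1 : Du i = D'.restrictScalars ℂ := by
      refine F.ext (fun j => ?_) fun j => ?_
      · rw [F.ut]
        change (0 : K) = D' (x (c (ν j)))
        have h2 : x (c (ν j)) = algebraMap (rf V) K (xL (c (ν j))) := rfl
        rw [h2, D'.map_algebraMap]
      · change Du i ((μ j : U) : K) = D' ((μ j : U) : K)
        rw [hD']
    rw [h1]
    change D' f = 0
    have h2 : f = algebraMap (rf V) K ⟨f, hf⟩ := rfl
    rw [h2, D'.map_algebraMap]
  refine ⟨x, Fin.cons 0 fun j => c (ν j), fun i => ((μ i : U) : K), Dt, Du, hli, hx0, ?_,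
    fun j => hHz _ (hxL j), hlf, hHz, xL, fun _ => rfl, ?_⟩
  · exact F
  · exact hTL

end Pool.Agent.TH585.SV
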