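import Pool.Agent.TH585.SV.Lin

/-!
The theorems for linear systems with several components.
-/

set_option autoImplicit false

open FF Module Pool.Agent.W603.LV Pool.Agent.W602.GT Pool.Agent.W602.Cov Pool.Agent.W602.Cov.G
open Pool.Agent.W168.CG.PGR Pool.Agent.TH152.AC Pool.Agent.TH152.HY Pool.Agent.TH766.MC

namespace Pool.Agent.TH585.SV

variable {d k n q c : ℕ} {K : Type} [Field K] [Algebra ℂ K]

/-- `V` has a basis of `n + 1` members which are divided into `c` nonempty groups such that `φ i` is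
a linear combination of the members of the group `γ i`. -/
def Dcp (n : ℕ) (V : Submodule ℂ K) (φ : Fin q → K) (γ : Fin q → Fin c) : Prop :=
  ∃ (x : Fin (n + 1) → K) (g : Fin (n + 1) → Fin c), LinearIndependent ℂ x ∧
    Submodule.span ℂ (Set.range x) = V ∧ Function.Surjective g ∧
    ∀ i, φ i ∈ Submodule.span ℂ (x '' {a | g a = γ i})

/-- linear forms with given value in a group -/
theorem exists_lift {x : Fin (n + 1) → K} (s : Set (Fin (n + 1))) {f : K}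
    (hf : f ∈ Submodule.span ℂ (x '' s)) :
    ∃ ψ : Form n, lf ψ x = f ∧ ∀ a, a ∉ s → ψ (Pi.single a 1) = 0 := by
  induction hf using Submodule.span_induction with
  | mem f hf =>
    obtain ⟨a, ha, rfl⟩ := hf
    refine ⟨LinearMap.proj a, lf_proj a x, fun b hb => ?_⟩
    have hab : a ≠ b := fun h => hb (h ▸ ha)
    rw [LinearMap.proj_apply, Pi.single_eq_of_ne hab]
  | zero => exact ⟨0, lf_zero x, fun _ _ => rfl⟩
  | add f g _ _ h1 h2 =>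
    obtain ⟨ψ, h3, h4⟩ := h1
    obtain ⟨ψ', h5, h6⟩ := h2
    exact ⟨ψ + ψ', by rw [lf_add, h3, h5], fun a ha => by
      rw [LinearMap.add_apply, h4 a ha, h6 a ha, add_zero]⟩
  | smul t f _ h1 =>
    obtain ⟨ψ, h3, h4⟩ := h1
    exact ⟨t • ψ, by rw [lf_smul, h3, Algebra.smul_def], fun a ha => by
      rw [LinearMap.smul_apply, h4 a ha, smul_zero]⟩

/-- decompositions of the arrangement give decompositions of the linear system -/
theorem dcp_of_comps {ℓ : Fin q → Form n} {x : Fin (n + 1) → K} (hli : LinearIndependent ℂ x)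
    {V : Submodule ℂ K} (hV : LinearMap.range (lfm x) = V) (hs : Splits ℓ c) :
    ∃ γ : Fin q → Fin c, Dcp n V (fun i => lf (ℓ i) x) γ := by
  obtain ⟨e, g, hg, hs⟩ := hs
  choose γ hγ using hs
  have hinj : Function.Injective (lfm x) := by
    rw [injective_iff_map_eq_zero]
    intro φ hφ
    by_contra h0
    exact lf_ne_of_li hli h0 hφ
  have hsum : ∀ ψ : Form n, lf ψ x = ∑ a, ψ (e a) • lf (e.coord a) x := by
    intro ψ
    have h1 := congrArg (lfm x) (e.sum_dual_apply_smul_coord ψ)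
    rw [map_sum] at h1
    simp only [map_smul, lfm_apply] at h1
    exact h1.symm
  refine ⟨γ, fun a => lf (e.coord a) x, g, ?_, ?_, hg, fun i => ?_⟩
  · have h1 : LinearIndependent ℂ (fun a => (e.coord a : Form n)) := by
      have h2 := e.dualBasis.linearIndependent
      rw [Basis.coe_dualBasis] at h2
      exact h2
    exact h1.map' (lfm x) (LinearMap.ker_eq_bot.2 hinj)
  · apply le_antisymm
    · rw [Submodule.span_le]
      rintro _ ⟨a, rfl⟩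
      rw [← hV]
      exact ⟨e.coord a, rfl⟩
    · rw [← hV]
      rintro _ ⟨ψ, rfl⟩
      rw [lfm_apply, hsum]
      exact Submodule.sum_mem _ fun a _ => Submodule.smul_mem _ _ (Submodule.subset_span ⟨a, rfl⟩)
  · change lf (ℓ i) x ∈ _
    rw [hsum]
    refine Submodule.sum_mem _ fun a _ => ?_
    by_cases ha : g a = γ i
    · exact Submodule.smul_mem _ _ (Submodule.subset_span ⟨a, ha, rfl⟩)
    · rw [hγ i a ha, zero_smul]
      exact Submodule.zero_mem _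

/-- the data for the theorems in coordinates -/
theorem lin_data (htr : Algebra.trdeg ℂ K = d) {V : Submodule ℂ K}
    (halg : Algebra.IsAlgebraic
      (IntermediateField.adjoin ℂ {y : K | ∃ f ∈ V, ∃ g ∈ V, y = f / g}) K)
    {φ : Fin q → K} (hφ0 : ∀ i, φ i ≠ 0) (hφ : Submodule.span ℂ (Set.range φ) = V)
    {γ : Fin q → Fin c} (hγ : Dcp n V φ γ) (hc : ∀ γ' : Fin q → Fin (c + 1), ¬ Dcp n V φ γ')
    {R : ℕ} (hR : R + c = n + 3 ∨
      (c = 1 ∧ (∃ τ : Fin (n + 3) → Fin q, ∀ i j, i ≠ j → ∀ t : ℂ, φ (τ i) ≠ t • φ (τ j)) ∧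
        R = n + 1)) :
    ∃ (x : Fin (n + 1) → K) (ℓ : Fin q → Form n) (σ : Fin (d + 1) → Fin (n + 1)),
      LinearIndependent ℂ x ∧ (∀ i, lf (ℓ i) x = φ i) ∧ (∀ i, ℓ i ≠ 0) ∧ Comps ℓ γ ∧
      ¬ Splits ℓ (c + 1) ∧ Submodule.span ℂ (Set.range ℓ) = ⊤ ∧ Bound ℓ c R ∧ x (σ 0) ≠ 0 ∧
      IsTranscendenceBasis ℂ (fun j : Fin d => x (σ j.succ) / x (σ 0)) ∧
      (∀ ψ : Form n, lf ψ x ∈ V) ∧ ∀ f ∈ V, ∃ ψ : Form n, lf ψ x = f := by
  obtain ⟨x, g, hli, hxV, hg, hm⟩ := hγ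
  choose ℓ hℓ hℓ2 using fun i => exists_lift {a | g a = γ i} (hm i)
  have hinj : Function.Injective (lfm x) := by
    rw [injective_iff_map_eq_zero]
    intro φ hφ
    by_contra h0
    exact lf_ne_of_li hli h0 hφ
  have hmem : ∀ ψ : Form n, lf ψ x ∈ V := by
    intro ψ
    rw [lf_eq_smul, ← hxV]
    exact Submodule.sum_mem _ fun j _ => Submodule.smul_mem _ _ (Submodule.subset_span ⟨j, rfl⟩)
  have hfm : ∀ f ∈ V, ∃ ψ : Form n, lf ψ x = f := by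
    intro f hf
    rw [← hxV, ← Set.image_univ] at hf
    obtain ⟨ψ, h1, -⟩ := exists_lift Set.univ hf
    exact ⟨ψ, h1⟩
  have hr : LinearMap.range (lfm x) = V := by
    apply le_antisymm
    · rintro _ ⟨ψ, rfl⟩
      exact hmem ψ
    · intro f hf
      obtain ⟨ψ, hψ⟩ := hfm f hf
      exact ⟨ψ, hψ⟩
  obtain ⟨σ, hσ, hbas⟩ := exists_sigma hfm (hli.ne_zero 0) htr halg
  have hφℓ : (fun i => lf (ℓ i) x) = φ := funext hℓ
  refine ⟨x, ℓ, σ, hli, hℓ, fun i h0 => hφ0 i ?_, ?_, fun hs => ?_, ?_, ?_, hσ, hbas, hmem, hfm⟩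
  · rw [← hℓ i, h0, lf_zero]
  · refine ⟨Pi.basisFun ℂ _, g, hg, fun i a ha => ?_⟩
    rw [Pi.basisFun_apply]
    exact hℓ2 i a ha
  · obtain ⟨γ', hγ'⟩ := dcp_of_comps hli hr hs
    rw [hφℓ] at hγ'
    exact hc γ' hγ'
  · apply Submodule.map_injective_of_injective hinj
    rw [Submodule.map_span, Submodule.map_top, hr, ← hφ, ← Set.range_comp]
    congr 2
  · rcases hR with h | ⟨h1, ⟨τ, hτ⟩, h3⟩
    · exact Or.inl h
    · refine Or.inr ⟨h1, ⟨τ, fun i j hij t heq => hτ i j hij t ?_⟩, h3⟩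
      rw [← hℓ, ← hℓ, heq, lf_smul, Algebra.smul_def]

/-- the multiplicities -/
theorem lin_high {V : Submodule ℂ K} {φ : Fin q → K} {γ : Fin q → Fin c} {X : Set (Place ℂ K)}
    {δ : Place ℂ K → ℝ} {s : ℝ} {x : Fin (n + 1) → K} {ℓ : Fin q → Form n}
    (hℓ : ∀ i, lf (ℓ i) x = φ i) (hmem : ∀ ψ : Form n, lf ψ x ∈ V)
    (hfm : ∀ f ∈ V, ∃ ψ : Form n, lf ψ x = f)
    (h : ∀ P ∈ X, Divisorial d P → ∀ a : ℤ, (∀ f ∈ V, f = 0 ∨ a ≤ P.ord f) →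
      (∃ f ∈ V, f ≠ 0 ∧ P.ord f = a) → (∃ i, P.ord (φ i) ≠ a) →
      ∃ i i', γ i' = γ i ∧ s * (1 - δ P) ≤ ((P.ord (φ i) - P.ord (φ i') : ℤ) : ℝ)) :
    HighV d ℓ γ x X δ s := by
  intro P hPX hPd a v h1 h2 hv hv0
  obtain ⟨i, i', hii, hi⟩ := h P hPX hPd a (fun f hf => by
    obtain ⟨ψ, rfl⟩ := hfm f hf
    exact h1 ψ) (by
    obtain ⟨ψ, hψ0, hψ⟩ := h2
    exact ⟨lf ψ x, hmem ψ, hψ0, hψ⟩) (by
    obtain ⟨i, hi⟩ := Function.ne_iff.1 hv0
    refine ⟨i, ?_⟩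
    rw [← hℓ i, hv i]
    have hi' : v i ≠ 0 := hi
    omega)
  refine ⟨i, i', hii, ?_⟩
  rw [← hℓ i, ← hℓ i', hv i, hv i'] at hi
  have e1 : ((a + (v i : ℤ) - (a + (v i' : ℤ)) : ℤ) : ℝ) = (v i : ℝ) - v i' := by
    push_cast
    ring
  rwa [e1] at hi

/-- **Nonvanishing and Kodaira dimension for linear systems.** -/
theorem lin_kod (hd : 1 ≤ d) (hdk : d + k = n) (htr : Algebra.trdeg ℂ K = d)
    {V : Submodule ℂ K}
    (halg : Algebra.IsAlgebraic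
      (IntermediateField.adjoin ℂ {y : K | ∃ f ∈ V, ∃ g ∈ V, y = f / g}) K)
    {φ : Fin q → K} (hφ0 : ∀ i, φ i ≠ 0) (hφ : Submodule.span ℂ (Set.range φ) = V)
    {γ : Fin q → Fin c} (hγ : Dcp n V φ γ) (hc : ∀ γ' : Fin q → Fin (c + 1), ¬ Dcp n V φ γ')
    {R : ℕ} (hR : R + c = n + 3 ∨
      (c = 1 ∧ (∃ τ : Fin (n + 3) → Fin q, ∀ i j, i ≠ j → ∀ t : ℂ, φ (τ i) ≠ t • φ (τ j)) ∧
        R = n + 1))
    (X : Set (Place ℂ K)) (δ : Place ℂ K → ℝ) (hδ : ∀ P ∈ X, 0 ≤ δ P) {s : ℝ}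
    (hs : (R : ℝ) * ((k + 1) * (k + 2)) ≤ 2 * s)
    (h : ∀ P ∈ X, Divisorial d P → ∀ a : ℤ, (∀ f ∈ V, f = 0 ∨ a ≤ P.ord f) →
      (∃ f ∈ V, f ≠ 0 ∧ P.ord f = a) → (∃ i, P.ord (φ i) ≠ a) →
      ∃ i i', γ i' = γ i ∧ s * (1 - δ P) ≤ ((P.ord (φ i) - P.ord (φ i') : ℤ) : ℝ)) :
    (∃ N : ℕ, 0 < N ∧ ∃ ω : (Fin d → Derivation ℂ K K) → K, PairSec d X δ N ω ∧ ∃ D, ω D ≠ 0) ∧
    ∀ κ : ℕ, κ + c = d + 1 → (R : ℝ) * ((k + 1) * (k + 2)) < 2 * s →
      ∃ N : ℕ, 0 < N ∧ ∃ ω : Fin (κ + 1) → (Fin d → Derivation ℂ K K) → K,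
        (∀ j, PairSec d X δ N (ω j)) ∧
        ∃ D, ω 0 D ≠ 0 ∧ AlgebraicIndependent ℂ (fun i : Fin κ => ω i.succ D / ω 0 D) := by
  obtain ⟨x, ℓ, σ, hli, hℓ, hℓ0, hcomp, hspl, hspan, hB, hσ, hbas, hmem, hfm⟩ :=
    lin_data htr halg hφ0 hφ hγ hc hR
  have hh := lin_high (d := d) (X := X) (δ := δ) (s := s) hℓ hmem hfm h
  exact ⟨sub_nonvanishing (by omega) hℓ0 hcomp hspl hspan hB hli hdk σ hσ hbas X δ hδ hs hh,
    fun κ hκ hs' => sub_kod (by omega) hℓ0 hcomp hspl hspan hB hli hdk σ hσ hbas X δ hδ hs' hh hκ⟩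

end Pool.Agent.TH585.SV
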