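import Pool.Agent.TH585.SV.Fib3
import Pool.Agent.TH585.SV.Lin2
import Mathlib.LinearAlgebra.Alternating.Basic
import Mathlib.LinearAlgebra.Matrix.Determinant.Basic

/-!
Tensor differentials from linear systems whose map is not generically finite.
-/

set_option autoImplicit false

open FF Module Pool.Agent.W603.LV Pool.Agent.W602.GT Pool.Agent.W602.Cov Pool.Agent.W602.Cov.G
open Pool.Agent.W168.CG.PGR Pool.Agent.TH152.AC Pool.Agent.TH152.HY Pool.Agent.TH766.MC

namespace Pool.Agent.TH585.SV

variable {N d e k n q c : ℕ} {ℓ : Fin q → Form n} {γ : Fin q → Fin c} {K : Type} [Field K]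
  [Algebra ℂ K]

/-- the main estimate, on a variety of dimension `N` -/
theorem sub_ord2 (hB : Blocks ℓ γ) (hspan : Submodule.span ℂ (Set.range ℓ) = ⊤)
    {p : Bases ℓ → ℕ} {R : ℕ} (hp : Wt ℓ (Fam ℓ γ) R p) {x : Fin (n + 1) → K}
    (hlx : ∀ i, lf (ℓ i) x ≠ 0) {X : Set (Place ℂ K)} {δ : Place ℂ K → ℝ} {s : ℝ}
    (h : HighV N ℓ γ x X δ s) (t : ℕ) (e : Fin (d + 1) ⊕ Fin k ≃ Fin (n + 1))
    (S : Fin k → List (Letter d q)) {P : Place ℂ K} (hPX : P ∈ X) (hPd : Divisorial N P)
    {D : Fin d → Derivation ℂ K K} (hD : ∀ i, DerReg P (D i)) :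
    ∃ (a : ℤ) (v v' : Fin q → ℕ) (m : Fin c → ℕ) (c' : ℤ) (M : ℝ),
      (∀ i, P.ord (lf (ℓ i) x) = a + v i) ∧ (∀ i, v i = v' i + m (γ i)) ∧
      Ge P c' (sg ℓ x p t e S D) ∧ (∀ i, (v' i : ℝ) ≤ M) ∧ 0 ≤ M ∧
      ((M = 0 ∧ 0 ≤ (c' : ℝ)) ∨ (s * (1 - δ P) ≤ M ∧
        (t * ∑ B, (p B : ℝ)) * M ≤
          R * (c' + ((1 + ∑ a, (S a).length : ℕ) : ℝ) * (t * ∑ B, (p B : ℝ))))) := by
  obtain ⟨B0⟩ := exists_bases hspan
  have i0 : Fin q := B0.1 0
  obtain ⟨a, v, ⟨i1, hi1⟩, hv, -, c', hc, hc1, hc3⟩ := sg_ord hp hspan t hlx P i0 e S hD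
  obtain ⟨v', m, hdec, hm, -⟩ := hB.dec hspan hlx P hv
  by_cases hv0 : v = 0
  · have hv' : v' = 0 := by
      funext i
      have h1 := hm i
      rw [hv0] at h1
      simp only [Pi.zero_apply] at h1 ⊢
      omega
    refine ⟨a, v, v', m, c', 0, hv, hm, hc, fun i => by rw [hv']; simp, le_rfl, Or.inl ⟨rfl, ?_⟩⟩
    exact_mod_cast hc1 hv0
  · obtain ⟨i, i', hii, hs⟩ := h P hPX hPd a v (fun φ => by
      refine Pool.Agent.W168.CG.PGR.ge_span P a (Set.range ℓ) x ?_ φ (by rw [hspan]; trivial)
      rintro _ ⟨i, rfl⟩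
      right
      rw [hv i]
      have : (0 : ℤ) ≤ v i := by positivity
      linarith) ⟨ℓ i1, hlx i1, by rw [hv i1, hi1]; simp⟩ hv hv0
    obtain ⟨im, -, hmax⟩ := Finset.exists_max_image Finset.univ v' ⟨i0, Finset.mem_univ _⟩
    have h1 := hc3 v' hdec im
    have h2 : ((t : ℝ) * (∑ B, (p B : ℝ)) * v' im) ≤
        R * (c' + ((1 + ∑ a, (S a).length : ℕ) : ℝ) * (t * ∑ B, (p B : ℝ))) := by
      exact_mod_cast h1
    refine ⟨a, v, v', m, c', v' im, hv, hm, hc, fun i => by
      exact_mod_cast hmax i (Finset.mem_univ i), by positivity, Or.inr ⟨?_, h2⟩⟩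
    have h3 : ((v i : ℝ) - v i') ≤ v' im := by
      rw [hm i, hm i', hii]
      push_cast
      have h4 : (v' i : ℝ) ≤ v' im := by exact_mod_cast hmax i (Finset.mem_univ i)
      have h5 : (0 : ℝ) ≤ v' i' := by positivity
      linarith
    exact hs.trans h3

/-- products of blocks -/
noncomputable def blkMul {W : Type} [AddCommGroup W] [Module K W] (A : W [⋀^Fin d]→ₗ[K] K)
    (M : ℕ) : MultilinearMap K (fun _ : Fin M × Fin d => W) K where
  toFun D := ∏ b, A (fun j => D (b, j))
  map_update_add' {inst} D i x y := by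
    have hinst : inst = fun a b => instDecidableEqProd a b := Subsingleton.elim _ _
    subst hinst
    obtain ⟨b0, j0⟩ := i
    have h1 : ∀ z : W, ∀ b ∈ Finset.univ.erase b0,
        A (fun j => Function.update D (b0, j0) z (b, j)) = A (fun j => D (b, j)) := by
      intro z b hb
      congr 1
      funext j
      rw [Function.update_of_ne]
      intro h
      exact (Finset.ne_of_mem_erase hb) (congrArg Prod.fst h)
    have h2 : ∀ z : W, (fun j => Function.update D (b0, j0) z (b0, j)) =
        Function.update (fun j => D (b0, j)) j0 z := by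
      intro z
      funext j
      by_cases hj : j = j0
      · subst hj
        simp
      · rw [Function.update_of_ne hj, Function.update_of_ne]
        intro h
        exact hj (congrArg Prod.snd h)
    have h3 : ∀ z : W, ∏ b, A (fun j => Function.update D (b0, j0) z (b, j)) =
        A (Function.update (fun j => D (b0, j)) j0 z) *
          ∏ b ∈ Finset.univ.erase b0, A (fun j => D (b, j)) := by
      intro z
      rw [← Finset.mul_prod_erase Finset.univ _ (Finset.mem_univ b0), h2,
        Finset.prod_congr rfl (h1 z)]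
    rw [h3, h3, h3, A.map_update_add, add_mul]
  map_update_smul' {inst} D i r x := by
    have hinst : inst = fun a b => instDecidableEqProd a b := Subsingleton.elim _ _
    subst hinst
    obtain ⟨b0, j0⟩ := i
    have h1 : ∀ z : W, ∀ b ∈ Finset.univ.erase b0,
        A (fun j => Function.update D (b0, j0) z (b, j)) = A (fun j => D (b, j)) := by
      intro z b hb
      congr 1
      funext j
      rw [Function.update_of_ne]
      intro h
      exact (Finset.ne_of_mem_erase hb) (congrArg Prod.fst h)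
    have h2 : ∀ z : W, (fun j => Function.update D (b0, j0) z (b0, j)) =
        Function.update (fun j => D (b0, j)) j0 z := by
      intro z
      funext j
      by_cases hj : j = j0
      · subst hj
        simp
      · rw [Function.update_of_ne hj, Function.update_of_ne]
        intro h
        exact hj (congrArg Prod.snd h)
    have h3 : ∀ z : W, ∏ b, A (fun j => Function.update D (b0, j0) z (b, j)) =
        A (Function.update (fun j => D (b0, j)) j0 z) *
          ∏ b ∈ Finset.univ.erase b0, A (fun j => D (b, j)) := by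
      intro z
      rw [← Finset.mul_prod_erase Finset.univ _ (Finset.mem_univ b0), h2,
        Finset.prod_congr rfl (h1 z)]
    rw [h3, h3, A.map_update_smul, smul_eq_mul, smul_eq_mul, mul_assoc]

theorem blkMul_apply {W : Type} [AddCommGroup W] [Module K W] (A : W [⋀^Fin d]→ₗ[K] K)
    (M : ℕ) (D : Fin M × Fin d → W) : blkMul A M D = ∏ b, A (fun j => D (b, j)) := rfl

/-- the values of vector fields at functions -/
noncomputable def evl (t : Fin d → K) : Derivation ℂ K K →ₗ[K] (Fin d → K) where
  toFun D l := D (t l)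
  map_add' _ _ := rfl
  map_smul' _ _ := rfl

/-- the form `d t_1 ∧ ... ∧ d t_d` -/
noncomputable def dform (t : Fin d → K) : (Derivation ℂ K K) [⋀^Fin d]→ₗ[K] K :=
  (Matrix.detRowAlternating (n := Fin d) (R := K)).compLinearMap (evl t)

theorem dform_apply (t : Fin d → K) (D : Fin d → Derivation ℂ K K) :
    dform t D = (mtx t D).det := rfl

/-- the tensor differential -/
noncomputable def tns (t : Fin d → K) (f : K) (M : ℕ) :
    MultilinearMap K (fun _ : Fin (M * d) => Derivation ℂ K K) K :=
  f • (blkMul (dform t) M).domDomCongr finProdFinEquiv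

theorem tns_apply (t : Fin d → K) (f : K) (M : ℕ) (D : Fin (M * d) → Derivation ℂ K K) :
    tns t f M D = f * ∏ b : Fin M, (mtx t (fun j => D (finProdFinEquiv (b, j)))).det := rfl

/-- the order of the tensor differential -/
theorem tns_reg {P : Place ℂ K} {t : Fin d → K} {f : K} {M : ℕ} (hM : 0 < M)
    (h : ∀ E : Fin d → Derivation ℂ K K, (∀ i, DerReg P (E i)) → (mtx t E).det ≠ 0 →
      Ge P 0 ((mtx t E).det ^ M * f)) (D : Fin (M * d) → Derivation ℂ K K)
    (hD : ∀ j, DerReg P (D j)) : P.Reg (tns t f M D) := by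
  classical
  rw [tns_apply, reg_iff_ge]
  by_cases h0 : ∀ b : Fin M, (mtx t (fun j => D (finProdFinEquiv (b, j)))).det ≠ 0
  · have hne : (Finset.univ : Finset (Fin M)).Nonempty := ⟨⟨0, hM⟩, Finset.mem_univ _⟩
    obtain ⟨b0, -, hmin⟩ := Finset.exists_min_image Finset.univ
      (fun b : Fin M => P.ord (mtx t (fun j => D (finProdFinEquiv (b, j)))).det) hne
    obtain ⟨A, hA⟩ : ∃ A, A = (mtx t (fun j => D (finProdFinEquiv (b0, j)))).det := ⟨_, rfl⟩
    have hA0 : A ≠ 0 := by rw [hA]; exact h0 b0
    have h1 := h (fun j => D (finProdFinEquiv (b0, j))) (fun i => hD _) (h0 b0)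
    rw [← hA] at h1
    have h2 : Ge P 0 ((∏ b : Fin M, (mtx t (fun j => D (finProdFinEquiv (b, j)))).det) / A ^ M) := by
      have h3 : (∏ b : Fin M, (mtx t (fun j => D (finProdFinEquiv (b, j)))).det) / A ^ M =
          ∏ b : Fin M, ((mtx t (fun j => D (finProdFinEquiv (b, j)))).det / A) := by
        rw [Finset.prod_div_distrib, Finset.prod_const, Finset.card_univ, Fintype.card_fin]
      rw [h3]
      have h4 := Ge.prod (P := P) Finset.univ
        (fun b : Fin M => (mtx t (fun j => D (finProdFinEquiv (b, j)))).det / A) (fun _ => 0)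
        (fun b _ => by
          right
          rw [P.ord_div (h0 b) hA0, hA]
          have := hmin b (Finset.mem_univ b)
          linarith)
      simpa using h4
    have h5 := h1.mul h2
    have h6 : A ^ M * f * ((∏ b : Fin M, (mtx t (fun j => D (finProdFinEquiv (b, j)))).det) /
        A ^ M) = f * ∏ b : Fin M, (mtx t (fun j => D (finProdFinEquiv (b, j)))).det := by
      have := pow_ne_zero M hA0
      field_simp
    rw [h6, add_zero] at h5
    exact h5
  · push Not at h0
    obtain ⟨b, hb⟩ := h0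
    left
    rw [Finset.prod_eq_zero (Finset.mem_univ b) hb, mul_zero]

end Pool.Agent.TH585.SV
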