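import Pool.Agent.TH585.SV.Fib4

/-!
The estimates for linear systems whose map is not generically finite.
-/

set_option autoImplicit false

open FF Module Pool.Agent.W603.LV Pool.Agent.W602.GT Pool.Agent.W602.Cov Pool.Agent.W602.Cov.G
open Pool.Agent.W168.CG.PGR Pool.Agent.TH152.AC Pool.Agent.TH152.HY Pool.Agent.TH766.MC

namespace Pool.Agent.TH585.SV

variable {N d e k n q c : ℕ} {ℓ : Fin q → Form n} {γ : Fin q → Fin c} {K : Type} [Field K]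
  [Algebra ℂ K] {u : Fin e → K} {Dt : Fin d → Derivation ℂ K K} {Du : Fin e → Derivation ℂ K K}

/-- values of linear forms in a subfield -/
theorem lf_coe {L : IntermediateField ℂ K} {x : Fin (n + 1) → K} {xL : Fin (n + 1) → L}
    (hxL : ∀ j, (xL j : K) = x j) (φ : Form n) : ((lf φ xL : L) : K) = lf φ x := by
  rw [lf_eq_smul, lf_eq_smul]
  have h1 : ((∑ j, φ (Pi.single j 1) • xL j : L) : K) =
      L.val (∑ j, φ (Pi.single j 1) • xL j) := rfl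
  rw [h1, map_sum]
  refine Finset.sum_congr rfl fun j _ => ?_
  rw [map_smul, ← hxL j]
  rfl

/-- **The estimate.** -/
theorem Frame.est (hn : 1 ≤ n) (hℓ : ∀ i, ℓ i ≠ 0) (hγ : Comps ℓ γ)
    (hc1 : ¬ Splits ℓ (c + 1)) (hspan : Submodule.span ℂ (Set.range ℓ) = ⊤) {R : ℕ}
    (hR : Bound ℓ c R) {x : Fin (n + 1) → K} (hli : LinearIndependent ℂ x) (hdk : d + k = n)
    (σ : Fin (d + 1) → Fin (n + 1)) (hσ : x (σ 0) = 1)
    (F : Frame (fun j => x (σ j.succ)) u Dt Du) (hx : ∀ j, Hz Du (x j))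
    (X : Set (Place ℂ K)) (δ : Place ℂ K → ℝ) (hδ : ∀ P ∈ X, 0 ≤ δ P) {s : ℝ}
    (hs : (R : ℝ) * ((k + 1) * (k + 2)) ≤ 2 * s) (h : HighV N ℓ γ x X δ s) :
    ∃ M : ℕ, 0 < M ∧ ∃ f : K, f ≠ 0 ∧ ∀ P ∈ X, Divisorial N P → ∀ E : Fin d → Derivation ℂ K K,
      (∀ i, DerReg P (E i)) → ∃ c' : ℤ,
        Ge P c' ((mtx (fun j => x (σ j.succ)) E).det ^ M * f) ∧ -(M * δ P) ≤ (c' : ℝ) := by
  have hlx : ∀ i, lf (ℓ i) x ≠ 0 := fun i => lf_ne_of_li hli (hℓ i)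
  obtain ⟨hB, hconn⟩ := hγ.blocks hℓ hspan hc1
  obtain ⟨p, hp⟩ := exists_wt hn hℓ hR (splits_le hγ.splits).1 hspan hB hconn
  have hR1 := hR.pos hγ.splits
  have hp0 := hp.1
  obtain ⟨ε, S, hW, hform⟩ := F.form hℓ hspan hli hdk σ hσ hx p
  obtain ⟨W, hWd⟩ : ∃ W : ℕ, W = 1 + ∑ a, (S a).length := ⟨_, rfl⟩
  have hW1 : 1 ≤ W := by omega
  obtain ⟨hne, hE⟩ := hform 1
  rw [← hWd] at hW hE
  refine ⟨W * (1 * ∑ B, p B), Nat.mul_pos hW1 (by omega), sg ℓ x p 1 ε S Dt, hne, ?_⟩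
  intro P hPX hPd E hEr
  rw [← hE]
  obtain ⟨a, v, v', m, c', M, -, -, hc, -, hM0, hM⟩ :=
    sub_ord2 hB hspan hp hlx h 1 ε S hPX hPd hEr
  rw [← hWd] at hM
  refine ⟨c', hc, ?_⟩
  have hN0 : (0 : ℝ) ≤ ∑ B, (p B : ℝ) := by positivity
  have hW0 : (0 : ℝ) ≤ W := by positivity
  push_cast
  rcases hM with ⟨-, h0⟩ | ⟨h1, h2⟩
  · have h3 := mul_nonneg (mul_nonneg hW0 hN0) (hδ P hPX)
    linarith
  · have h1' := arith0 hW hs hM0 h1
    have h4 := mul_le_mul_of_nonneg_left h1' hN0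
    have hpos : (0 : ℝ) < R := by exact_mod_cast hR1
    push_cast at h2
    refine le_of_mul_le_mul_left ?_ hpos
    nlinarith

/-- **The estimate, with several sections.** -/
theorem Frame.est_kod (hn : 1 ≤ n) (hℓ : ∀ i, ℓ i ≠ 0) (hγ : Comps ℓ γ)
    (hc1 : ¬ Splits ℓ (c + 1)) (hspan : Submodule.span ℂ (Set.range ℓ) = ⊤) {R : ℕ}
    (hR : Bound ℓ c R) {x : Fin (n + 1) → K} (hli : LinearIndependent ℂ x) (hdk : d + k = n)
    (σ : Fin (d + 1) → Fin (n + 1)) (hσ : x (σ 0) = 1)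
    (F : Frame (fun j => x (σ j.succ)) u Dt Du) (hx : ∀ j, Hz Du (x j))
    {L : IntermediateField ℂ K} {xL : Fin (n + 1) → L} (hxL : ∀ j, (xL j : K) = x j)
    (hbas : IsTranscendenceBasis ℂ (fun j : Fin d => xL (σ j.succ)))
    (X : Set (Place ℂ K)) (δ : Place ℂ K → ℝ) (hδ : ∀ P ∈ X, 0 ≤ δ P) {s : ℝ}
    (hs : (R : ℝ) * ((k + 1) * (k + 2)) < 2 * s) (h : HighV N ℓ γ x X δ s) {κ : ℕ}
    (hκ : κ + c = d + 1) :
    ∃ M : ℕ, 0 < M ∧ ∃ f : K, f ≠ 0 ∧ ∃ w : Fin (κ + 1) → K, w 0 = 1 ∧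
      AlgebraicIndependent ℂ (fun i : Fin κ => w i.succ) ∧ (∀ j, w j ∈ L) ∧
      ∀ P ∈ X, Divisorial N P → ∀ E : Fin d → Derivation ℂ K K,
      (∀ i, DerReg P (E i)) → ∀ j, ∃ c' : ℤ,
        Ge P c' ((mtx (fun j => x (σ j.succ)) E).det ^ M * (f * w j)) ∧
          -(M * δ P) ≤ (c' : ℝ) := by
  have hlx : ∀ i, lf (ℓ i) x ≠ 0 := fun i => lf_ne_of_li hli (hℓ i)
  obtain ⟨hB, hconn⟩ := hγ.blocks hℓ hspan hc1
  obtain ⟨p, hp⟩ := exists_wt hn hℓ hR (splits_le hγ.splits).1 hspan hB hconn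
  have hR1 := hR.pos hγ.splits
  have hRpos : (0 : ℝ) < R := by exact_mod_cast hR1
  obtain ⟨B0⟩ := exists_bases hspan
  have i0 : Fin q := B0.1 0
  obtain ⟨ε, S, hW, hform⟩ := F.form hℓ hspan hli hdk σ hσ hx p
  obtain ⟨W, hWd⟩ : ∃ W : ℕ, W = 1 + ∑ a, (S a).length := ⟨_, rfl⟩
  have hW1 : 1 ≤ W := by omega
  rw [← hWd] at hW
  have hW1' : (1 : ℝ) ≤ W := by exact_mod_cast hW1
  have hW' : (2 : ℝ) * W ≤ (k + 1) * (k + 2) := by exact_mod_cast hW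
  have hRW : (R : ℝ) * W < s := by
    have h1 : (R : ℝ) * (2 * W) ≤ R * ((k + 1) * (k + 2)) :=
      mul_le_mul_of_nonneg_left hW' hRpos.le
    linarith
  have hN1 : (1 : ℝ) ≤ ∑ B, (p B : ℝ) := by exact_mod_cast hp.1
  obtain ⟨t, ht⟩ := exists_nat_gt ((R : ℝ) * s / (s - R * W))
  have hsR : 0 < s - R * W := sub_pos.2 hRW
  have hspos : 0 < s := lt_of_le_of_lt (by positivity) hRW
  have ht0 : (0 : ℝ) < t := lt_trans (by positivity) ht
  have ht0' : 0 < t := by exact_mod_cast ht0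
  have htA : (R : ℝ) * s ≤ (t * ∑ B, (p B : ℝ)) * (s - R * W) := by
    have h1 := (div_lt_iff₀ hsR).1 ht
    have h2 : (t : ℝ) * (s - R * W) ≤ (t * ∑ B, (p B : ℝ)) * (s - R * W) :=
      mul_le_mul_of_nonneg_right (le_mul_of_one_le_right ht0.le hN1) hsR.le
    linarith
  choose rr hrr using fun j => hB.cp_ne B0 j
  have hrr' : ∀ j, γ (B0.1 (rr j)) = j := fun j => mem_cp.1 (hrr j)
  have hlxL : ∀ i, lf (ℓ i) xL ≠ 0 := fun i h0 => hlx i (by rw [← lf_coe hxL, h0]; rfl)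
  have hσL : xL (σ 0) = 1 := Subtype.ext (by rw [hxL, hσ]; rfl)
  obtain ⟨ι, hι⟩ := indep_v B0 hlxL σ (by simpa only [hσL, div_one] using hbas) rr hrr' hκ
  let u : Fin κ → K := fun i => lf (ℓ (B0.1 (ι i))) x / lf (ℓ (B0.1 (rr (γ (B0.1 (ι i)))))) x
  have hu : ∀ i, u i = ((lf (ℓ (B0.1 (ι i))) xL / lf (ℓ (B0.1 (rr (γ (B0.1 (ι i)))))) xL : L) : K) := by
    intro i
    change lf (ℓ (B0.1 (ι i))) x / lf (ℓ (B0.1 (rr (γ (B0.1 (ι i)))))) x = _
    rw [← lf_coe hxL, ← lf_coe hxL]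
    rfl
  let w : Fin (κ + 1) → K := Fin.cons 1 u
  have hw : ∀ (P : Place ℂ K) (a : ℤ) (v v' : Fin q → ℕ) (m : Fin c → ℕ),
      (∀ i, P.ord (lf (ℓ i) x) = a + v i) → (∀ i, v i = v' i + m (γ i)) →
      ∀ j, ∃ i, Ge P (-(v' i : ℤ)) (w j) := by
    intro P a v v' m hord hm j
    refine Fin.cases ?_ (fun i => ?_) j
    · refine ⟨i0, Or.inr ?_⟩
      change _ ≤ P.ord (1 : K)
      rw [P.ord_one]
      linarith [Int.natCast_nonneg (v' i0)]
    · refine ⟨B0.1 (rr (γ (B0.1 (ι i)))), Or.inr ?_⟩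
      change _ ≤ P.ord (lf (ℓ (B0.1 (ι i))) x / lf (ℓ (B0.1 (rr (γ (B0.1 (ι i)))))) x)
      rw [P.ord_div (hlx _) (hlx _), hord, hord, hm (B0.1 (ι i)), hm (B0.1 (rr _)), hrr']
      push_cast
      linarith [Int.natCast_nonneg (v' (B0.1 (ι i)))]
  obtain ⟨hne, hE⟩ := hform t
  rw [← hWd] at hE
  refine ⟨W * (t * ∑ B, p B), Nat.mul_pos hW1 (Nat.mul_pos ht0' hp.1), sg ℓ x p t ε S Dt, hne, w,
    rfl, ?_, fun j => ?_, ?_⟩
  · have e1 : (fun i : Fin κ => w i.succ) = fun i : Fin κ => algebraMap L K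
        (lf (ℓ (B0.1 (ι i))) xL / lf (ℓ (B0.1 (rr (γ (B0.1 (ι i)))))) xL) := funext fun i => hu i
    rw [e1]
    exact hι.map' (f := IsScalarTower.toAlgHom ℂ L K) (algebraMap L K).injective
  · refine Fin.cases ?_ (fun i => ?_) j
    · exact one_mem L
    · change u i ∈ L
      rw [hu]
      exact Subtype.coe_prop _
  · intro P hPX hPd D hD j
    obtain ⟨a, v, v', m, c', M, hv, hm, hc, hvM, hM0, hM⟩ :=
      sub_ord2 hB hspan hp hlx h t ε S hPX hPd hD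
    rw [← hWd] at hM
    obtain ⟨i, hi⟩ := hw P a v v' m hv hm j
    have h5 := hc.mul hi
    rw [hE D, mul_assoc] at h5
    refine ⟨_, h5, ?_⟩
    push_cast
    obtain ⟨A, hA⟩ : ∃ A : ℝ, A = t * ∑ B, (p B : ℝ) := ⟨_, rfl⟩
    rw [← hA] at htA hM ⊢
    have hA0 : (0 : ℝ) ≤ A := by rw [hA]; positivity
    have hMi := hvM i
    have hδA := mul_nonneg (mul_nonneg (by positivity : (0 : ℝ) ≤ W) hA0) (hδ P hPX)
    rcases hM with ⟨hM1, hM2⟩ | ⟨hM1, hM2⟩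
    · rw [hM1] at hMi
      linarith
    · -- `M ≤ c' + W A δ`
      have hWA : (0 : ℝ) ≤ W * A := by positivity
      have e1 : (W * A) * (s * (1 - δ P)) ≤ (W * A) * M := mul_le_mul_of_nonneg_left hM1 hWA
      have e2 : (R : ℝ) * s * M ≤ A * (s - R * W) * M := mul_le_mul_of_nonneg_right htA hM0
      have e3 : s * (A * M) ≤ s * (R * (c' + W * A)) := mul_le_mul_of_nonneg_left hM2 hspos.le
      have e4 : (R : ℝ) * ((W * A) * (s * (1 - δ P))) ≤ R * ((W * A) * M) :=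
        mul_le_mul_of_nonneg_left e1 hRpos.le
      have e5 : M ≤ c' + W * A * δ P := by
        have hpp : (0 : ℝ) < R * s := mul_pos hRpos hspos
        refine le_of_mul_le_mul_left ?_ hpp
        nlinarith
      linarith

/-- **Tensor differentials.** -/
theorem Frame.tens (hd : 1 ≤ d) {t : Fin d → K} (F : Frame t u Dt Du)
    {X : Set (Place ℂ K)} {M : ℕ} (hM : 0 < M) {f : K} (hf : f ≠ 0)
    (h : ∀ P ∈ X, Divisorial N P → ∀ E : Fin d → Derivation ℂ K K,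
      (∀ i, DerReg P (E i)) → ∃ c' : ℤ, Ge P c' ((mtx t E).det ^ M * f) ∧ (0 : ℝ) ≤ (c' : ℝ)) :
    1 ≤ M * d ∧ tns t f M ≠ 0 ∧ ∀ P ∈ X, Divisorial N P →
      ∀ D : Fin (M * d) → Derivation ℂ K K, (∀ j, DerReg P (D j)) → P.Reg (tns t f M D) := by
  refine ⟨Nat.mul_pos hM hd, fun h0 => ?_, fun P hPX hPd D hD => ?_⟩
  · have h1 := congrArg (fun T => T fun i => Dt (finProdFinEquiv.symm i).2) h0
    change tns t f M (fun i => Dt (finProdFinEquiv.symm i).2) = 0 at h1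
    rw [tns_apply] at h1
    have h2 : ∀ b : Fin M, (mtx t (fun j => Dt ((finProdFinEquiv (m := M) (n := d)).symm
        (finProdFinEquiv (b, j))).2)).det = 1 := by
      intro b
      have h3 : mtx t (fun j => Dt ((finProdFinEquiv (m := M) (n := d)).symm
          (finProdFinEquiv (b, j))).2) = 1 := by
        ext i j
        change Dt ((finProdFinEquiv (m := M) (n := d)).symm (finProdFinEquiv (b, i))).2 (t j) = _
        rw [Equiv.symm_apply_apply, F.tt, Matrix.one_apply]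
      rw [h3, Matrix.det_one]
    rw [Finset.prod_congr rfl fun b _ => h2 b, Finset.prod_const_one, mul_one] at h1
    exact hf h1
  · refine tns_reg hM (fun E hE _ => ?_) D hD
    obtain ⟨c', h1, h2⟩ := h P hPX hPd E hE
    exact h1.mono (by exact_mod_cast h2)

end Pool.Agent.TH585.SV
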