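import Pool.Agent.TH585.SV.Fib5

/-!
The data for the theorems on linear systems.
-/

set_option autoImplicit false

open FF Module Pool.Agent.W603.LV Pool.Agent.W602.GT Pool.Agent.W602.Cov Pool.Agent.W602.Cov.G
open Pool.Agent.W168.CG.PGR Pool.Agent.TH152.AC Pool.Agent.TH152.HY Pool.Agent.TH766.MC

namespace Pool.Agent.TH585.SV

variable {N d e k n q c : ℕ} {K : Type} [Field K] [Algebra ℂ K]

/-- the data for the theorems in coordinates -/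
theorem lin_data2 {V : Submodule ℂ K} {φ : Fin q → K} (hφ0 : ∀ i, φ i ≠ 0)
    (hφ : Submodule.span ℂ (Set.range φ) = V)
    {γ : Fin q → Fin c} (hγ : Dcp n V φ γ) (hc : ∀ γ' : Fin q → Fin (c + 1), ¬ Dcp n V φ γ')
    {R : ℕ} (hR : R + c = n + 3 ∨
      (c = 1 ∧ (∃ τ : Fin (n + 3) → Fin q, ∀ i j, i ≠ j → ∀ t : ℂ, φ (τ i) ≠ t • φ (τ j)) ∧
        R = n + 1)) :
    ∃ (y : Fin (n + 1) → K) (ℓ : Fin q → Form n),
      LinearIndependent ℂ y ∧ (∀ i, lf (ℓ i) y = φ i) ∧ (∀ i, ℓ i ≠ 0) ∧ Comps ℓ γ ∧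
      ¬ Splits ℓ (c + 1) ∧ Submodule.span ℂ (Set.range ℓ) = ⊤ ∧ Bound ℓ c R ∧
      (∀ ψ : Form n, lf ψ y ∈ V) ∧ ∀ f ∈ V, ∃ ψ : Form n, lf ψ y = f := by
  obtain ⟨x, g, hli, hxV, hg, hm⟩ := hγ
  choose ℓ hℓ hℓ2 using fun i => exists_lift {a | g a = γ i} (hm i)
  have hinj : Function.Injective (lfm x) := by
    rw [injective_iff_map_eq_zero]
    intro φ hφ
    by_contra h0
    exact lf_ne_of_li hli h0 hφ
  have hmem : ∀ ψ : Form n, lf ψ x ∈ V := by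
    intro ψ
    rw [lf_eq_smul, ← hxV]
    exact Submodule.sum_mem _ fun j _ => Submodule.smul_mem _ _ (Submodule.subset_span ⟨j, rfl⟩)
  have hfm : ∀ f ∈ V, ∃ ψ : Form n, lf ψ x = f := by
    intro f hf
    rw [← hxV, ← Set.image_univ] at hf
    obtain ⟨ψ, h1, -⟩ := exists_lift Set.univ hf
    exact ⟨ψ, h1⟩
  have hr : LinearMap.range (lfm x) = V := by
    apply le_antisymm
    · rintro _ ⟨ψ, rfl⟩
      exact hmem ψ
    · intro f hf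
      obtain ⟨ψ, hψ⟩ := hfm f hf
      exact ⟨ψ, hψ⟩
  have hφℓ : (fun i => lf (ℓ i) x) = φ := funext hℓ
  refine ⟨x, ℓ, hli, hℓ, fun i h0 => hφ0 i ?_, ?_, fun hs => ?_, ?_, ?_, hmem, hfm⟩
  · rw [← hℓ i, h0, lf_zero]
  · refine ⟨Pi.basisFun ℂ _, g, hg, fun i a ha => ?_⟩
    rw [Pi.basisFun_apply]
    exact hℓ2 i a ha
  · obtain ⟨γ', hγ'⟩ := dcp_of_comps hli hr hs
    rw [hφℓ] at hγ'
    exact hc γ' hγ'
  · apply Submodule.map_injective_of_injective hinj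
    rw [Submodule.map_span, Submodule.map_top, hr, ← hφ, ← Set.range_comp]
    congr 2
  · rcases hR with h | ⟨h1, ⟨τ, hτ⟩, h3⟩
    · exact Or.inl h
    · refine Or.inr ⟨h1, ⟨τ, fun i j hij t heq => hτ i j hij t ?_⟩, h3⟩
      rw [← hℓ, ← hℓ, heq, lf_smul, Algebra.smul_def]

/-- the multiplicities -/
theorem lin_high2 {V : Submodule ℂ K} {φ : Fin q → K} (hφ0 : ∀ i, φ i ≠ 0) {γ : Fin q → Fin c}
    {X : Set (Place ℂ K)}
    {δ : Place ℂ K → ℝ} {s : ℝ} {x y : Fin (n + 1) → K} {ℓ : Fin q → Form n}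
    (hℓ : ∀ i, lf (ℓ i) y = φ i) (hmem : ∀ ψ : Form n, lf ψ y ∈ V)
    (hfm : ∀ f ∈ V, ∃ ψ : Form n, lf ψ y = f) (hy0 : y 0 ≠ 0)
    (hxy : ∀ ψ : Form n, lf ψ y = lf ψ x * y 0)
    (h : ∀ P ∈ X, Divisorial N P → ∀ a : ℤ, (∀ f ∈ V, f = 0 ∨ a ≤ P.ord f) →
      (∃ f ∈ V, f ≠ 0 ∧ P.ord f = a) → (∃ i, P.ord (φ i) ≠ a) →
      ∃ i i', γ i' = γ i ∧ s * (1 - δ P) ≤ ((P.ord (φ i) - P.ord (φ i') : ℤ) : ℝ)) :
    HighV N ℓ γ x X δ s := by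
  intro P hPX hPd a v h1 h2 hv hv0
  have hord : ∀ i, P.ord (φ i) = a + P.ord (y 0) + v i := by
    intro i
    have h3 : lf (ℓ i) x ≠ 0 := fun h0 => hφ0 i (by rw [← hℓ i, hxy, h0, zero_mul])
    rw [← hℓ i, hxy, P.ord_mul h3 hy0, hv i]
    ring
  obtain ⟨i, i', hii, hi⟩ := h P hPX hPd (a + P.ord (y 0)) (fun f hf => by
    obtain ⟨ψ, rfl⟩ := hfm f hf
    rw [hxy]
    rcases h1 ψ with h3 | h3
    · left
      rw [h3, zero_mul]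
    · by_cases h4 : lf ψ x = 0
      · left
        rw [h4, zero_mul]
      · right
        rw [P.ord_mul h4 hy0]
        linarith) (by
    obtain ⟨ψ, hψ0, hψ⟩ := h2
    refine ⟨lf ψ y, hmem ψ, ?_, ?_⟩
    · rw [hxy]
      exact mul_ne_zero hψ0 hy0
    · rw [hxy, P.ord_mul hψ0 hy0, hψ]) (by
    obtain ⟨i, hi⟩ := Function.ne_iff.1 hv0
    refine ⟨i, ?_⟩
    rw [hord]
    have hi' : v i ≠ 0 := hi
    omega)
  refine ⟨i, i', hii, ?_⟩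
  rw [hord, hord] at hi
  have e1 : ((a + P.ord (y 0) + (v i : ℤ) - (a + P.ord (y 0) + (v i' : ℤ)) : ℤ) : ℝ) =
      (v i : ℝ) - v i' := by
    push_cast
    ring
  rwa [e1] at hi

/-- **Tensor differentials from linear systems.** -/
theorem lin_tens (hd : 1 ≤ d) (hdk : d + k = n) (hK : Algebra.trdeg ℂ K = (d + e : ℕ))
    {V : Submodule ℂ K} (hL : Algebra.trdeg ℂ (rf V) = d)
    {φ : Fin q → K} (hφ0 : ∀ i, φ i ≠ 0) (hφ : Submodule.span ℂ (Set.range φ) = V)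
    {γ : Fin q → Fin c} (hγ : Dcp n V φ γ) (hc : ∀ γ' : Fin q → Fin (c + 1), ¬ Dcp n V φ γ')
    {R : ℕ} (hR : R + c = n + 3 ∨
      (c = 1 ∧ (∃ τ : Fin (n + 3) → Fin q, ∀ i j, i ≠ j → ∀ t : ℂ, φ (τ i) ≠ t • φ (τ j)) ∧
        R = n + 1))
    (X : Set (Place ℂ K)) {s : ℝ}
    (hs : (R : ℝ) * ((k + 1) * (k + 2)) ≤ 2 * s)
    (h : ∀ P ∈ X, Divisorial N P → ∀ a : ℤ, (∀ f ∈ V, f = 0 ∨ a ≤ P.ord f) →
      (∃ f ∈ V, f ≠ 0 ∧ P.ord f = a) → (∃ i, P.ord (φ i) ≠ a) →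
      ∃ i i', γ i' = γ i ∧ s ≤ ((P.ord (φ i) - P.ord (φ i') : ℤ) : ℝ)) :
    ∃ M : ℕ, 0 < M ∧ ∃ ω : MultilinearMap K (fun _ : Fin (M * d) => Derivation ℂ K K) K, ω ≠ 0 ∧
      ∀ P ∈ X, Divisorial N P → ∀ D : Fin (M * d) → Derivation ℂ K K, (∀ j, DerReg P (D j)) →
        P.Reg (ω D) := by
  obtain ⟨y, ℓ, hliy, hℓ, hℓ0, hcomp, hspl, hspan, hB, hmem, hfm⟩ := lin_data2 hφ0 hφ hγ hc hR
  have hyV : ∀ j, y j ∈ V := fun j => by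
    have := hmem (LinearMap.proj j)
    rwa [lf_proj] at this
  obtain ⟨x, σ, u, Dt, Du, hli, hσ, F, hx, hxy, -, -⟩ := exists_frame_lin hliy hyV hfm hL hK
  have hh := lin_high2 (N := N) (X := X) (δ := fun _ => 0) (s := s) hφ0 hℓ hmem hfm
    (hliy.ne_zero 0) hxy (fun P hPX hPd a h1 h2 h3 => by
      obtain ⟨i, i', h4, h5⟩ := h P hPX hPd a h1 h2 h3
      exact ⟨i, i', h4, by rw [sub_zero, mul_one]; exact h5⟩)
  obtain ⟨M, hM, f, hf, hest⟩ := F.est (by omega) hℓ0 hcomp hspl hspan hB hli hdk σ hσ hx X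
    (fun _ => 0) (fun _ _ => le_rfl) hs hh
  obtain ⟨-, h1, h2⟩ := F.tens (N := N) (X := X) hd hM hf (fun P hPX hPd E hE => by
    obtain ⟨c', h3, h4⟩ := hest P hPX hPd E hE
    exact ⟨c', h3, by simpa using h4⟩)
  exact ⟨M, hM, _, h1, h2⟩

end Pool.Agent.TH585.SV
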