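import Pool.Agent.TH585.SV.Fib6
import Mathlib.LinearAlgebra.Matrix.SchurComplement
import Mathlib.LinearAlgebra.Matrix.Adjugate

/-!
Regular vector fields, and forms along the fibres.
-/

set_option autoImplicit false

open FF Module Pool.Agent.W603.LV Pool.Agent.W602.GT Pool.Agent.W602.Cov Pool.Agent.W602.Cov.G
open Pool.Agent.W168.CG.PGR Pool.Agent.TH152.AC Pool.Agent.TH152.HY Pool.Agent.TH766.MC

namespace Pool.Agent.TH585.SV

variable {N d e : ℕ} {K : Type} [Field K] [Algebra ℂ K] {t : Fin d → K} {u : Fin e → K}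
  {Dt : Fin d → Derivation ℂ K K} {Du : Fin e → Derivation ℂ K K}

/-- the matrix of all vector fields -/
def big (t : Fin d → K) (u : Fin e → K) (D : Fin (d + e) → Derivation ℂ K K) :
    Matrix (Fin d ⊕ Fin e) (Fin d ⊕ Fin e) K :=
  Matrix.of fun a b => D (finSumFinEquiv a) (Sum.elim t u b)

theorem big_change (t : Fin d → K) (u : Fin e → K) (A : Matrix (Fin (d + e)) (Fin (d + e)) K)
    (D : Fin (d + e) → Derivation ℂ K K) :
    (big t u (fun i => ∑ j, A i j • D j)).det = A.det * (big t u D).det := by
  have h1 : big t u (fun i => ∑ j, A i j • D j) =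
      (A.submatrix finSumFinEquiv finSumFinEquiv) * big t u D := by
    ext a b
    rw [Matrix.mul_apply]
    change (∑ j, A (finSumFinEquiv a) j • D j) (Sum.elim t u b) = _
    rw [der_sum, ← Equiv.sum_comp finSumFinEquiv]
    rfl
  rw [h1, Matrix.det_mul, Matrix.det_submatrix_equiv_self]

/-- the determinant of the frame -/
theorem Frame.big_frame (F : Frame t u Dt Du) :
    (big t u (fun i => Sum.elim Dt Du (finSumFinEquiv.symm i))).det = 1 := by
  have h1 : big t u (fun i => Sum.elim Dt Du (finSumFinEquiv.symm i)) = 1 := by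
    ext a b
    change (Sum.elim Dt Du (finSumFinEquiv.symm (finSumFinEquiv a))) (Sum.elim t u b) = _
    rw [Equiv.symm_apply_apply, Matrix.one_apply]
    rcases a with a | a <;> rcases b with b | b
    · rw [Sum.elim_inl, Sum.elim_inl, F.tt]
      simp
    · rw [Sum.elim_inl, Sum.elim_inr, F.tu]
      simp
    · rw [Sum.elim_inr, Sum.elim_inl, F.ut]
      simp
    · rw [Sum.elim_inr, Sum.elim_inr, F.uu]
      simp
  rw [h1, Matrix.det_one]

/-- nonzero minors -/
theorem Frame.exists_minor (F : Frame t u Dt Du) {D : Fin (d + e) → Derivation ℂ K K}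
    (hD : (big t u D).det ≠ 0) : ∃ s : Fin d → Fin (d + e), (mtx t (fun i => D (s i))).det ≠ 0 := by
  classical
  by_contra hcon
  push Not at hcon
  -- the frame in terms of `D`
  obtain ⟨C, hC⟩ : ∃ C : Matrix (Fin d ⊕ Fin e) (Fin d ⊕ Fin e) K, C = (big t u D)⁻¹ := ⟨_, rfl⟩
  have hCB : C * big t u D = 1 := by
    rw [hC]
    exact Matrix.nonsing_inv_mul _ (isUnit_iff_ne_zero.2 hD)
  have h1 : ∀ i : Fin d, Dt i = ∑ a, C (Sum.inl i) (finSumFinEquiv.symm a) • D a := by
    intro i
    refine F.ext (fun j => ?_) fun j => ?_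
    · rw [der_sum, F.tt, ← Equiv.sum_comp finSumFinEquiv]
      have h2 := congrFun (congrFun hCB (Sum.inl i)) (Sum.inl j)
      rw [Matrix.mul_apply, Matrix.one_apply] at h2
      simp only [Equiv.symm_apply_apply]
      rw [show (if i = j then (1 : K) else 0) = if (Sum.inl i : Fin d ⊕ Fin e) = Sum.inl j then 1
        else 0 by simp, ← h2]
      rfl
    · rw [der_sum, F.tu, ← Equiv.sum_comp finSumFinEquiv]
      have h2 := congrFun (congrFun hCB (Sum.inl i)) (Sum.inr j)
      rw [Matrix.mul_apply, Matrix.one_apply] at h2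
      simp only [Equiv.symm_apply_apply]
      rw [show (0 : K) = if (Sum.inl i : Fin d ⊕ Fin e) = Sum.inr j then 1 else 0 by simp, ← h2]
      rfl
  have h2 : dform t Dt = 1 := by
    rw [dform_apply]
    have h3 : mtx t Dt = 1 := by
      ext i j
      change Dt i (t j) = _
      rw [F.tt, Matrix.one_apply]
    rw [h3, Matrix.det_one]
  have h3 : dform t Dt = 0 := by
    have h4 : Dt = fun i => ∑ a, C (Sum.inl i) (finSumFinEquiv.symm a) • D a := funext h1
    rw [h4]
    have h5 := (dform t).toMultilinearMap.map_sum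
      (fun (i : Fin d) (a : Fin (d + e)) => C (Sum.inl i) (finSumFinEquiv.symm a) • D a)
    change dform t (fun i => ∑ a, C (Sum.inl i) (finSumFinEquiv.symm a) • D a) = _ at h5
    rw [h5]
    refine Finset.sum_eq_zero fun r _ => ?_
    rw [MultilinearMap.map_smul_univ]
    change _ • dform t (fun i => D (r i)) = 0
    rw [dform_apply, hcon, smul_zero]
  rw [h2] at h3
  exact one_ne_zero h3

/-- **Adapted regular vector fields.** -/
theorem Frame.split (F : Frame t u Dt Du) {P : Place ℂ K} {D : Fin (d + e) → Derivation ℂ K K}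
    (hDr : ∀ i, DerReg P (D i)) (hD : (big t u D).det ≠ 0) :
    ∃ (E : Fin d → Derivation ℂ K K) (G : Fin e → Derivation ℂ K K), (∀ i, DerReg P (E i)) ∧
      (∀ i, DerReg P (G i)) ∧ (∀ i j, G i (t j) = 0) ∧
      ((big t u D).det = (mtx t E).det * (mtx u G).det ∨
        (big t u D).det = -((mtx t E).det * (mtx u G).det)) := by
  classical
  -- a minor of minimal order
  obtain ⟨s1, hs1⟩ := F.exists_minor hD
  obtain ⟨s, hs, hmin⟩ := Finset.exists_min_image
    (Finset.univ.filter fun s : Fin d → Fin (d + e) => (mtx t (fun i => D (s i))).det ≠ 0)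
    (fun s => P.ord (mtx t (fun i => D (s i))).det) ⟨s1, by simpa using hs1⟩
  have hs0 : (mtx t (fun i => D (s i))).det ≠ 0 := (Finset.mem_filter.1 hs).2
  have hinj : Function.Injective s := by
    intro a b hab
    by_contra hne
    apply hs0
    refine Matrix.det_zero_of_row_eq hne ?_
    funext l
    change D (s a) (t l) = D (s b) (t l)
    rw [hab]
  -- the complement
  have hcard : Fintype.card ((Set.range s)ᶜ : Set (Fin (d + e))) = e := by
    rw [Fintype.card_compl_set, Fintype.card_fin, Set.card_range_of_injective hinj,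
      Fintype.card_fin]
    omega
  let ρ : Fin d ⊕ Fin e ≃ Fin (d + e) :=
    ((Equiv.ofInjective s hinj).sumCongr (Fintype.equivFinOfCardEq hcard).symm).trans
      (Equiv.Set.sumCompl (Set.range s))
  have hρl : ∀ i, ρ (Sum.inl i) = s i := fun i => rfl
  obtain ⟨r, hr⟩ : ∃ r : Fin e → Fin (d + e), ∀ i, r i = ρ (Sum.inr i) := ⟨_, fun _ => rfl⟩
  obtain ⟨c, hc⟩ : ∃ c : Fin e → Fin d → K, ∀ j l, c j l =
      (mtx t (fun i => D (Function.update s l (r j) i))).det / (mtx t (fun i => D (s i))).det :=
    ⟨_, fun _ _ => rfl⟩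
  have hcreg : ∀ j l, Ge P 0 (c j l) := by
    intro j l
    rw [hc]
    by_cases h0 : (mtx t (fun i => D (Function.update s l (r j) i))).det = 0
    · left
      rw [h0, zero_div]
    · right
      rw [P.ord_div h0 hs0]
      have := hmin (Function.update s l (r j)) (by simpa using h0)
      linarith
  have hcr : ∀ j m, D (r j) (t m) = ∑ l, c j l * D (s l) (t m) := by
    intro j m
    have h1 := Matrix.mulVec_cramer (mtx t (fun i => D (s i))).transpose
      (fun m => D (r j) (t m))
    have h2 := congrFun h1 m
    rw [Matrix.det_transpose] at h2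
    have h3 : ((mtx t (fun i => D (s i))).transpose.mulVec
        ((mtx t (fun i => D (s i))).transpose.cramer (fun m => D (r j) (t m)))) m =
        ∑ l, D (s l) (t m) * (mtx t (fun i => D (Function.update s l (r j) i))).det := by
      change ∑ l, D (s l) (t m) * _ = _
      refine Finset.sum_congr rfl fun l _ => ?_
      rw [Matrix.cramer_transpose_apply]
      congr 2
      ext i m'
      by_cases hi : i = l
      · subst hi
        rw [Matrix.updateRow_self]
        change _ = D (Function.update s i (r j) i) (t m')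
        rw [Function.update_self]
      · rw [Matrix.updateRow_ne hi]
        change D (s i) (t m') = D (Function.update s l (r j) i) (t m')
        rw [Function.update_of_ne hi]
    rw [h3] at h2
    change _ = (mtx t (fun i => D (s i))).det * D (r j) (t m) at h2
    have h4 : D (r j) (t m) = (∑ l, D (s l) (t m) *
        (mtx t (fun i => D (Function.update s l (r j) i))).det) /
          (mtx t (fun i => D (s i))).det := by
      rw [h2, mul_div_cancel_left₀ _ hs0]
    rw [h4, Finset.sum_div]
    refine Finset.sum_congr rfl fun l _ => ?_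
    rw [hc]
    ring
  obtain ⟨G, hG⟩ : ∃ G : Fin e → Derivation ℂ K K, ∀ j, G j = D (r j) - ∑ l, c j l • D (s l) :=
    ⟨_, fun _ => rfl⟩
  have hGa : ∀ j f, G j f = D (r j) f - ∑ l, c j l * D (s l) f := by
    intro j f
    rw [hG, Derivation.sub_apply, der_sum]
  refine ⟨fun i => D (s i), G, fun i => hDr _, fun j => ?_, fun j m => ?_, ?_⟩
  · intro f hf
    rw [hGa, reg_iff_ge]
    refine Ge.sub (hDr _ f hf) (Ge.sum _ _ fun l _ => ?_)
    have := (hcreg j l).mul (hDr (s l) f hf)
    rwa [zero_add] at this
  · rw [hGa, hcr, sub_self]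
  · -- the determinant
    have h1 : (Matrix.of fun a b : Fin d ⊕ Fin e => D (ρ a) (Sum.elim t u b)) =
        (big t u D).submatrix (ρ.trans finSumFinEquiv.symm) id := by
      ext a b
      change D (ρ a) (Sum.elim t u b) =
        D (finSumFinEquiv (finSumFinEquiv.symm (ρ a))) (Sum.elim t u b)
      rw [Equiv.apply_symm_apply]
    have h2 : (Matrix.of fun a b : Fin d ⊕ Fin e => D (ρ a) (Sum.elim t u b)) =
        Matrix.fromBlocks 1 0 (Matrix.of c) 1 * Matrix.fromBlocks (mtx t (fun i => D (s i)))
          (Matrix.of fun (i : Fin d) (l : Fin e) => D (s i) (u l)) 0 (mtx u G) := by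
      rw [Matrix.fromBlocks_multiply, Matrix.one_mul, Matrix.zero_mul, add_zero, Matrix.one_mul,
        Matrix.zero_mul, add_zero, Matrix.one_mul, Matrix.one_mul, add_zero]
      ext a b
      rcases a with a | a <;> rcases b with b | b
      · rfl
      · rfl
      · change D (ρ (Sum.inr a)) (t b) = (Matrix.of c * mtx t (fun i => D (s i))) a b
        rw [← hr, hcr, Matrix.mul_apply]
        rfl
      · change D (ρ (Sum.inr a)) (u b) =
          (Matrix.of c * Matrix.of fun (i : Fin d) (l : Fin e) => D (s i) (u l)) a b + G a (u b)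
        rw [← hr, hGa, Matrix.mul_apply]
        change D (r a) (u b) = ∑ l, c a l * D (s l) (u b) + _
        ring
    have h3 := congrArg Matrix.det h2
    rw [Matrix.det_mul, Matrix.det_fromBlocks_zero₁₂, Matrix.det_fromBlocks_zero₂₁,
      Matrix.det_one, Matrix.det_one, one_mul, one_mul, h1, Matrix.det_permute] at h3
    rcases Int.units_eq_one_or (Equiv.Perm.sign (ρ.trans finSumFinEquiv.symm)) with h4 | h4
    · left
      rw [h4] at h3
      simpa using h3
    · right
      rw [h4] at h3
      rw [← h3]
      simp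

/-- a vector field along the fibres -/
noncomputable def lft (L : IntermediateField ℂ K) (D : Derivation ℂ K K) (h : ∀ f ∈ L, D f = 0) :
    Derivation L K K :=
  Derivation.mk' { toFun := D
                   map_add' := D.map_add
                   map_smul' := fun r x => by
                    change D ((r : K) * x) = (r : K) * D x
                    rw [D.leibniz, h _ r.2, smul_zero, add_zero, smul_eq_mul] }
    fun a b => D.leibniz a b

theorem lft_apply (L : IntermediateField ℂ K) (D : Derivation ℂ K K) (h : ∀ f ∈ L, D f = 0)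
    (f : K) : lft L D h f = D f := rfl

/-- vertical vector fields are constant on the subfield -/
theorem Frame.vert (F : Frame t u Dt Du) {L : IntermediateField ℂ K} (hL : ∀ f ∈ L, Hz Du f)
    {G : Derivation ℂ K K} (hG : ∀ j, G (t j) = 0) : ∀ f ∈ L, G f = 0 := by
  intro f hf
  rw [F.eq G f]
  simp only [hG, zero_mul, Finset.sum_const_zero, zero_add]
  exact Finset.sum_eq_zero fun l _ => by rw [hL f hf l, mul_zero]

end Pool.Agent.TH585.SV
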