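import Pool.Agent.TH585.SV.Fib7

/-!
Pairs with forms along the fibres.
-/

set_option autoImplicit false

open FF Module Pool.Agent.W603.LV Pool.Agent.W602.GT Pool.Agent.W602.Cov Pool.Agent.W602.Cov.G
open Pool.Agent.W168.CG.PGR Pool.Agent.TH152.AC Pool.Agent.TH152.HY Pool.Agent.TH766.MC

namespace Pool.Agent.TH585.SV

variable {d e κ lam : ℕ} {K : Type} [Field K] [Algebra ℂ K] {t : Fin d → K} {u : Fin e → K}
  {Dt : Fin d → Derivation ℂ K K} {Du : Fin e → Derivation ℂ K K}

/-- lower bounds of orders by real numbers -/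
def GeR (P : Place ℂ K) (r : ℝ) (z : K) : Prop := z = 0 ∨ r ≤ (P.ord z : ℝ)

theorem GeR.mul {P : Place ℂ K} {r r' : ℝ} {z z' : K} (h : GeR P r z) (h' : GeR P r' z') :
    GeR P (r + r') (z * z') := by
  rcases h with h | h
  · left
    rw [h, zero_mul]
  rcases h' with h' | h'
  · left
    rw [h', mul_zero]
  by_cases hz : z = 0
  · left
    rw [hz, zero_mul]
  by_cases hz' : z' = 0
  · left
    rw [hz', mul_zero]
  right
  rw [P.ord_mul hz hz']
  push_cast
  linarith

theorem GeR.pow {P : Place ℂ K} {r : ℝ} {z : K} (h : GeR P r z) (n : ℕ) :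
    GeR P (n * r) (z ^ n) := by
  induction n with
  | zero =>
    right
    rw [pow_zero, P.ord_one]
    simp
  | succ n ih =>
    have h1 := ih.mul h
    rw [← pow_succ] at h1
    have e1 : ((n + 1 : ℕ) : ℝ) * r = n * r + r := by
      push_cast
      ring
    rw [e1]
    exact h1

theorem GeR.neg {P : Place ℂ K} {r : ℝ} {z : K} (h : GeR P r z) : GeR P r (-z) := by
  rcases h with h | h
  · left
    rw [h, neg_zero]
  · by_cases hz : z = 0
    · left
      rw [hz, neg_zero]
    · right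
      rwa [P.ord_neg]

theorem GeR.mono {P : Place ℂ K} {r r' : ℝ} {z : K} (h : GeR P r z) (hr : r' ≤ r) :
    GeR P r' z := by
  rcases h with h | h
  · exact Or.inl h
  · exact Or.inr (hr.trans h)

/-- the pluricanonical form -/
noncomputable def pf (t : Fin d → K) (u : Fin e → K) (M m : ℕ) (g : K)
    (D : Fin (d + e) → Derivation ℂ K K) : K := g * (big t u D).det ^ (M * m)

theorem pf_pluri (t : Fin d → K) (u : Fin e → K) (M m : ℕ) (g : K) :
    IsPluri (M * m) (pf t u M m g) := by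
  intro A D
  unfold pf
  rw [big_change, mul_pow]
  ring

/-- **Pairs with forms along the fibres.** -/
theorem Frame.pairs (F : Frame t u Dt Du) {L : IntermediateField ℂ K}
    (hL : ∀ f ∈ L, Hz Du f) (htL : ∀ j, t j ∈ L) {X : Set (Place ℂ K)} {δ₁ δ₂ δ : Place ℂ K → ℝ}
    (hδ : ∀ P ∈ X, δ₁ P + δ₂ P ≤ δ P) {m : ℕ} (hm : 0 < m)
    {θ : Fin (lam + 1) → (Fin e → Derivation L K K) → K} (hθ : ∀ b, IsPluri m (θ b))
    (hreg : ∀ P ∈ X, Divisorial (d + e) P → ∀ G : Fin e → Derivation L K K,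
      (∀ i f, P.Reg f → P.Reg (G i f)) → ∀ b, θ b G = 0 ∨ -(m * δ₂ P) ≤ (P.ord (θ b G) : ℝ))
    (hne : ∃ G, θ 0 G ≠ 0 ∧ AlgebraicIndependent L (fun i : Fin lam => θ i.succ G / θ 0 G))
    {M : ℕ} (hM : 0 < M) {f : K} (hf : f ≠ 0) {w : Fin (κ + 1) → K} (hw0 : w 0 = 1)
    (hw : AlgebraicIndependent ℂ (fun i : Fin κ => w i.succ)) (hwL : ∀ j, w j ∈ L)
    (hest : ∀ P ∈ X, Divisorial (d + e) P → ∀ E : Fin d → Derivation ℂ K K,
      (∀ i, DerReg P (E i)) → ∀ a, ∃ c' : ℤ,
        Ge P c' ((mtx t E).det ^ M * (f * w a)) ∧ -(M * δ₁ P) ≤ (c' : ℝ)) :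
    ∃ ω : Fin (κ + lam + 1) → (Fin (d + e) → Derivation ℂ K K) → K,
      (∀ j, PairSec (d + e) X δ (M * m) (ω j)) ∧
      ∃ D, ω 0 D ≠ 0 ∧
        AlgebraicIndependent ℂ (fun i : Fin (κ + lam) => ω i.succ D / ω 0 D) := by
  classical
  -- the vertical frame
  obtain ⟨Dv, hDv⟩ : ∃ Dv : Fin e → Derivation L K K, ∀ l f, Dv l f = Du l f :=
    ⟨fun l => lft L (Du l) (fun f hf => hL f hf l), fun _ _ => rfl⟩
  have hall : ∀ G : Fin e → Derivation L K K, ∀ b,
      θ b G = (Matrix.of fun i l => G i (u l) : Matrix (Fin e) (Fin e) K).det ^ m * θ b Dv := by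
    intro G b
    have h1 : G = fun i => ∑ l, (Matrix.of fun i l => G i (u l) : Matrix (Fin e) (Fin e) K) i l •
        Dv l := by
      funext i
      ext f
      have h2 := F.eq ((G i).restrictScalars ℂ) f
      change G i f = ∑ j, G i (t j) * Dt j f + ∑ l, G i (u l) * Du l f at h2
      have h3 : ∀ j, G i (t j) = 0 := by
        intro j
        have h4 : t j = algebraMap L K ⟨t j, htL j⟩ := rfl
        rw [h4]
        exact (G i).map_algebraMap _
      have h5 : (∑ l, (Matrix.of fun i l => G i (u l) : Matrix (Fin e) (Fin e) K) i l • Dv l) f =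
          ∑ l, G i (u l) * Du l f := by
        rw [← Derivation.coeFnAddMonoidHom_apply, map_sum, Finset.sum_apply]
        refine Finset.sum_congr rfl fun l _ => ?_
        change G i (u l) * Dv l f = _
        rw [hDv]
      rw [h5, h2]
      simp only [h3, zero_mul, Finset.sum_const_zero, zero_add]
    conv_lhs => rw [h1]
    exact hθ b _ _
  obtain ⟨G0, hG0, hind⟩ := hne
  have hdet0 : (Matrix.of fun i l => G0 i (u l) : Matrix (Fin e) (Fin e) K).det ^ m ≠ 0 := by
    intro h0
    apply hG0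
    rw [hall, h0, zero_mul]
  have hθ0 : θ 0 Dv ≠ 0 := by
    intro h0
    apply hG0
    rw [hall, h0, mul_zero]
  have hind' : AlgebraicIndependent L (fun i : Fin lam => θ i.succ Dv / θ 0 Dv) := by
    have e1 : (fun i : Fin lam => θ i.succ G0 / θ 0 G0) =
        fun i : Fin lam => θ i.succ Dv / θ 0 Dv := by
      funext i
      rw [hall G0 i.succ, hall G0 0, mul_div_mul_left _ _ hdet0]
    rwa [e1] at hind
  -- the sections
  obtain ⟨g, hg⟩ : ∃ g : Fin (κ + 1) → Fin (lam + 1) → K, ∀ a b, g a b =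
      f ^ m * w a * (θ 0 Dv ^ (M - 1) * θ b Dv) := ⟨_, fun _ _ => rfl⟩
  have hsec : ∀ a b, PairSec (d + e) X δ (M * m) (pf t u M m (g a b)) := by
    intro a b
    refine ⟨pf_pluri t u M m _, fun P hPX hPd D hD => ?_⟩
    by_cases h0 : (big t u D).det = 0
    · left
      unfold pf
      rw [h0, zero_pow (Nat.mul_pos hM hm).ne', mul_zero]
    obtain ⟨E, G, hE, hG, hGt, hdet⟩ := F.split hD h0
    have hGL : ∀ i, ∀ f ∈ L, G i f = 0 := fun i => F.vert hL (hGt i)
    obtain ⟨Gv, hGv⟩ : ∃ Gv : Fin e → Derivation L K K, ∀ l f, Gv l f = G l f :=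
      ⟨fun l => lft L (G l) (hGL l), fun _ _ => rfl⟩
    have h1 : ∀ b, GeR P (-(m * δ₂ P)) ((mtx u G).det ^ m * θ b Dv) := by
      intro b
      have h2 := hreg P hPX hPd Gv (fun i f hf => by rw [hGv]; exact hG i f hf) b
      have h3 : θ b Gv = (mtx u G).det ^ m * θ b Dv := by
        rw [hall]
        congr 3
        ext i l
        exact hGv i (u l)
      rw [h3] at h2
      exact h2
    have h2 : ∀ a, GeR P (-(M * δ₁ P)) ((mtx t E).det ^ M * (f * w a)) := by
      intro a
      obtain ⟨c', h3, h4⟩ := hest P hPX hPd E hE a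
      rcases h3 with h3 | h3
      · exact Or.inl h3
      · right
        have : (c' : ℝ) ≤ P.ord ((mtx t E).det ^ M * (f * w a)) := by exact_mod_cast h3
        linarith
    have h3 := (((h2 0).pow (m - 1)).mul (h2 a)).mul (((h1 0).pow (M - 1)).mul (h1 b))
    rw [hw0, mul_one] at h3
    have e1 : ((mtx t E).det ^ M * f) ^ (m - 1) * ((mtx t E).det ^ M * (f * w a)) *
        (((mtx u G).det ^ m * θ 0 Dv) ^ (M - 1) * ((mtx u G).det ^ m * θ b Dv)) =
        g a b * ((mtx t E).det * (mtx u G).det) ^ (M * m) := by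
      rw [hg]
      obtain ⟨m', rfl⟩ := Nat.exists_eq_succ_of_ne_zero hm.ne'
      obtain ⟨M', rfl⟩ := Nat.exists_eq_succ_of_ne_zero hM.ne'
      simp only [Nat.succ_eq_add_one, Nat.add_sub_cancel]
      have e2 : (mtx t E).det ^ ((M' + 1) * (m' + 1)) =
          ((mtx t E).det ^ (M' + 1)) ^ m' * (mtx t E).det ^ (M' + 1) := by
        rw [← pow_mul, ← pow_add]
        congr 1
      have e3 : (mtx u G).det ^ ((M' + 1) * (m' + 1)) =
          ((mtx u G).det ^ (m' + 1)) ^ M' * (mtx u G).det ^ (m' + 1) := by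
        rw [← pow_mul, ← pow_add]
        congr 1
        ring
      rw [mul_pow ((mtx t E).det), e2, e3, mul_pow, mul_pow, pow_succ f]
      ring
    rw [e1] at h3
    have h4 : GeR P (-((M * m : ℕ) * δ P)) (g a b * ((mtx t E).det * (mtx u G).det) ^ (M * m)) := by
      refine h3.mono ?_
      have hM1 : ((M - 1 : ℕ) : ℝ) = M - 1 := by
        rw [Nat.cast_sub hM]
        simp
      have hm1 : ((m - 1 : ℕ) : ℝ) = m - 1 := by
        rw [Nat.cast_sub hm]
        simp
      rw [hM1, hm1]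
      have h5 := hδ P hPX
      have h6 : (0 : ℝ) ≤ M * m := by positivity
      have h7 := mul_le_mul_of_nonneg_left h5 h6
      push_cast
      nlinarith
    change GeR P (-((M * m : ℕ) * δ P)) (pf t u M m (g a b) D)
    unfold pf
    rcases hdet with h5 | h5
    · rw [h5]
      exact h4
    · rw [h5]
      rcases Nat.even_or_odd (M * m) with h6 | h6
      · rw [h6.neg_pow]
        exact h4
      · rw [h6.neg_pow, mul_neg]
        exact h4.neg
  have hg00 : g 0 0 ≠ 0 := by
    rw [hg, hw0]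
    exact mul_ne_zero (mul_ne_zero (pow_ne_zero _ hf) one_ne_zero)
      (mul_ne_zero (pow_ne_zero _ hθ0) hθ0)
  obtain ⟨D0, hD0⟩ : ∃ D0 : Fin (d + e) → Derivation ℂ K K, (big t u D0).det = 1 :=
    ⟨_, F.big_frame⟩
  have hval : ∀ z : K, pf t u M m z D0 = z := by
    intro z
    unfold pf
    rw [hD0, one_pow, mul_one]
  refine ⟨Fin.cons (pf t u M m (g 0 0)) fun i => Sum.elim (fun i => pf t u M m (g i.succ 0))
    (fun i => pf t u M m (g 0 i.succ)) (finSumFinEquiv.symm i), fun j => ?_, D0, ?_, ?_⟩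
  · refine Fin.cases ?_ (fun i => ?_) j
    · exact hsec 0 0
    · rw [Fin.cons_succ]
      rcases finSumFinEquiv.symm i with i | i
      · exact hsec _ _
      · exact hsec _ _
  · rw [Fin.cons_zero, hval]
    exact hg00
  · have hx : AlgebraicIndependent ℂ (fun i : Fin κ => (⟨w i.succ, hwL i.succ⟩ : L)) :=
      AlgebraicIndependent.of_comp L.val hw
    have h1 := hx.sumElim_comp hind'
    have h2 := h1.comp (fun i : Fin (κ + lam) => (finSumFinEquiv.symm i).swap)
      (Sum.swap_leftInverse.injective.comp finSumFinEquiv.symm.injective)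
    convert h2 using 1
    funext i
    rw [Fin.cons_succ, Fin.cons_zero, hval, Function.comp_apply]
    rcases finSumFinEquiv.symm i with i | i
    · change pf t u M m (g i.succ 0) D0 / g 0 0 = w i.succ
      rw [hval, hg, hg, hw0]
      have := pow_ne_zero m hf
      have := pow_ne_zero (M - 1) hθ0
      field_simp
    · change pf t u M m (g 0 i.succ) D0 / g 0 0 = θ i.succ Dv / θ 0 Dv
      rw [hval, hg, hg, hw0]
      have := pow_ne_zero m hf
      have := pow_ne_zero (M - 1) hθ0
      field_simp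

end Pool.Agent.TH585.SV
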