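import Pool.Agent.TH585.SV.Fib8

/-!
The theorems for linear systems with forms along the fibres.
-/

set_option autoImplicit false

open FF Module Pool.Agent.W603.LV Pool.Agent.W602.GT Pool.Agent.W602.Cov Pool.Agent.W602.Cov.G
open Pool.Agent.W168.CG.PGR Pool.Agent.TH152.AC Pool.Agent.TH152.HY Pool.Agent.TH766.MC

namespace Pool.Agent.TH585.SV

variable {d e k n q c lam : ℕ} {K : Type} [Field K] [Algebra ℂ K]

/-- sections along the fibres -/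
def FibSec (N m : ℕ) {e : ℕ} (X : Set (Place ℂ K)) (δ : Place ℂ K → ℝ) (L : IntermediateField ℂ K)
    (θ : (Fin e → Derivation L K K) → K) : Prop :=
  IsPluri m θ ∧ ∀ P ∈ X, Divisorial N P → ∀ G : Fin e → Derivation L K K,
    (∀ i f, P.Reg f → P.Reg (G i f)) → θ G = 0 ∨ -(m * δ P) ≤ (P.ord (θ G) : ℝ)

/-- **Linear systems with forms along the fibres.** -/
theorem lin_fib (hd : 1 ≤ d) (hdk : d + k = n) (hK : Algebra.trdeg ℂ K = (d + e : ℕ))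
    {V : Submodule ℂ K} (hL : Algebra.trdeg ℂ (rf V) = d)
    {φ : Fin q → K} (hφ0 : ∀ i, φ i ≠ 0) (hφ : Submodule.span ℂ (Set.range φ) = V)
    {γ : Fin q → Fin c} (hγ : Dcp n V φ γ) (hc : ∀ γ' : Fin q → Fin (c + 1), ¬ Dcp n V φ γ')
    {R : ℕ} (hR : R + c = n + 3 ∨
      (c = 1 ∧ (∃ τ : Fin (n + 3) → Fin q, ∀ i j, i ≠ j → ∀ t : ℂ, φ (τ i) ≠ t • φ (τ j)) ∧
        R = n + 1))
    (X : Set (Place ℂ K)) (δ₁ δ₂ δ : Place ℂ K → ℝ) (hδ₁ : ∀ P ∈ X, 0 ≤ δ₁ P)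
    (hδ : ∀ P ∈ X, δ₁ P + δ₂ P ≤ δ P) {s : ℝ}
    (hs : (R : ℝ) * ((k + 1) * (k + 2)) ≤ 2 * s)
    (h : ∀ P ∈ X, Divisorial (d + e) P → ∀ a : ℤ, (∀ f ∈ V, f = 0 ∨ a ≤ P.ord f) →
      (∃ f ∈ V, f ≠ 0 ∧ P.ord f = a) → (∃ i, P.ord (φ i) ≠ a) →
      ∃ i i', γ i' = γ i ∧ s * (1 - δ₁ P) ≤ ((P.ord (φ i) - P.ord (φ i') : ℤ) : ℝ))
    {m : ℕ} (hm : 0 < m) {θ : Fin (lam + 1) → (Fin e → Derivation (rf V) K K) → K}
    (hθ : ∀ b, FibSec (d + e) m X δ₂ (rf V) (θ b))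
    (hne : ∃ G, θ 0 G ≠ 0 ∧
      AlgebraicIndependent (rf V) (fun i : Fin lam => θ i.succ G / θ 0 G)) :
    (∃ N : ℕ, 0 < N ∧ ∃ ω : Fin (lam + 1) → (Fin (d + e) → Derivation ℂ K K) → K,
        (∀ j, PairSec (d + e) X δ N (ω j)) ∧
        ∃ D, ω 0 D ≠ 0 ∧ AlgebraicIndependent ℂ (fun i : Fin lam => ω i.succ D / ω 0 D)) ∧
    ∀ κ : ℕ, κ + c = d + 1 → (R : ℝ) * ((k + 1) * (k + 2)) < 2 * s →
      ∃ N : ℕ, 0 < N ∧ ∃ ω : Fin (κ + lam + 1) → (Fin (d + e) → Derivation ℂ K K) → K,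
        (∀ j, PairSec (d + e) X δ N (ω j)) ∧
        ∃ D, ω 0 D ≠ 0 ∧
          AlgebraicIndependent ℂ (fun i : Fin (κ + lam) => ω i.succ D / ω 0 D) := by
  obtain ⟨y, ℓ, hliy, hℓ, hℓ0, hcomp, hspl, hspan, hB, hmem, hfm⟩ := lin_data2 hφ0 hφ hγ hc hR
  have hyV : ∀ j, y j ∈ V := fun j => by
    have := hmem (LinearMap.proj j)
    rwa [lf_proj] at this
  obtain ⟨x, σ, u, Dt, Du, hli, hσ, F, hx, hxy, hLHz, xL, hxL, hbas⟩ :=
    exists_frame_lin hliy hyV hfm hL hK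
  have hh := lin_high2 (N := d + e) (X := X) (δ := δ₁) (s := s) hφ0 hℓ hmem hfm
    (hliy.ne_zero 0) hxy h
  have htL : ∀ j : Fin d, x (σ j.succ) ∈ rf V := fun j => by
    rw [← hxL]
    exact Subtype.coe_prop _
  constructor
  · obtain ⟨M, hM, f, hf, hest⟩ := F.est (by omega) hℓ0 hcomp hspl hspan hB hli hdk σ hσ hx X
      δ₁ hδ₁ hs hh
    obtain ⟨ω, h1, D, h2, h3⟩ := F.pairs (κ := 0) (w := fun _ => 1) hLHz htL hδ hm
      (fun b => (hθ b).1) (fun P hPX hPd G hG b => (hθ b).2 P hPX hPd G hG) hne hM hf rfl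
      (by
        rw [algebraicIndependent_empty_type_iff]
        exact (algebraMap ℂ K).injective) (fun _ => one_mem _)
      (fun P hPX hPd E hE _ => by
        obtain ⟨c', h3, h4⟩ := hest P hPX hPd E hE
        exact ⟨c', by rwa [mul_one], h4⟩)
    have e0 : 0 + lam + 1 = lam + 1 := by omega
    refine ⟨M * m, Nat.mul_pos hM hm, fun j => ω (Fin.cast e0.symm j), fun j => h1 _, D, h2, ?_⟩
    have hl : lam = 0 + lam := by omega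
    have h4 := h3.comp (Fin.cast hl) (Fin.cast_injective hl)
    exact h4
  · intro κ hκ hs'
    obtain ⟨M, hM, f, hf, w, hw0, hw, hwL, hest⟩ := F.est_kod (by omega) hℓ0 hcomp hspl hspan hB
      hli hdk σ hσ hx hxL hbas X δ₁ hδ₁ hs' hh hκ
    obtain ⟨ω, h1, D, h2, h3⟩ := F.pairs (κ := κ) hLHz htL hδ hm
      (fun b => (hθ b).1) (fun P hPX hPd G hG b => (hθ b).2 P hPX hPd G hG) hne hM hf hw0
      hw hwL hest
    exact ⟨M * m, Nat.mul_pos hM hm, ω, h1, D, h2, h3⟩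

end Pool.Agent.TH585.SV
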