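import Pool.Agent.TH585.SV.Ell2
import Mathlib.RingTheory.Polynomial.Resultant.Basic

/-!
The discriminant form of a hyperelliptic curve is regular along the fibres.
-/

set_option autoImplicit false

open FF Module Pool.Agent.W603.LV Pool.Agent.W602.GT Pool.Agent.W602.Cov Pool.Agent.W602.Cov.G
open Pool.Agent.W168.CG.PGR Pool.Agent.TH152.AC Pool.Agent.TH152.HY Pool.Agent.TH766.MC
open Polynomial

namespace Pool.Agent.TH585.SV

variable {K : Type} [Field K] [Algebra ℂ K]

/-- the valuation ring -/
def vring (P : Place ℂ K) : Subring K where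
  carrier := {z | Ge P 0 z}
  mul_mem' := fun {a b} ha hb => by
    have := Ge.mul (show Ge P 0 a from ha) (show Ge P 0 b from hb)
    rwa [add_zero] at this
  one_mem' := by
    have := Ge.const (P := P) (1 : ℂ)
    rwa [map_one] at this
  add_mem' := fun {a b} ha hb => Ge.add (show Ge P 0 a from ha) (show Ge P 0 b from hb)
  zero_mem' := Or.inl rfl
  neg_mem' := fun {a} ha => by
    rcases ha with ha | ha
    · left
      rw [ha, neg_zero]
    · right
      rwa [P.ord_neg]

theorem mem_vring {P : Place ℂ K} {z : K} : z ∈ vring P ↔ Ge P 0 z := Iff.rfl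

/-- derivatives of the values of polynomials with constant coefficients -/
theorem der_eval {G : Derivation ℂ K K} {f : K[X]} (hf : ∀ i, G (f.coeff i) = 0) (x : K) :
    G (f.eval x) = f.derivative.eval x * G x := by
  rw [derivative_eval, eval_eq_sum, sum_def, sum_def, map_sum, Finset.sum_mul]
  refine Finset.sum_congr rfl fun i _ => ?_
  rw [G.leibniz, hf, G.leibniz_pow]
  simp only [nsmul_eq_mul, smul_eq_mul, mul_zero, add_zero]
  ring

theorem hasse_const {G : Derivation ℂ K K} {f : K[X]} (hf : ∀ i, G (f.coeff i) = 0) (k i : ℕ) :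
    G ((hasseDeriv k f).coeff i) = 0 := by
  rw [hasseDeriv_coeff, G.leibniz, hf]
  have : G ((((i + k).choose k : ℕ) : K)) = 0 := by
    have h1 : ((((i + k).choose k : ℕ) : K)) = algebraMap ℂ K ((i + k).choose k : ℕ) := by
      rw [map_natCast]
    rw [h1, G.map_algebraMap]
  rw [this]
  simp

theorem der_hasse (f : K[X]) (k : ℕ) :
    derivative (hasseDeriv k f) = (k + 1 : K[X]) * hasseDeriv (k + 1) f := by
  have h := LinearMap.congr_fun (hasseDeriv_comp (R := K) 1 k) f
  rw [LinearMap.comp_apply, hasseDeriv_one, LinearMap.smul_apply, Nat.add_comm 1 k,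
    Nat.choose_one_right, nsmul_eq_mul] at h
  rw [h]
  push_cast
  rfl

/-- the Taylor coefficients at a place with logarithmic derivations -/
theorem taylor_ge {P : Place ℂ K} {G : Derivation ℂ K K}
    (hlog : ∀ f : K, f ≠ 0 → Ge P (P.ord f) (G f)) {f : K[X]} (hf : ∀ i, G (f.coeff i) = 0) {x : K}
    (hGx : G x ≠ 0) (k : ℕ) :
    Ge P (P.ord (f.eval x) - k * P.ord (G x)) ((hasseDeriv k f).eval x) := by
  have : CharZero K := charZero_of_injective_algebraMap (algebraMap ℂ K).injective
  induction k with
  | zero =>
    rw [hasseDeriv_zero']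
    simpa using Pool.Agent.W602.GT.ge_ord P (f.eval x)
  | succ k ih =>
    by_cases h0 : (hasseDeriv k f).eval x = 0
    · left
      have h1 := der_eval (hasse_const hf k) x
      rw [h0, map_zero, der_hasse, eval_mul] at h1
      rcases mul_eq_zero.1 h1.symm with h2 | h2
      · rcases mul_eq_zero.1 h2 with h3 | h3
        · exfalso
          have : ((k : K) + 1) = 0 := by
            simpa using h3
          exact Nat.cast_add_one_ne_zero k this
        · exact h3
      · exact absurd h2 hGx
    · have h1 := hlog _ h0
      rw [der_eval (hasse_const hf k) x, der_hasse, eval_mul] at h1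
      have h2 : Ge P (P.ord (f.eval x) - k * P.ord (G x))
          (eval x (k + 1 : K[X]) * eval x (hasseDeriv (k + 1) f) * G x) := by
        refine h1.mono ?_
        rcases ih with ih | ih
        · exact absurd ih h0
        · exact ih
      have h3 := ge_div hGx h2
      rw [mul_div_cancel_right₀ _ hGx] at h3
      have h4 := (Ge.const (P := P) (((k : ℂ) + 1)⁻¹)).mul h3
      have h5 : algebraMap ℂ K (((k : ℂ) + 1)⁻¹) *
          (eval x (k + 1 : K[X]) * eval x (hasseDeriv (k + 1) f)) =
          eval x (hasseDeriv (k + 1) f) := by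
        have h6 : eval x (k + 1 : K[X]) = algebraMap ℂ K ((k : ℂ) + 1) := by
          rw [map_add, map_one, map_natCast]
          simp
        rw [h6, ← mul_assoc, ← map_mul, inv_mul_cancel₀ (Nat.cast_add_one_ne_zero k), map_one,
          one_mul]
      rw [h5] at h4
      refine h4.mono ?_
      push_cast
      ring_nf
      rfl

theorem der_scale (p : K[X]) (s : K) (hp : (derivative p).natDegree = p.natDegree - 1) :
    derivative (p.scaleRoots s) = (derivative p).scaleRoots s := by
  ext i
  rw [coeff_derivative, coeff_scaleRoots, coeff_scaleRoots, coeff_derivative, hp]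
  have : p.natDegree - (i + 1) = p.natDegree - 1 - i := by omega
  rw [this]
  ring

theorem der_taylor (f : K[X]) (x : K) : derivative (taylor x f) = taylor x (derivative f) := by
  rw [taylor_apply, taylor_apply, derivative_comp]
  simp

/-- the resultant of the normalised Taylor polynomial -/
theorem res_scaled (f : K[X]) (x ρ c : K) :
    resultant (C c * (taylor x f).scaleRoots ρ) (derivative (C c * (taylor x f).scaleRoots ρ))
      f.natDegree (f.natDegree - 1) =
    c ^ (f.natDegree - 1) * (c ^ f.natDegree * (ρ ^ (f.natDegree * (f.natDegree - 1)) *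
      resultant f (derivative f) f.natDegree (f.natDegree - 1))) := by
  have : CharZero K := charZero_of_injective_algebraMap (algebraMap ℂ K).injective
  have h1 : (derivative (taylor x f)).natDegree = (taylor x f).natDegree - 1 := natDegree_derivative _
  have h2 : (derivative f).natDegree = f.natDegree - 1 := natDegree_derivative _
  rw [derivative_mul, derivative_C, zero_mul, zero_add, der_scale _ _ h1, resultant_C_mul_left,
    resultant_C_mul_right, der_taylor]
  have h3 := resultant_scaleRoots (taylor x f) (taylor x (derivative f)) ρ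
  rw [natDegree_scaleRoots, natDegree_scaleRoots, natDegree_taylor, natDegree_taylor, h2] at h3
  rw [h3]
  have h4 := resultant_taylor f (derivative f) x
  rw [natDegree_taylor, natDegree_taylor, h2] at h4
  rw [h4]

/-- discriminants of integral polynomials are integral -/
theorem discr_ge {P : Place ℂ K} {g : K[X]} (hg : ∀ i, Ge P 0 (g.coeff i)) : Ge P 0 g.discr := by
  have hn : ∀ m : ℕ, Ge P 0 ((m : ℕ) : K) := fun m => by
    have := Ge.intCast (P := P) (m : ℤ)
    simpa using this
  have hd : ∀ i, Ge P 0 (g.derivative.coeff i) := by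
    intro i
    rw [coeff_derivative]
    have := (hg (i + 1)).mul (hn (i + 1))
    simpa using this
  have h1 : ∀ i j, Ge P 0 (g.sylvesterDeriv i j) := by
    intro i j
    unfold sylvesterDeriv
    split_ifs with h
    · exact Or.inl rfl
    · rw [Matrix.updateRow_apply]
      split_ifs
      · simpa using hn 1
      · exact hn _
      · exact Or.inl rfl
      · unfold sylvester
        rw [Matrix.of_apply]
        induction j using Fin.addCases with
        | left j =>
          rw [Fin.addCases_left]
          split_ifs
          · exact hg _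
          · exact Or.inl rfl
        | right j =>
          rw [Fin.addCases_right]
          split_ifs
          · exact hd _
          · exact Or.inl rfl
  have h2 := ge_det' P g.sylvesterDeriv 0 (fun _ _ => 0) h1 (fun _ => by simp)
  unfold discr
  have h3 := h2.mul (Ge.intCast (P := P) ((-1) ^ (g.natDegree * (g.natDegree - 1) / 2)))
  simpa using h3

/-- **The discriminant form at the places with logarithmic derivations.** -/
theorem hyp_log {P : Place ℂ K} {G : Derivation ℂ K K}
    (hlog : ∀ f : K, f ≠ 0 → Ge P (P.ord f) (G f)) {f : K[X]} (hf : ∀ i, G (f.coeff i) = 0)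
    (hm : f.Monic) (hn : 0 < f.natDegree) {x : K} (hu : f.eval x ≠ 0) (hGx : G x ≠ 0) :
    Ge P 0 (resultant f (derivative f) f.natDegree (f.natDegree - 1) *
      G x ^ (f.natDegree * (f.natDegree - 1)) / f.eval x ^ (2 * (f.natDegree - 1))) ∧
    Ge P 0 (G x ^ f.natDegree / f.eval x) := by
  have : CharZero K := charZero_of_injective_algebraMap (algebraMap ℂ K).injective
  obtain ⟨g, hg⟩ : ∃ g, g = C (G x ^ f.natDegree / f.eval x) * (taylor x f).scaleRoots (G x)⁻¹ :=
    ⟨_, rfl⟩
  have hρ : G x ^ f.natDegree / f.eval x ≠ 0 := div_ne_zero (pow_ne_zero _ hGx) hu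
  have hcoef : ∀ i, i ≤ f.natDegree →
      g.coeff i = (hasseDeriv i f).eval x * (G x ^ i / f.eval x) := by
    intro i hi
    rw [hg, coeff_C_mul, coeff_scaleRoots, taylor_coeff, natDegree_taylor]
    obtain ⟨j, hj⟩ := Nat.exists_eq_add_of_le hi
    rw [hj, Nat.add_sub_cancel_left, pow_add, inv_pow]
    field_simp
  have hgd : g.natDegree = f.natDegree := by
    rw [hg, natDegree_C_mul hρ, natDegree_scaleRoots, natDegree_taylor]
  have hgl : g.leadingCoeff = G x ^ f.natDegree / f.eval x := by
    rw [hg, leadingCoeff_mul, leadingCoeff_C, leadingCoeff_scaleRoots, leadingCoeff_taylor,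
      hm.leadingCoeff, mul_one]
  have hge : ∀ i, Ge P 0 (g.coeff i) := by
    intro i
    rcases le_or_gt i f.natDegree with hi | hi
    · rw [hcoef i hi]
      have h1 := (taylor_ge hlog hf hGx i).mul
        (ge_div hu ((Pool.Agent.W602.GT.ge_ord P (G x)).pow i))
      exact h1.mono (by ring_nf; rfl)
    · left
      exact coeff_eq_zero_of_natDegree_lt (by omega)
  refine ⟨?_, ?_⟩
  · have h1 := resultant_deriv (f := g) (by
      rw [← natDegree_pos_iff_degree_pos, hgd]
      exact hn)
    rw [hgd, hgl] at h1
    have h2 := res_scaled f x (G x)⁻¹ (G x ^ f.natDegree / f.eval x)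
    rw [← hg, h1] at h2
    have h3 := discr_ge hge
    have h4 := h3.mul (Ge.intCast (P := P) ((-1) ^ (f.natDegree * (f.natDegree - 1) / 2)))
    have h5 : g.discr * (((-1) ^ (f.natDegree * (f.natDegree - 1) / 2) : ℤ) : K) =
        resultant f (derivative f) f.natDegree (f.natDegree - 1) *
      G x ^ (f.natDegree * (f.natDegree - 1)) / f.eval x ^ (2 * (f.natDegree - 1)) := by
      have h6 : (G x ^ f.natDegree / f.eval x) *
          (g.discr * (((-1) ^ (f.natDegree * (f.natDegree - 1) / 2) : ℤ) : K)) =
          (G x ^ f.natDegree / f.eval x) *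
          (resultant f (derivative f) f.natDegree (f.natDegree - 1) *
      G x ^ (f.natDegree * (f.natDegree - 1)) / f.eval x ^ (2 * (f.natDegree - 1))) := by
        push_cast
        rw [show (G x ^ f.natDegree / f.eval x) *
          (g.discr * (-1) ^ (f.natDegree * (f.natDegree - 1) / 2)) =
          (-1) ^ (f.natDegree * (f.natDegree - 1) / 2) * (G x ^ f.natDegree / f.eval x) *
            g.discr by ring, h2]
        obtain ⟨m, hm'⟩ := Nat.exists_eq_succ_of_ne_zero hn.ne'
        rw [hm']
        simp only [Nat.succ_eq_add_one, Nat.add_sub_cancel]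
        rw [inv_pow, div_pow, div_pow]
        field_simp
        ring
      exact mul_left_cancel₀ hρ h6
    rw [h5] at h4
    simpa using h4
  · rw [← hgl]
    exact hge _

/-- the constants of a derivation -/
def cring (G : Derivation ℂ K K) : Subring K where
  carrier := {z | G z = 0}
  mul_mem' := fun {a b} ha hb => by
    change G (a * b) = 0
    rw [G.leibniz, show G a = 0 from ha, show G b = 0 from hb]
    simp
  one_mem' := G.map_one_eq_zero
  add_mem' := fun {a b} ha hb => by
    change G (a + b) = 0
    rw [map_add, show G a = 0 from ha, show G b = 0 from hb, add_zero]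
  zero_mem' := map_zero G
  neg_mem' := fun {a} ha => by
    change G (-a) = 0
    rw [map_neg, show G a = 0 from ha, neg_zero]

theorem der_aeval_mem {S : Subring K} {p : S[X]} {x : K} (hx : x ∈ S) :
    (p.map S.subtype).eval x ∈ S := by
  rw [eval_map, eval₂_eq_sum_range]
  refine S.sum_mem fun i _ => S.mul_mem (Subtype.coe_prop _) (S.pow_mem hx i)

/-- a Bezout identity with constant coefficients -/
theorem bezout_const {G : Derivation ℂ K K} {f : K[X]} (hf : ∀ i, G (f.coeff i) = 0)
    (hn : 0 < f.natDegree) :
    G (resultant f (derivative f) f.natDegree (f.natDegree - 1)) = 0 ∧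
    ∃ p q : (cring G)[X], f * p.map (cring G).subtype + derivative f * q.map (cring G).subtype =
      C (resultant f (derivative f) f.natDegree (f.natDegree - 1)) := by
  have : CharZero K := charZero_of_injective_algebraMap (algebraMap ℂ K).injective
  obtain ⟨f₀, hf₀⟩ : ∃ f₀ : (cring G)[X], f₀.map (cring G).subtype = f := by
    refine (mem_lifts _).1 ((lifts_iff_coeff_lifts _).2 fun i => ?_)
    exact ⟨⟨f.coeff i, hf i⟩, rfl⟩
  have h1 : f.natDegree = f₀.natDegree := by
    rw [← hf₀]
    exact natDegree_map_eq_of_injective (Subring.subtype_injective _) _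
  have h2 : resultant f (derivative f) f.natDegree (f.natDegree - 1) =
      (cring G).subtype (resultant f₀ (derivative f₀) f.natDegree (f.natDegree - 1)) := by
    rw [← resultant_map_map, ← derivative_map, hf₀]
  refine ⟨?_, ?_⟩
  · rw [h2]
    exact Subtype.coe_prop (resultant f₀ (derivative f₀) f.natDegree (f.natDegree - 1))
  · have h3 : (derivative f₀).natDegree ≤ f.natDegree - 1 := by
      rw [h1]
      exact natDegree_derivative_le _
    obtain ⟨p, q, -, -, h4⟩ := exists_mul_add_mul_eq_C_resultant f₀ (derivative f₀) h1.ge h3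
      (Or.inl hn.ne')
    refine ⟨p, q, ?_⟩
    rw [h2, ← map_C, ← h4, Polynomial.map_add, Polynomial.map_mul, Polynomial.map_mul,
      ← derivative_map, hf₀]

/-- **The discriminant form.** -/
theorem hyp_ge {P : Place ℂ K} {G : Derivation ℂ K K} (hG : DerReg P G) {f : K[X]}
    (hf : ∀ i, G (f.coeff i) = 0) (hm : f.Monic) (hn : 3 ≤ f.natDegree)
    (hres : resultant f (derivative f) f.natDegree (f.natDegree - 1) ≠ 0) {c x y : K}
    (hc : G c = 0) (hc0 : c ≠ 0) (hxy : y ^ 2 = c * f.eval x) (hu : f.eval x ≠ 0) {n' : ℕ}
    (hn' : n' = f.natDegree + f.natDegree % 2) :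
    Ge P 0 (resultant f (derivative f) f.natDegree (f.natDegree - 1) *
      G x ^ (n' * (n' - 1)) / f.eval x ^ (2 * (n' - 1))) := by
  have : CharZero K := charZero_of_injective_algebraMap (algebraMap ℂ K).injective
  have hn4 : 4 ≤ n' := by omega
  obtain ⟨m, rfl⟩ : ∃ m, n' = m + 1 := ⟨n' - 1, by omega⟩
  simp only [Nat.add_sub_cancel]
  obtain ⟨R, hR⟩ : ∃ R, R = resultant f (derivative f) f.natDegree (f.natDegree - 1) := ⟨_, rfl⟩
  have hlogR := @hyp_log K _ _ P G
  rw [← hR] at hres ⊢
  obtain ⟨hGR, p, q, hpq⟩ := bezout_const hf (by omega : 0 < f.natDegree)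
  rw [← hR] at hGR hpq
  by_cases hGx : G x = 0
  · left
    rw [hGx, zero_pow (Nat.mul_ne_zero (by omega) (by omega)), mul_zero, zero_div]
  have hx : x ≠ 0 := by
    rintro rfl
    exact hGx (map_zero _)
  have hy : y ≠ 0 := by
    rintro rfl
    have := mul_ne_zero hc0 hu
    rw [← hxy] at this
    exact this (by norm_num)
  by_cases hcst : ∃ a, G a = 0 ∧ P.ord a ≠ 0
  · obtain ⟨a, ha, ha0⟩ := hcst
    have hlog : ∀ f : K, f ≠ 0 → Ge P (P.ord f) (G f) := by
      intro f hf
      have h1 := (Pool.Agent.W602.GT.ge_ord P f).mul (log_of_const hG ha ha0 hf)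
      rwa [mul_div_cancel₀ _ hf, add_zero] at h1
    obtain ⟨h1, h2⟩ := hyp_log hlog hf hm (by omega) hu hGx
    rw [← hR] at h1
    rcases Nat.even_or_odd f.natDegree with h3 | h3
    · have h4 : m + 1 = f.natDegree := by
        rw [hn', Nat.even_iff.1 h3, add_zero]
      have h5 : m = f.natDegree - 1 := by omega
      rw [h4, h5]
      exact h1
    · have h4 : m = f.natDegree := by
        have := Nat.odd_iff.1 h3
        omega
      have h5 := h1.mul (h2.pow 2)
      rw [h4]
      have h6 : R * G x ^ (f.natDegree * (f.natDegree - 1)) / eval x f ^ (2 * (f.natDegree - 1)) *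
          (G x ^ f.natDegree / eval x f) ^ 2 =
          R * G x ^ ((f.natDegree + 1) * f.natDegree) / eval x f ^ (2 * f.natDegree) := by
        obtain ⟨l, hl⟩ := Nat.exists_eq_succ_of_ne_zero (by omega : f.natDegree ≠ 0)
        rw [hl]
        simp only [Nat.succ_eq_add_one, Nat.add_sub_cancel]
        field_simp
        ring
      rw [h6] at h5
      simpa using h5
  · push Not at hcst
    have oR : P.ord R = 0 := hcst R hGR
    have oc : P.ord c = 0 := hcst c hc
    have hcv : ∀ a, G a = 0 → Ge P 0 a := fun a ha => Or.inr (hcst a ha).ge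
    have oy : 2 * P.ord y = P.ord (f.eval x) := by
      have h1 := congrArg P.ord hxy
      rw [P.ord_pow, P.ord_mul hc0 hu, oc, zero_add] at h1
      exact_mod_cast h1
    -- reduction to an inequality
    suffices hs : (2 * m : ℤ) * P.ord (f.eval x) ≤ ((m + 1) * m : ℤ) * P.ord (G x) by
      right
      rw [P.ord_div (mul_ne_zero hres (pow_ne_zero _ hGx)) (pow_ne_zero _ hu),
        P.ord_mul hres (pow_ne_zero _ hGx), P.ord_pow, P.ord_pow, oR]
      push_cast
      linarith
    have hm3 : (3 : ℤ) ≤ m := by omega
    suffices hs : 2 * P.ord (f.eval x) ≤ (m + 1 : ℤ) * P.ord (G x) by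
      nlinarith
    rcases lt_or_ge (P.ord x) 0 with hx1 | hx1
    · -- a pole
      have hfn : P.ord (f.eval x) = f.natDegree * P.ord x := by
        have h1 : f.eval x = (∑ i ∈ Finset.range f.natDegree, f.coeff i * x ^ i) +
            x ^ f.natDegree := by
          rw [eval_eq_sum_range, Finset.sum_range_succ]
          congr 1
          rw [coeff_natDegree, hm.leadingCoeff, one_mul]
        have h2 : Ge P ((f.natDegree - 1 : ℤ) * P.ord x)
            (∑ i ∈ Finset.range f.natDegree, f.coeff i * x ^ i) := by
          refine Ge.sum _ _ fun i hi => ?_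
          have h3 := (hcv _ (hf i)).mul ((Pool.Agent.W602.GT.ge_ord P x).pow i)
          refine h3.mono ?_
          have h4 : (i : ℤ) ≤ f.natDegree - 1 := by
            have := Finset.mem_range.1 hi
            omega
          nlinarith
        rw [h1]
        rcases h2 with h2 | h2
        · rw [h2, zero_add, P.ord_pow]
        · by_cases h3 : ∑ i ∈ Finset.range f.natDegree, f.coeff i * x ^ i = 0
          · rw [h3, zero_add, P.ord_pow]
          · rw [add_comm, (P.ord_add_eq (pow_ne_zero _ hx) h3 (by
              rw [P.ord_pow]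
              nlinarith)).2, P.ord_pow]
      have h1 : P.ord x - 1 ≤ P.ord (G x) := by
        rcases reg_ord hG hx with h1 | h1
        · exact absurd h1 hGx
        · exact h1
      rw [hfn] at oy ⊢
      have hN : (m + 1 : ℤ) = f.natDegree + f.natDegree % 2 := by
        have := congrArg (Nat.cast : ℕ → ℤ) hn'
        push_cast at this
        exact this
      have hN3 : (3 : ℤ) ≤ f.natDegree := by exact_mod_cast hn
      rcases Int.even_or_odd (f.natDegree : ℤ) with h2 | h2
      · have h3 : (f.natDegree : ℤ) % 2 = 0 := Int.even_iff.1 h2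
        rw [h3, add_zero] at hN
        rw [hN]
        nlinarith
      · have h3 : (f.natDegree : ℤ) % 2 = 1 := Int.odd_iff.1 h2
        rw [h3] at hN
        rw [hN]
        have h4 : Even (P.ord x) := by
          have h5 : Even ((f.natDegree : ℤ) * P.ord x) := ⟨P.ord y, by linarith⟩
          rcases Int.even_mul.1 h5 with h6 | h6
          · exact absurd h2 (Int.not_odd_iff_even.2 h6)
          · exact h6
        have h5 : P.ord x ≤ -2 := by
          obtain ⟨r, hr⟩ := h4
          omega
        nlinarith
    · have gx : x ∈ vring P := Or.inr hx1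
      have hpv : ∀ r : (cring G)[X], (r.map (cring G).subtype).eval x ∈ vring P := by
        intro r
        rw [eval_map, eval₂_eq_sum_range]
        exact (vring P).sum_mem fun i _ => (vring P).mul_mem (hcv _ (Subtype.coe_prop (r.coeff i)))
          ((vring P).pow_mem gx i)
      have gGx : 0 ≤ P.ord (G x) := by
        rcases hG x (Or.inr hx1) with h1 | h1
        · exact absurd h1 hGx
        · exact h1
      have gfx : ∀ r : K[X], (∀ i, G (r.coeff i) = 0) → r.eval x ∈ vring P := by
        intro r hr
        rw [eval_eq_sum_range]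
        exact (vring P).sum_mem fun i _ => (vring P).mul_mem (hcv _ (hr i)) ((vring P).pow_mem gx i)
      rcases le_or_gt (P.ord (f.eval x)) 0 with hu0 | hu0
      · nlinarith
      · have h1 := congrArg (eval x) hpq
        rw [eval_add, eval_mul, eval_mul, eval_C] at h1
        have hf'0 : (derivative f).eval x ≠ 0 := by
          intro h0
          rw [h0, zero_mul, add_zero] at h1
          have h2 : Ge P (P.ord (f.eval x)) (f.eval x * (p.map (cring G).subtype).eval x) := by
            have := (Pool.Agent.W602.GT.ge_ord P (f.eval x)).mul (mem_vring.1 (hpv p))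
            rwa [add_zero] at this
          rw [h1] at h2
          rcases h2 with h2 | h2
          · exact hres h2
          · omega
        have of' : P.ord ((derivative f).eval x) ≤ 0 := by
          by_contra hcon
          push Not at hcon
          have h2 : Ge P 1 (f.eval x * (p.map (cring G).subtype).eval x +
              (derivative f).eval x * (q.map (cring G).subtype).eval x) := by
            refine Ge.add ?_ ?_
            · have := (Pool.Agent.W602.GT.ge_ord P (f.eval x)).mul (mem_vring.1 (hpv p))
              exact this.mono (by omega)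
            · have := (Pool.Agent.W602.GT.ge_ord P ((derivative f).eval x)).mul
                (mem_vring.1 (hpv q))
              exact this.mono (by omega)
          rw [h1] at h2
          rcases h2 with h2 | h2
          · exact hres h2
          · omega
        have h2 : 2 * y * G y = c * ((derivative f).eval x * G x) := by
          have h3 := congrArg G hxy
          rw [G.leibniz, hc, der_eval hf x, G.leibniz_pow] at h3
          simp only [nsmul_eq_mul, smul_eq_mul, Nat.cast_ofNat, mul_zero, add_zero] at h3
          linear_combination h3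
        have hGy : G y ≠ 0 := by
          intro h0
          rw [h0, mul_zero] at h2
          exact mul_ne_zero hc0 (mul_ne_zero hf'0 hGx) h2.symm
        have gGy : 0 ≤ P.ord (G y) := by
          rcases hG y (Or.inr (by omega)) with h3 | h3
          · exact absurd h3 hGy
          · exact h3
        have o2 : P.ord (2 : K) = 0 := by
          have := P.ord_const (c := (2 : ℂ)) (by norm_num)
          rwa [map_ofNat] at this
        have h3 := congrArg P.ord h2
        rw [P.ord_mul (mul_ne_zero two_ne_zero hy) hGy, P.ord_mul two_ne_zero hy, o2,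
          P.ord_mul hc0 (mul_ne_zero hf'0 hGx), P.ord_mul hf'0 hGx, oc] at h3
        nlinarith

end Pool.Agent.TH585.SV
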