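import Pool.Agent.TH585.SV.Hyp

/-!
Linear systems whose fibres are covers of products of hyperelliptic curves.
-/

set_option autoImplicit false

open FF Module Pool.Agent.W603.LV Pool.Agent.W602.GT Pool.Agent.W602.Cov Pool.Agent.W602.Cov.G
open Pool.Agent.W168.CG.PGR Pool.Agent.TH152.AC Pool.Agent.TH152.HY Pool.Agent.TH766.MC
open Polynomial

namespace Pool.Agent.TH585.SV

variable {d e k n q c κ : ℕ} {K : Type} [Field K] [Algebra ℂ K]

/-- the product form of forms `E j (dx j) ^ a j` -/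
noncomputable def prodf {L : IntermediateField ℂ K} (x E : Fin e → K) (r : Fin e → ℕ) (M : ℕ)
    (G : Fin e → Derivation L K K) : K :=
  (∏ j, E j ^ r j) * (Matrix.of fun i j => G i (x j)).det ^ M

/-- the product form is regular along the fibres -/
theorem prod_fib {N M : ℕ} {L : IntermediateField ℂ K} {X : Set (Place ℂ K)} {x E : Fin e → K}
    {a r : Fin e → ℕ} (ha : ∀ j, 0 < a j) (har : ∀ j, a j * r j = M) (hE0 : ∀ j, E j ≠ 0)
    (hreg : ∀ j, ∀ P ∈ X, ∀ G : Derivation L K K, (∀ f, P.Reg f → P.Reg (G f)) →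
      Ge P 0 (E j * G (x j) ^ a j)) : FibSec N M X (fun _ => 0) L (prodf x E r M) := by
  refine ⟨fun A G => ?_, fun P hPX _ G hG => ?_⟩
  · unfold prodf
    have h1 : (Matrix.of fun i j => (fun i => ∑ l, A i l • G l) i (x j)) =
        A * Matrix.of fun i j => G i (x j) := by
      ext i j
      rw [Matrix.mul_apply, Matrix.of_apply]
      have h2 : (∑ l, A i l • G l) (x j) = ∑ l, A i l * G l (x j) := by
        rw [← Derivation.coeFnAddMonoidHom_apply, map_sum, Finset.sum_apply]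
        rfl
      exact h2
    rw [h1, Matrix.det_mul, mul_pow]
    ring
  · have h1 : ∀ i j, Ge P (-(P.ord (E j) / a j)) (G i (x j)) := by
      intro i j
      by_cases h0 : G i (x j) = 0
      · exact Or.inl h0
      · rcases hreg j P hPX (G i) (hG i) with h2 | h2
        · exact absurd h2 (mul_ne_zero (hE0 j) (pow_ne_zero _ h0))
        · right
          rw [P.ord_mul (hE0 j) (pow_ne_zero _ h0), P.ord_pow] at h2
          have h3 : (0 : ℤ) < a j := by exact_mod_cast ha j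
          have h4 : -(P.ord (G i (x j))) ≤ P.ord (E j) / a j := by
            rw [Int.le_ediv_iff_mul_le h3]
            nlinarith
          linarith
    have h2 := ge_det' P (Matrix.of fun i j => G i (x j)) (∑ j, -(P.ord (E j) / a j))
      (fun _ j => -(P.ord (E j) / a j)) (fun i j => h1 i j) (fun _ => le_rfl)
    have h3 := Ge.prod (P := P) Finset.univ (fun j => E j ^ r j) (fun j => r j * P.ord (E j))
      (fun j _ => (Pool.Agent.W602.GT.ge_ord P (E j)).pow (r j))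
    have h4 := h3.mul (h2.pow M)
    have h5 : Ge P 0 (prodf x E r M G) := by
      refine h4.mono ?_
      rw [Finset.mul_sum, ← Finset.sum_add_distrib]
      refine Finset.sum_nonneg fun j _ => ?_
      rw [← har j]
      push_cast
      have h6 : (P.ord (E j) / a j) * a j ≤ P.ord (E j) :=
        Int.ediv_mul_le _ (by have := ha j; omega)
      have h7 : (0 : ℤ) ≤ r j := by positivity
      nlinarith
    rcases h5 with h5 | h5
    · exact Or.inl h5
    · right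
      have : (0 : ℝ) ≤ (P.ord (prodf x E r M G) : ℝ) := by exact_mod_cast h5
      simpa using this

/-- the product form is not zero -/
theorem prod_ne {M : ℕ} {L : IntermediateField ℂ K} {x E : Fin e → K} {r : Fin e → ℕ}
    (hE0 : ∀ j, E j ≠ 0) (hx : IsTranscendenceBasis L x) :
    ∃ G : Fin e → Derivation L K K, prodf x E r M G ≠ 0 := by
  classical
  have : CharZero K := charZero_of_injective_algebraMap (algebraMap ℂ K).injective
  have h1 : ∀ i : Fin e, ∃ D : Derivation L K K, ∀ j, D (x j) = if i = j then 1 else 0 :=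
    fun i => exists_der (L := L) x hx _
  choose G hG using h1
  refine ⟨G, ?_⟩
  unfold prodf
  have h2 : (Matrix.of fun i j => G i (x j)) = 1 := by
    ext i j
    rw [Matrix.of_apply, hG, Matrix.one_apply]
  rw [h2, Matrix.det_one, one_pow, mul_one]
  exact Finset.prod_ne_zero_iff.2 fun j _ => pow_ne_zero _ (hE0 j)

/-- hyperelliptic and elliptic curves over the relative algebraic closure of `L` -/
def HypData (L : IntermediateField ℂ K) (f : Fin e → K[X]) (c x y : Fin e → K) : Prop :=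
  ∀ j, (∀ i, IsAlgebraic L ((f j).coeff i)) ∧ (f j).Monic ∧ (f j).Separable ∧
    3 ≤ (f j).natDegree ∧ IsAlgebraic L (c j) ∧ c j ≠ 0 ∧ y j ^ 2 = c j * (f j).eval (x j)

theorem hyp_forms {L : IntermediateField ℂ K} {f : Fin e → K[X]} {c x y : Fin e → K}
    (h : HypData L f c x y) (hx : IsTranscendenceBasis L x) (X : Set (Place ℂ K)) (N : ℕ) :
    ∃ M : ℕ, 0 < M ∧ ∃ θ : (Fin e → Derivation L K K) → K, FibSec N M X (fun _ => 0) L θ ∧
      ∃ G, θ G ≠ 0 := by
  classical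
  have : CharZero K := charZero_of_injective_algebraMap (algebraMap ℂ K).injective
  obtain ⟨R, hR⟩ : ∃ R : Fin e → K, ∀ j, R j = resultant (f j) (derivative (f j))
    (f j).natDegree ((f j).natDegree - 1) := ⟨_, fun _ => rfl⟩
  have hR0 : ∀ j, R j ≠ 0 := by
    intro j
    have h1 := resultant_ne_zero (f j) (derivative (f j)) (h j).2.2.1
    rw [natDegree_derivative] at h1
    rw [hR]
    exact h1
  have hu : ∀ j, (f j).eval (x j) ≠ 0 := by
    intro j h0
    obtain ⟨D, hD⟩ := exists_der (L := L) x hx (fun i => if j = i then 1 else 0)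
    have h1 := hD j
    rw [if_pos rfl] at h1
    have hc : ∀ i, (D.restrictScalars ℂ) ((f j).coeff i) = 0 := fun i => der_alg D ((h j).1 i)
    have h2 := der_eval hc (x j)
    rw [h0, map_zero] at h2
    have h3 : (D.restrictScalars ℂ) (x j) = 1 := h1
    rw [h3, mul_one] at h2
    obtain ⟨p, q, h4⟩ := (h j).2.2.1
    have h5 := congrArg (eval (x j)) h4
    rw [eval_add, eval_mul, eval_mul, h0, ← h2] at h5
    simp at h5
  obtain ⟨n', hn'⟩ : ∃ n' : Fin e → ℕ, ∀ j, n' j = (f j).natDegree + (f j).natDegree % 2 :=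
    ⟨_, fun _ => rfl⟩
  have hn4 : ∀ j, 4 ≤ n' j := by
    intro j
    have := (h j).2.2.2.1
    have := hn' j
    omega
  obtain ⟨a, ha⟩ : ∃ a : Fin e → ℕ, ∀ j, a j = n' j * (n' j - 1) := ⟨_, fun _ => rfl⟩
  have ha0 : ∀ j, 0 < a j := by
    intro j
    rw [ha]
    exact Nat.mul_pos (by have := hn4 j; omega) (by have := hn4 j; omega)
  obtain ⟨E, hE⟩ : ∃ E : Fin e → K, ∀ j, E j = R j / (f j).eval (x j) ^ (2 * (n' j - 1)) :=
    ⟨_, fun _ => rfl⟩
  have hE0 : ∀ j, E j ≠ 0 := fun j => by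
    rw [hE]
    exact div_ne_zero (hR0 j) (pow_ne_zero _ (hu j))
  have har : ∀ j, a j * (∏ i ∈ Finset.univ.erase j, a i) = ∏ i, a i := fun j =>
    Finset.mul_prod_erase _ _ (Finset.mem_univ j)
  refine ⟨∏ i, a i, Finset.prod_pos fun i _ => ha0 i,
    prodf x E (fun j => ∏ i ∈ Finset.univ.erase j, a i) (∏ i, a i),
    prod_fib ha0 har hE0 fun j P _ G hG => ?_, prod_ne hE0 hx⟩
  have h1 := hyp_ge (P := P) (G := G.restrictScalars ℂ) (fun f hf => hG f hf)
    (fun i => der_alg G ((h j).1 i)) (h j).2.1 (h j).2.2.2.1 (by rw [← hR]; exact hR0 j)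
    (der_alg G (h j).2.2.2.2.1) (h j).2.2.2.2.2.1 (h j).2.2.2.2.2.2 (hu j) (hn' j)
  rw [← hR] at h1
  have h2 : E j * G (x j) ^ a j =
      R j * (G.restrictScalars ℂ) (x j) ^ (n' j * (n' j - 1)) /
        eval (x j) (f j) ^ (2 * (n' j - 1)) := by
    rw [hE, ha]
    change _ = R j * G (x j) ^ (n' j * (n' j - 1)) / eval (x j) (f j) ^ (2 * (n' j - 1))
    ring
  rw [h2]
  exact h1

/-- **Linear systems with fibres over products of hyperelliptic curves: Kodaira dimension.** -/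
theorem lin_hyp_kod (hd : 1 ≤ d) (hdk : d + k = n) (hK : Algebra.trdeg ℂ K = (d + e : ℕ))
    {V : Submodule ℂ K} (hV : Module.finrank ℂ V = n + 1) (hL : Algebra.trdeg ℂ (rf V) = d)
    {φ : Fin q → K} (hφV : ∀ i, φ i ∈ V) (hφ0 : ∀ i, φ i ≠ 0)
    (hdec : ¬ ∃ V₁ V₂ : Submodule ℂ K, V₁ ≠ ⊥ ∧ V₂ ≠ ⊥ ∧ V₁ ⊓ V₂ = ⊥ ∧ V₁ ⊔ V₂ = V ∧
      ∀ i, φ i ∈ V₁ ∨ φ i ∈ V₂)
    (X : Set (Place ℂ K)) (δ : Place ℂ K → ℝ) (hδ : ∀ P ∈ X, 0 ≤ δ P) {s : ℝ}
    (hs : ((n : ℝ) + 2) * ((k + 1) * (k + 2)) < 2 * s ∨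
      ((∃ τ : Fin (n + 3) → Fin q, ∀ i j, i ≠ j → ∀ t : ℂ, φ (τ i) ≠ t • φ (τ j)) ∧
        ((n : ℝ) + 1) * ((k + 1) * (k + 2)) < 2 * s))
    (h : ∀ P ∈ X, Divisorial (d + e) P → ∀ a : ℤ, (∀ f ∈ V, f = 0 ∨ a ≤ P.ord f) →
      (∃ f ∈ V, f ≠ 0 ∧ P.ord f = a) → (∃ i, P.ord (φ i) ≠ a) →
      ∃ i, s * (1 - δ P) ≤ ((P.ord (φ i) - a : ℤ) : ℝ))
    {f : Fin e → K[X]} {c x y : Fin e → K} (hdat : HypData (rf V) f c x y)
    (hx : IsTranscendenceBasis (rf V) x) :
    ∃ N : ℕ, 0 < N ∧ ∃ ω : Fin (d + 1) → (Fin (d + e) → Derivation ℂ K K) → K,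
      (∀ j, PairSec (d + e) X δ N (ω j)) ∧
      ∃ D, ω 0 D ≠ 0 ∧ (∀ i : Fin d, ω i.succ D / ω 0 D ∈ rf V) ∧
        AlgebraicIndependent ℂ (fun i : Fin d => ω i.succ D / ω 0 D) := by
  obtain ⟨y', ℓ, R, hliy, hℓ, hℓ0, hcomp, hspl, hspan, hBd, hs', hmem, hfm⟩ :=
    lin_data1 (by omega) hV hφV hφ0 hdec hs
  have hyV : ∀ j, y' j ∈ V := fun j => by
    have := hmem (LinearMap.proj j)
    rwa [lf_proj] at this
  obtain ⟨x', σ, u, Dt, Du, hli, hσ, F, hx', hxy', hLHz, xL, hxL, hbas⟩ :=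
    exists_frame_lin hliy hyV hfm hL hK
  have hh := lin_high1 (N := d + e) (X := X) (δ := δ) (s := s) hφ0 hspan hℓ hmem hfm
    (hliy.ne_zero 0) hxy' h
  obtain ⟨M, hM, g, hg, w, hw0, hw, hwL, hest⟩ := F.est_kod (by omega) hℓ0 hcomp hspl hspan hBd
    hli hdk σ hσ hx' hxL hbas X δ hδ hs' hh rfl
  have htL : ∀ j : Fin d, x' (σ j.succ) ∈ rf V := fun j => by
    rw [← hxL]
    exact Subtype.coe_prop _
  obtain ⟨m, hm, θ, hθ, hne⟩ := hyp_forms hdat hx X (d + e)
  obtain ⟨ω, h1, D, h2, h3⟩ := F.pairs0 (δ₂ := fun _ => 0) hLHz htL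
    (fun P _ => by rw [add_zero]) hm hθ.1 hθ.2 hne hM hg hw0 hest
  refine ⟨M * m, Nat.mul_pos hM hm, ω, h1, D, h2, fun i => ?_, ?_⟩
  · rw [h3]
    exact hwL _
  · have h4 : (fun i : Fin d => ω i.succ D / ω 0 D) = fun i : Fin d => w i.succ := funext h3
    rw [h4]
    exact hw

end Pool.Agent.TH585.SV
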