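import Pool.Agent.TH585.SV.Hyp2

/-!
Forms of maximal degree along the fibres, from moving hyperplanes in general position.
-/

set_option autoImplicit false

open FF Module Pool.Agent.W603.LV Pool.Agent.W602.GT Pool.Agent.W602.Cov Pool.Agent.W602.Cov.G
open Pool.Agent.W168.CG.PGR Pool.Agent.TH152.AC Pool.Agent.TH152.HY Pool.Agent.TH766.MC

namespace Pool.Agent.TH585.SV

variable {d e k n q c κ : ℕ} {K : Type} [Field K] [Algebra ℂ K]

/-- the bordered determinant -/
noncomputable def bw (G : Fin e → Derivation ℂ K K) (y : Fin (e + 1) → K) : K :=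
  (Matrix.of fun r b : Fin (e + 1) => (Fin.cases (y b) (fun i => G i (y b)) r : K)).det

theorem bw_eq_pw (G : Fin e → Derivation ℂ K K) (y : Fin (e + 1) → K) :
    bw G y = pw (k := 0) (n := e) (q := 0) (Equiv.sumEmpty (Fin (e + 1)) (Fin 0)) G
      (fun i : Fin 0 => i.elim0) y (fun a : Fin 0 => a.elim0) := by
  unfold bw pw
  rw [← Matrix.det_submatrix_equiv_self (Equiv.sumEmpty (Fin (e + 1)) (Fin 0))]
  congr 1
  ext a b
  rcases a with a | a
  · rcases b with b | b
    · refine Fin.cases ?_ (fun i => ?_) a <;> rfl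
    · exact b.elim0
  · exact a.elim0

theorem bw_log {P : Place ℂ K} {G : Fin e → Derivation ℂ K K} (hG : ∀ i, DerLog P (G i))
    (y : Fin (e + 1) → K) : Ge P (∑ b, P.ord (y b)) (bw G y) := by
  rw [bw_eq_pw]
  exact ge_pw_log hG (fun i : Fin 0 => i.elim0) _ y _

theorem bw_reg {P : Place ℂ K} {G : Fin e → Derivation ℂ K K} (hG : ∀ i, DerReg P (G i))
    {y : Fin (e + 1) → K} (hy : ∀ b, y b ≠ 0) : Ge P (∑ b, P.ord (y b) - 1) (bw G y) := by
  rw [bw_eq_pw]
  have := ge_pw_reg hG (g := fun i : Fin 0 => i.elim0) (fun i : Fin 0 => i.elim0)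
    (Equiv.sumEmpty (Fin (e + 1)) (Fin 0)) y hy (fun a : Fin 0 => a.elim0)
  simpa using this

theorem bw_unit {P : Place ℂ K} {G : Fin e → Derivation ℂ K K} (hG : ∀ i, DerReg P (G i)) {a : ℤ}
    {y : Fin (e + 1) → K} (hy : ∀ b, Ge P a (y b)) : Ge P ((e + 1) * a) (bw G y) := by
  rw [bw_eq_pw]
  exact ge_pw_unit hG (g := fun i : Fin 0 => i.elim0) (fun i : Fin 0 => i.elim0)
    (fun i : Fin 0 => i.elim0) (Equiv.sumEmpty (Fin (e + 1)) (Fin 0)) hy (fun a : Fin 0 => a.elim0)

theorem bw_lin {G : Fin e → Derivation ℂ K K} (y : Fin (e + 1) → K)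
    (A : Matrix (Fin (e + 1)) (Fin (e + 1)) K) (hA : ∀ i a b, G i (A a b) = 0) :
    bw G (fun a => ∑ j, A a j * y j) = A.det * bw G y := by
  unfold bw
  have h1 : (Matrix.of fun r b : Fin (e + 1) => (Fin.cases (∑ j, A b j * y j)
      (fun i => G i (∑ j, A b j * y j)) r : K)) =
      (Matrix.of fun r b : Fin (e + 1) => (Fin.cases (y b) (fun i => G i (y b)) r : K)) *
        A.transpose := by
    ext r b
    rw [Matrix.mul_apply, Matrix.of_apply]
    refine Fin.cases ?_ (fun i => ?_) r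
    · simp only [Fin.cases_zero, Matrix.of_apply, Matrix.transpose_apply]
      exact Finset.sum_congr rfl fun j _ => mul_comm _ _
    · simp only [Fin.cases_succ, Matrix.of_apply, Matrix.transpose_apply]
      rw [map_sum]
      refine Finset.sum_congr rfl fun j _ => ?_
      rw [(G i).leibniz, hA, smul_zero, add_zero, smul_eq_mul, mul_comm]
  rw [h1, Matrix.det_mul, Matrix.det_transpose, mul_comm]

theorem bw_aff (G : Fin e → Derivation ℂ K K) (x : Fin e → K) :
    bw G (Fin.cons 1 x) = (Matrix.of fun i j => G i (x j)).det := by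
  unfold bw
  rw [Matrix.det_succ_column_zero, Fin.sum_univ_succ]
  have h1 : ∀ i : Fin e, (Matrix.of fun r b : Fin (e + 1) => (Fin.cases
      ((Fin.cons 1 x : Fin (e + 1) → K) b)
      (fun i => G i ((Fin.cons 1 x : Fin (e + 1) → K) b)) r : K)) i.succ 0 = 0 := by
    intro i
    rw [Matrix.of_apply, Fin.cases_succ, Fin.cons_zero]
    exact (G i).map_one_eq_zero
  simp only [h1, mul_zero, zero_mul, Finset.sum_const_zero, add_zero]
  rw [Matrix.of_apply, Fin.cases_zero, Fin.cons_zero]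
  simp only [Fin.val_zero, pow_zero, one_mul]
  congr 1

/-- the linear forms -/
noncomputable def mℓ (a : Fin q → Fin (e + 1) → K) (x : Fin e → K) (i : Fin q) : K :=
  ∑ j, a i j * (Fin.cons 1 x : Fin (e + 1) → K) j

/-- the minors -/
noncomputable def mD (a : Fin q → Fin (e + 1) → K) (τ : Fin (e + 1) → Fin q) : K :=
  (Matrix.of fun k j => a (τ k) j).det

theorem bw_mℓ {G : Fin e → Derivation ℂ K K} {a : Fin q → Fin (e + 1) → K}
    (ha : ∀ l i j, G l (a i j) = 0) (x : Fin e → K) (τ : Fin (e + 1) → Fin q) :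
    bw G (fun b => mℓ a x (τ b)) = mD a τ * bw G (Fin.cons 1 x) :=
  bw_lin (Fin.cons 1 x) (Matrix.of fun k j => a (τ k) j) (fun l _ _ => ha l _ _)

/-- the logarithmic case -/
theorem mov_log {P : Place ℂ K} {G : Fin e → Derivation ℂ K K} (hG : ∀ i, DerLog P (G i))
    {a : Fin q → Fin (e + 1) → K} (ha : ∀ l i j, G l (a i j) = 0) {x : Fin e → K}
    (hℓ : ∀ i, mℓ a x i ≠ 0) (τ : Fin (e + 1) → Fin q) :
    Ge P 0 (mD a τ / (∏ b, mℓ a x (τ b)) * bw G (Fin.cons 1 x)) := by
  have h1 := bw_log hG (fun b => mℓ a x (τ b))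
  rw [bw_mℓ ha] at h1
  have h2 : ∏ b, mℓ a x (τ b) ≠ 0 := Finset.prod_ne_zero_iff.2 fun b _ => hℓ _
  have h3 := ge_div h2 h1
  have h4 : P.ord (∏ b, mℓ a x (τ b)) = ∑ b, P.ord (mℓ a x (τ b)) :=
    ord_prod' P _ _ fun b _ => hℓ _
  rw [h4, sub_self] at h3
  rw [div_mul_eq_mul_div]
  exact h3

/-- the horizontal case -/
theorem mov_hor {P : Place ℂ K} {G : Fin e → Derivation ℂ K K} (hG : ∀ i, DerReg P (G i))
    {a : Fin q → Fin (e + 1) → K} (ha : ∀ l i j, G l (a i j) = 0) {x : Fin e → K}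
    (hℓ : ∀ i, mℓ a x i ≠ 0) (hao : ∀ i j, Ge P 0 (a i j))
    (hD : ∀ τ : Fin (e + 1) → Fin q, Function.Injective τ → mD a τ ≠ 0 ∧ P.ord (mD a τ) = 0)
    (hq : e + 1 ≤ q) {a₀ : ℤ} (h0 : ∀ j, Ge P a₀ ((Fin.cons 1 x : Fin (e + 1) → K) j))
    (h1 : ∃ j, (Fin.cons 1 x : Fin (e + 1) → K) j ≠ 0 ∧
      P.ord ((Fin.cons 1 x : Fin (e + 1) → K) j) = a₀) {N : ℕ}
    (hN : ∑ i, (P.ord (mℓ a x i) - a₀) = 0 ∨ (N : ℤ) ≤ ∑ i, (P.ord (mℓ a x i) - a₀)) :
    ∃ (c : ℤ) (T : ℤ), Ge P c (bw G (Fin.cons 1 x)) ∧ ∑ i, P.ord (mℓ a x i) = q * a₀ + T ∧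
      (∀ τ : Fin (e + 1) → Fin q, Function.Injective τ →
        ∑ b, P.ord (mℓ a x (τ b)) ≤ (e + 1) * a₀ + T) ∧
      ((T = 0 ∧ c = (e + 1) * a₀) ∨ (N ≤ T ∧ c = (e + 1) * a₀ + T - 1)) := by
  classical
  obtain ⟨z, hz⟩ : ∃ z : Fin (e + 1) → K, z = Fin.cons 1 x := ⟨_, rfl⟩
  rw [← hz] at h0 h1 ⊢
  have hℓz : ∀ i, mℓ a x i = ∑ j, a i j * z j := fun i => by
    rw [hz]
    rfl
  obtain ⟨m, hm⟩ : ∃ m : Fin q → ℤ, ∀ i, m i = P.ord (mℓ a x i) - a₀ := ⟨_, fun _ => rfl⟩
  have hge : ∀ i, Ge P a₀ (mℓ a x i) := by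
    intro i
    rw [hℓz]
    refine Ge.sum _ _ fun j _ => ?_
    have := (hao i j).mul (h0 j)
    rwa [zero_add] at this
  have hm0 : ∀ i, 0 ≤ m i := by
    intro i
    rw [hm]
    rcases hge i with h2 | h2
    · exact absurd h2 (hℓ i)
    · linarith
  obtain ⟨T, hT⟩ : ∃ T, T = ∑ i, m i := ⟨_, rfl⟩
  have hsum : ∑ i, P.ord (mℓ a x i) = q * a₀ + T := by
    rw [hT]
    simp only [hm]
    rw [Finset.sum_sub_distrib]
    simp
  have hτ : ∀ τ : Fin (e + 1) → Fin q, Function.Injective τ →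
      ∑ b, P.ord (mℓ a x (τ b)) = (e + 1) * a₀ + ∑ i ∈ Finset.univ.image τ, m i := by
    intro τ hτ
    rw [Finset.sum_image fun b _ b' _ h => hτ h]
    simp only [hm]
    rw [Finset.sum_sub_distrib]
    simp
  have hτT : ∀ τ : Fin (e + 1) → Fin q, Function.Injective τ →
      ∑ b, P.ord (mℓ a x (τ b)) ≤ (e + 1) * a₀ + T := by
    intro τ h2
    rw [hτ τ h2, hT]
    have := Finset.sum_le_sum_of_subset_of_nonneg (Finset.subset_univ (Finset.univ.image τ))
      (fun i _ _ => hm0 i)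
    linarith
  obtain ⟨S, hS⟩ : ∃ S : Finset (Fin q), S = Finset.univ.filter fun i => m i ≠ 0 := ⟨_, rfl⟩
  rcases S.eq_empty_or_nonempty with hSe | hSn
  · -- all are units
    have hT0 : T = 0 := by
      rw [hT]
      refine Finset.sum_eq_zero fun i _ => ?_
      by_contra hne
      have : i ∈ S := by
        rw [hS]
        exact Finset.mem_filter.2 ⟨Finset.mem_univ _, hne⟩
      rw [hSe] at this
      exact absurd this (Finset.notMem_empty _)
    exact ⟨(e + 1) * a₀, T, bw_unit hG h0, hsum, hτT, Or.inl ⟨hT0, rfl⟩⟩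
  · -- the number of the divisors which contain `P`
    have hcard : S.card ≤ e + 1 := by
      by_contra hcon
      push Not at hcon
      obtain ⟨I, hIS, hI⟩ := Finset.exists_subset_card_eq hcon.le
      let τ : Fin (e + 1) → Fin q := fun b => I.orderEmbOfFin hI b
      have hinj : Function.Injective τ := fun b b' h => (I.orderEmbOfFin hI).injective h
      obtain ⟨hD0, hDo⟩ := hD τ hinj
      obtain ⟨A, hA⟩ : ∃ A : Matrix (Fin (e + 1)) (Fin (e + 1)) K,
        A = Matrix.of fun k j => a (τ k) j := ⟨_, rfl⟩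
      have hAD : A.det = mD a τ := by
        rw [hA]
        rfl
      have h2 : A.mulVec z = fun b => mℓ a x (τ b) := by
        funext b
        rw [hℓz, hA]
        rfl
      have h3 : A.det • z = A.adjugate.mulVec (fun b => mℓ a x (τ b)) := by
        rw [← h2, Matrix.mulVec_mulVec, Matrix.adjugate_mul, Matrix.smul_mulVec,
          Matrix.one_mulVec]
      obtain ⟨j, hj0, hj⟩ := h1
      have h4 : Ge P (a₀ + 1) (A.det * z j) := by
        have h5 := congrFun h3 j
        rw [Pi.smul_apply, smul_eq_mul] at h5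
        rw [h5]
        change Ge P (a₀ + 1) (∑ b, A.adjugate j b * mℓ a x (τ b))
        refine Ge.sum _ _ fun b _ => ?_
        have h6 : Ge P 0 (A.adjugate j b) := by
          rw [Matrix.adjugate_apply]
          refine ge_det' P _ 0 (fun _ _ => 0) (fun r s => ?_) (fun _ => by simp)
          rw [Matrix.updateRow_apply]
          split_ifs
          · rw [Pi.single_apply]
            split_ifs
            · have := Ge.const (P := P) (1 : ℂ)
              rwa [map_one] at this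
            · exact Or.inl rfl
          · rw [hA]
            exact hao _ _
        have h7 : Ge P (a₀ + 1) (mℓ a x (τ b)) := by
          have h8 : τ b ∈ S := hIS (I.orderEmbOfFin_mem hI b)
          rw [hS] at h8
          have h9 := (Finset.mem_filter.1 h8).2
          have h10 := hm0 (τ b)
          rw [hm] at h9 h10
          right
          omega
        have := h6.mul h7
        rwa [zero_add] at this
      rcases h4 with h4 | h4
      · exact (mul_ne_zero (hAD ▸ hD0) hj0) h4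
      · rw [P.ord_mul (hAD ▸ hD0) hj0, hAD, hDo, hj] at h4
        omega
    obtain ⟨I, hSI, -, hI⟩ := Finset.exists_subsuperset_card_eq (Finset.subset_univ S) hcard
      (by simpa using hq)
    let τ : Fin (e + 1) → Fin q := fun b => I.orderEmbOfFin hI b
    have hinj : Function.Injective τ := fun b b' h => (I.orderEmbOfFin hI).injective h
    obtain ⟨hD0, hDo⟩ := hD τ hinj
    have himg : Finset.univ.image τ = I := by
      have := I.image_orderEmbOfFin_univ hI
      exact this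
    have hsumI : ∑ i ∈ I, m i = T := by
      rw [hT]
      refine Finset.sum_subset (Finset.subset_univ _) fun i _ hi => ?_
      by_contra hne
      exact hi (hSI (by
        rw [hS]
        exact Finset.mem_filter.2 ⟨Finset.mem_univ _, hne⟩))
    have h2 := bw_reg hG (fun b => hℓ (τ b))
    rw [bw_mℓ ha, hτ τ hinj, himg, hsumI, ← hz] at h2
    have h3 : Ge P ((e + 1) * a₀ + T - 1) (bw G z) := by
      have h4 := ge_div hD0 h2
      rw [mul_div_cancel_left₀ _ hD0, hDo, sub_zero] at h4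
      exact h4
    refine ⟨_, T, h3, hsum, hτT, Or.inr ⟨?_, rfl⟩⟩
    obtain ⟨i, hi⟩ := hSn
    rw [hS] at hi
    have h4 := (Finset.mem_filter.1 hi).2
    have h5 : m i ≤ T := by
      rw [hT]
      exact Finset.single_le_sum (fun i _ => hm0 i) (Finset.mem_univ i)
    have h6 : T = ∑ i, (P.ord (mℓ a x i) - a₀) := by
      rw [hT]
      exact Finset.sum_congr rfl fun i _ => hm i
    rw [← h6] at hN
    rcases hN with h7 | h7
    · have h8 := hm0 i
      omega
    · exact h7

end Pool.Agent.TH585.SV
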