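import Pool.Agent.TH585.SV.Mov

/-!
Forms of maximal degree along the fibres, from moving hyperplanes in general position.
-/

set_option autoImplicit false

open FF Module Pool.Agent.W603.LV Pool.Agent.W602.GT Pool.Agent.W602.Cov Pool.Agent.W602.Cov.G
open Pool.Agent.W168.CG.PGR Pool.Agent.TH152.AC Pool.Agent.TH152.HY Pool.Agent.TH766.MC

namespace Pool.Agent.TH585.SV

variable {d e k n q c κ : ℕ} {K : Type} [Field K] [Algebra ℂ K]

/-- `e + 1` consecutive numbers modulo `q` -/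
def win [NeZero q] (hq : e + 1 ≤ q) (i : Fin q) (b : Fin (e + 1)) : Fin q := i + Fin.castLE hq b

theorem win_inj [NeZero q] (hq : e + 1 ≤ q) (i : Fin q) : Function.Injective (win hq i) := by
  intro b b' h
  exact Fin.castLE_injective hq (add_left_cancel h)

theorem win_sum [NeZero q] (hq : e + 1 ≤ q) (f : Fin q → ℤ) :
    ∑ i, ∑ b, f (win hq i b) = (e + 1) * ∑ i, f i := by
  rw [Finset.sum_comm]
  have h1 : ∀ b : Fin (e + 1), ∑ i, f (win hq i b) = ∑ i, f i := fun b =>
    Equiv.sum_comp (Equiv.addRight (Fin.castLE hq b)) f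
  rw [Finset.sum_congr rfl fun b _ => h1 b]
  simp

/-- the factor -/
noncomputable def mE [NeZero q] (hq : e + 1 ≤ q) (a : Fin q → Fin (e + 1) → K) (x : Fin e → K) :
    K := ∏ i, (mD a (win hq i) / ∏ b, mℓ a x (win hq i b))

/-- data of moving hyperplanes in general position with total multiplicities at least `N` -/
structure MovData (w N : ℕ) (X : Set (Place ℂ K)) (L : IntermediateField ℂ K)
    (a : Fin q → Fin (e + 1) → K) (x : Fin e → K) : Prop where
  alg : ∀ i j, IsAlgebraic L (a i j)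
  gen : ∀ τ : Fin (e + 1) → Fin q, Function.Injective τ → mD a τ ≠ 0
  bas : IsTranscendenceBasis L x
  mult : ∀ P ∈ X, Divisorial w P → (∀ b : K, IsAlgebraic L b → b ≠ 0 → P.ord b = 0) →
    ∀ a₀ : ℤ, (∀ j, (Fin.cons 1 x : Fin (e + 1) → K) j = 0 ∨
      a₀ ≤ P.ord ((Fin.cons 1 x : Fin (e + 1) → K) j)) →
    (∃ j, (Fin.cons 1 x : Fin (e + 1) → K) j ≠ 0 ∧
      P.ord ((Fin.cons 1 x : Fin (e + 1) → K) j) = a₀) →
    ∑ i, (P.ord (mℓ a x i) - a₀) = 0 ∨ (N : ℤ) ≤ ∑ i, (P.ord (mℓ a x i) - a₀)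

variable {w N : ℕ} {X : Set (Place ℂ K)} {L : IntermediateField ℂ K}
  {a : Fin q → Fin (e + 1) → K} {x : Fin e → K}

theorem MovData.ne (h : MovData w N X L a x) (hq : e + 1 ≤ q) (i : Fin q) : mℓ a x i ≠ 0 := by
  classical
  intro h0
  -- the derivatives
  have h1 : ∀ l : Fin e, ∃ D : Derivation L K K, ∀ j, D (x j) = if l = j then 1 else 0 :=
    fun l => exists_der (L := L) x h.bas _
  have h2 : ∀ j : Fin e, a i j.succ = 0 := by
    intro l
    obtain ⟨D, hD⟩ := h1 l
    have h3 := congrArg D h0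
    rw [map_zero, mℓ, Fin.sum_univ_succ, map_add, map_sum] at h3
    simp only [Fin.cons_zero, Fin.cons_succ, mul_one] at h3
    rw [der_alg D (h.alg i 0), zero_add] at h3
    have h4 : ∀ j : Fin e, D (a i j.succ * x j) = if l = j then a i j.succ else 0 := by
      intro j
      rw [D.leibniz, der_alg D (h.alg i _), hD]
      split_ifs <;> simp
    rw [Finset.sum_congr rfl fun j _ => h4 j] at h3
    simpa using h3
  have h3 : a i 0 = 0 := by
    rw [mℓ, Fin.sum_univ_succ] at h0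
    simp only [h2, zero_mul, Finset.sum_const_zero, add_zero, Fin.cons_zero, mul_one] at h0
    exact h0
  -- a window which contains `i`
  have hne : NeZero q := ⟨by omega⟩
  apply h.gen (win hq i) (win_inj hq i)
  have h4 : win hq i 0 = i := by
    unfold win
    have : Fin.castLE hq 0 = (0 : Fin q) := by
      apply Fin.ext
      simp
    rw [this, add_zero]
  unfold mD
  refine Matrix.det_eq_zero_of_row_eq_zero 0 fun j => ?_
  rw [Matrix.of_apply, h4]
  refine Fin.cases h3 (fun j => h2 j) j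

theorem MovData.algD (h : MovData w N X L a x) (τ : Fin (e + 1) → Fin q) :
    IsAlgebraic L (mD a τ) := by
  have h1 : ∀ i j, a i j ∈ algebraicClosure L K := fun i j =>
    mem_algebraicClosure_iff.2 (h.alg i j)
  rw [← mem_algebraicClosure_iff, mD, Matrix.det_apply]
  refine sum_mem fun σ _ => ?_
  have h2 : (∏ i, Matrix.of (fun k j => a (τ k) j) (σ i) i) ∈ algebraicClosure L K :=
    prod_mem fun i _ => h1 _ _
  rw [Units.smul_def]
  exact zsmul_mem h2 _

/-- the estimate at the prime divisors -/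
theorem MovData.ge (h : MovData w N X L a x) [NeZero q] (hq : e + 1 ≤ q)
    (hN : q ≤ N * (q - (e + 1))) {P : Place ℂ K} (hPX : P ∈ X) (hPd : Divisorial w P)
    {G : Fin e → Derivation L K K} (hG : ∀ i f, P.Reg f → P.Reg (G i f)) :
    Ge P 0 (mE hq a x * (Matrix.of fun i j => G i (x j)).det ^ q) ∧
    ∀ τ : Fin (e + 1) → Fin q, Function.Injective τ → q + 1 ≤ N * (q - (e + 1)) →
      Ge P 0 (mE hq a x * (mD a τ / ∏ b, mℓ a x (τ b)) *
        (Matrix.of fun i j => G i (x j)).det ^ (q + 1)) := by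
  classical
  obtain ⟨G', hG'⟩ : ∃ G' : Fin e → Derivation ℂ K K, ∀ i, G' i = (G i).restrictScalars ℂ :=
    ⟨_, fun _ => rfl⟩
  have hGG : ∀ i f, G' i f = G i f := fun i f => by
    rw [hG']
    rfl
  have hreg : ∀ i, DerReg P (G' i) := fun i f hf => by
    rw [hGG]
    exact hG i f hf
  have hW : (Matrix.of fun i j => G i (x j)).det = bw G' (Fin.cons 1 x) := by
    rw [bw_aff]
    congr 1
    ext i j
    rw [Matrix.of_apply, Matrix.of_apply, hGG]
  have ha : ∀ l i j, G' l (a i j) = 0 := fun l i j => by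
    rw [hGG]
    exact der_alg (G l) (h.alg i j)
  have hℓ := h.ne hq
  rw [hW]
  have hprod : mE hq a x * bw G' (Fin.cons 1 x) ^ q =
      ∏ i, (mD a (win hq i) / (∏ b, mℓ a x (win hq i b)) * bw G' (Fin.cons 1 x)) := by
    rw [Finset.prod_mul_distrib, Finset.prod_const, Finset.card_univ, Fintype.card_fin]
    rfl
  by_cases hv : ∀ b : K, IsAlgebraic L b → b ≠ 0 → P.ord b = 0
  · -- a horizontal divisor
    have hao : ∀ i j, Ge P 0 (a i j) := fun i j => by
      by_cases h0 : a i j = 0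
      · exact Or.inl h0
      · exact Or.inr (hv _ (h.alg i j) h0).ge
    have hD : ∀ τ : Fin (e + 1) → Fin q, Function.Injective τ →
        mD a τ ≠ 0 ∧ P.ord (mD a τ) = 0 := fun τ hτ => ⟨h.gen τ hτ, hv _ (h.algD τ) (h.gen τ hτ)⟩
    -- the minimum
    obtain ⟨j₀, hj₀, hmin⟩ : ∃ j₀, (Fin.cons 1 x : Fin (e + 1) → K) j₀ ≠ 0 ∧
        ∀ j, (Fin.cons 1 x : Fin (e + 1) → K) j = 0 ∨
          P.ord ((Fin.cons 1 x : Fin (e + 1) → K) j₀) ≤
            P.ord ((Fin.cons 1 x : Fin (e + 1) → K) j) := by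
      obtain ⟨j₀, hj₀, h2⟩ := Finset.exists_min_image
        (Finset.univ.filter fun j => (Fin.cons 1 x : Fin (e + 1) → K) j ≠ 0)
        (fun j => P.ord ((Fin.cons 1 x : Fin (e + 1) → K) j))
        ⟨0, Finset.mem_filter.2 ⟨Finset.mem_univ _, by simp⟩⟩
      refine ⟨j₀, (Finset.mem_filter.1 hj₀).2, fun j => ?_⟩
      by_cases h3 : (Fin.cons 1 x : Fin (e + 1) → K) j = 0
      · exact Or.inl h3
      · exact Or.inr (h2 j (Finset.mem_filter.2 ⟨Finset.mem_univ _, h3⟩))
    obtain ⟨c, T, h2, h3, h4, h5⟩ := mov_hor hreg ha hℓ hao hD hq hmin ⟨j₀, hj₀, rfl⟩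
      (h.mult P hPX hPd hv _ hmin ⟨j₀, hj₀, rfl⟩)
    obtain ⟨a₀, ha₀⟩ : ∃ a₀, a₀ = P.ord ((Fin.cons 1 x : Fin (e + 1) → K) j₀) := ⟨_, rfl⟩
    rw [← ha₀] at h3 h4 h5
    have hE0 : mE hq a x ≠ 0 := by
      refine Finset.prod_ne_zero_iff.2 fun i _ => div_ne_zero (h.gen _ (win_inj hq i)) ?_
      exact Finset.prod_ne_zero_iff.2 fun b _ => hℓ _
    have hEo : P.ord (mE hq a x) = -((e + 1) * (q * a₀ + T)) := by
      unfold mE
      rw [ord_prod' P _ _ fun i _ => div_ne_zero (h.gen _ (win_inj hq i))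
        (Finset.prod_ne_zero_iff.2 fun b _ => hℓ _)]
      have h6 : ∀ i, P.ord (mD a (win hq i) / ∏ b, mℓ a x (win hq i b)) =
          -∑ b, P.ord (mℓ a x (win hq i b)) := by
        intro i
        rw [P.ord_div (h.gen _ (win_inj hq i)) (Finset.prod_ne_zero_iff.2 fun b _ => hℓ _),
          ord_prod' P _ _ fun b _ => hℓ _, (hD _ (win_inj hq i)).2, zero_sub]
      rw [Finset.sum_congr rfl fun i _ => h6 i, Finset.sum_neg_distrib,
        win_sum hq (fun i => P.ord (mℓ a x i)), h3]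
    have hE : Ge P (-((e + 1) * (q * a₀ + T))) (mE hq a x) := Or.inr hEo.ge
    have hN' : (q : ℤ) ≤ N * (q - (e + 1)) := by
      have := (Nat.cast_le (α := ℤ)).2 hN
      rw [Nat.cast_mul, Nat.cast_sub hq] at this
      exact_mod_cast this
    have hqe : (0 : ℤ) ≤ q - (e + 1) := by
      have : ((e + 1 : ℕ) : ℤ) ≤ q := by exact_mod_cast hq
      push_cast at this
      linarith
    refine ⟨?_, fun τ hτ hN1 => ?_⟩
    · refine (hE.mul (h2.pow q)).mono ?_
      rcases h5 with ⟨h6, h7⟩ | ⟨h6, h7⟩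
      · rw [h6, h7]
        push_cast
        nlinarith
      · rw [h7]
        have := mul_le_mul_of_nonneg_right h6 hqe
        push_cast
        nlinarith
    · have h8 : Ge P (-∑ b, P.ord (mℓ a x (τ b))) (mD a τ / ∏ b, mℓ a x (τ b)) := by
        right
        rw [P.ord_div (h.gen _ hτ) (Finset.prod_ne_zero_iff.2 fun b _ => hℓ _),
          ord_prod' P _ _ fun b _ => hℓ _, (hD _ hτ).2, zero_sub]
      have hN1' : (q + 1 : ℤ) ≤ N * (q - (e + 1)) := by
        have := (Nat.cast_le (α := ℤ)).2 hN1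
        rw [Nat.cast_mul, Nat.cast_sub hq] at this
        exact_mod_cast this
      have h9 := h4 τ hτ
      refine ((hE.mul h8).mul (h2.pow (q + 1))).mono ?_
      rcases h5 with ⟨h6, h7⟩ | ⟨h6, h7⟩
      · rw [h7]
        rw [h6] at h9 ⊢
        push_cast
        nlinarith
      · rw [h7]
        have := mul_le_mul_of_nonneg_right h6 hqe
        push_cast
        nlinarith
  · -- a vertical divisor
    push Not at hv
    obtain ⟨b, hb, hb0, hbo⟩ := hv
    have hlog : ∀ i, DerLog P (G' i) := by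
      intro i f
      by_cases hf : f = 0
      · rw [hf, map_zero, zero_div]
        exact P.reg_zero
      · rw [reg_iff_ge]
        exact log_of_const (hreg i) (by rw [hGG]; exact der_alg (G i) hb) hbo hf
    have h1 : Ge P 0 (mE hq a x * bw G' (Fin.cons 1 x) ^ q) := by
      rw [hprod]
      have := Ge.prod (P := P) Finset.univ
        (fun i => mD a (win hq i) / (∏ b, mℓ a x (win hq i b)) * bw G' (Fin.cons 1 x))
        (fun _ => 0) (fun i _ => mov_log hlog ha hℓ (win hq i))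
      simpa using this
    refine ⟨h1, fun τ _ _ => ?_⟩
    have h2 := h1.mul (mov_log hlog ha hℓ τ)
    rw [add_zero] at h2
    have h3 : mE hq a x * bw G' (Fin.cons 1 x) ^ q *
        (mD a τ / (∏ b, mℓ a x (τ b)) * bw G' (Fin.cons 1 x)) =
        mE hq a x * (mD a τ / ∏ b, mℓ a x (τ b)) * bw G' (Fin.cons 1 x) ^ (q + 1) := by
      ring
    rw [h3] at h2
    exact h2

end Pool.Agent.TH585.SV
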