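import Pool.Agent.TH585.SV.Mov2
import Pool.Agent.W602.GT.Dich

/-!
Sections along the fibres from moving hyperplanes in general position.
-/

set_option autoImplicit false

open FF Module Pool.Agent.W603.LV Pool.Agent.W602.GT Pool.Agent.W602.Cov Pool.Agent.W602.Cov.G
open Pool.Agent.W168.CG.PGR Pool.Agent.TH152.AC Pool.Agent.TH152.HY Pool.Agent.TH766.MC

namespace Pool.Agent.TH585.SV

variable {d e k n q c κ : ℕ} {K : Type} [Field K] [Algebra ℂ K]

open scoped IntermediateField.algebraAdjoinAdjoin in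
/-- a criterion for algebraic independence -/
theorem indep_of_der {L : IntermediateField ℂ K} {x : Fin e → K} (hx : IsTranscendenceBasis L x)
    {r : Fin e → K} (h : ∀ D : Derivation L K K, (∀ i, D (r i) = 0) → ∀ j, D (x j) = 0) :
    AlgebraicIndependent L r := by
  have hch : CharZero K := charZero_of_injective_algebraMap (algebraMap ℂ K).injective
  have hchL : CharZero L := charZero_of_injective_algebraMap (algebraMap ℂ L).injective
  have halg : Algebra.IsAlgebraic (IntermediateField.adjoin L (Set.range r)) K := by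
    by_contra hcon
    obtain ⟨D, hD0, hD⟩ := exists_der_over (k := L) (Set.range r) hcon
    apply hD0
    refine der_ext x hx fun j => ?_
    rw [h D (fun i => hD _ ⟨i, rfl⟩) j]
    rfl
  have halg' : Algebra.IsAlgebraic (Algebra.adjoin L (Set.range r)) K :=
    IsFractionRing.comap_isAlgebraic_iff.2 halg
  exact (Algebra.IsAlgebraic.isTranscendenceBasis_of_le_trdeg_of_finite L r
    hx.cardinalMk_eq_trdeg.le).1

/-- monomial forms -/
noncomputable def monof {L : IntermediateField ℂ K} (x : Fin e → K) (E : K) (M : ℕ)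
    (G : Fin e → Derivation L K K) : K :=
  E * (Matrix.of fun i j => G i (x j)).det ^ M

theorem mono_fib {w M : ℕ} {L : IntermediateField ℂ K} {X : Set (Place ℂ K)} {x : Fin e → K}
    {E : K} (h : ∀ P ∈ X, Divisorial w P → ∀ G : Fin e → Derivation L K K,
      (∀ i f, P.Reg f → P.Reg (G i f)) → Ge P 0 (E * (Matrix.of fun i j => G i (x j)).det ^ M)) :
    FibSec w M X (fun _ => 0) L (monof x E M) := by
  refine ⟨fun A G => ?_, fun P hPX hPd G hG => ?_⟩
  · unfold monof
    have h1 : (Matrix.of fun i j => (fun i => ∑ l, A i l • G l) i (x j)) =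
        A * Matrix.of fun i j => G i (x j) := by
      ext i j
      rw [Matrix.mul_apply, Matrix.of_apply]
      have h2 : (∑ l, A i l • G l) (x j) = ∑ l, A i l * G l (x j) := by
        rw [← Derivation.coeFnAddMonoidHom_apply, map_sum, Finset.sum_apply]
        rfl
      exact h2
    rw [h1, Matrix.det_mul, mul_pow]
    ring
  · rcases h P hPX hPd G hG with h5 | h5
    · exact Or.inl h5
    · right
      have : (0 : ℝ) ≤ (P.ord (monof x E M G) : ℝ) := by exact_mod_cast h5
      simpa using this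

variable {w N : ℕ} {X : Set (Place ℂ K)} {L : IntermediateField ℂ K}
  {a : Fin q → Fin (e + 1) → K} {x : Fin e → K}

theorem MovData.mE_ne (h : MovData w N X L a x) [NeZero q] (hq : e + 1 ≤ q) : mE hq a x ≠ 0 :=
  Finset.prod_ne_zero_iff.2 fun i _ => div_ne_zero (h.gen _ (win_inj hq i))
    (Finset.prod_ne_zero_iff.2 fun _ _ => h.ne hq _)

theorem exists_dual (hx : IsTranscendenceBasis L x) :
    ∃ G : Fin e → Derivation L K K, (Matrix.of fun i j => G i (x j)).det = 1 := by
  classical
  have h1 : ∀ i : Fin e, ∃ D : Derivation L K K, ∀ j, D (x j) = if i = j then 1 else 0 :=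
    fun i => exists_der (L := L) x hx _
  choose G hG using h1
  refine ⟨G, ?_⟩
  have h2 : (Matrix.of fun i j => G i (x j)) = 1 := by
    ext i j
    rw [Matrix.of_apply, hG, Matrix.one_apply]
  rw [h2, Matrix.det_one]

/-- one section -/
theorem MovData.sec0 (h : MovData w N X L a x) (hq : e + 1 ≤ q) (hN : q ≤ N * (q - (e + 1))) :
    ∃ M : ℕ, 0 < M ∧ ∃ θ : Fin (0 + 1) → (Fin e → Derivation L K K) → K,
      (∀ b, FibSec w M X (fun _ => 0) L (θ b)) ∧
      ∃ G, θ 0 G ≠ 0 ∧ AlgebraicIndependent L (fun i : Fin 0 => θ i.succ G / θ 0 G) := by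
  have hne : NeZero q := ⟨by omega⟩
  obtain ⟨G, hG⟩ := exists_dual h.bas
  refine ⟨q, by omega, fun _ => monof x (mE hq a x) q, fun _ => mono_fib
    fun P hPX hPd G hG => (h.ge hq hN hPX hPd hG).1, G, ?_, ?_⟩
  · change mE hq a x * (Matrix.of fun i j => (G i) (x j)).det ^ q ≠ 0
    rw [hG, one_pow, mul_one]
    exact h.mE_ne hq
  · rw [algebraicIndependent_empty_type_iff]
    exact (algebraMap L K).injective

/-- the index sets -/
def skp (hq : e + 2 ≤ q) (j : Fin (e + 1)) (b : Fin (e + 1)) : Fin q :=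
  Fin.castLE hq (j.castSucc.succAbove b)

theorem skp_inj (hq : e + 2 ≤ q) (j : Fin (e + 1)) : Function.Injective (skp hq j) := by
  intro b b' h
  exact Fin.succAbove_right_injective (Fin.castLE_injective hq h)

theorem skp_prod (hq : e + 2 ≤ q) (f : Fin q → K) (j : Fin (e + 1)) :
    f (Fin.castLE hq j.castSucc) * ∏ b, f (skp hq j b) = ∏ i : Fin (e + 2), f (Fin.castLE hq i) :=
  (Fin.prod_univ_succAbove (fun i : Fin (e + 2) => f (Fin.castLE hq i)) j.castSucc).symm

/-- `e + 1` sections -/
theorem MovData.secE (h : MovData w N X L a x) (hq : e + 1 ≤ q)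
    (hN : q + 1 ≤ N * (q - (e + 1))) :
    ∃ M : ℕ, 0 < M ∧ ∃ θ : Fin (e + 1) → (Fin e → Derivation L K K) → K,
      (∀ b, FibSec w M X (fun _ => 0) L (θ b)) ∧
      ∃ G, θ 0 G ≠ 0 ∧ AlgebraicIndependent L (fun i : Fin e => θ i.succ G / θ 0 G) := by
  classical
  have hq2 : e + 2 ≤ q := by
    by_contra hcon
    have : q - (e + 1) = 0 := by omega
    rw [this, mul_zero] at hN
    omega
  have hne : NeZero q := ⟨by omega⟩
  have hℓ := h.ne hq
  obtain ⟨G, hG⟩ := exists_dual h.bas
  obtain ⟨p, hp⟩ : ∃ p : Fin (e + 1) → K, ∀ j, p j = mℓ a x (Fin.castLE hq2 j.castSucc) :=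
    ⟨_, fun _ => rfl⟩
  have hp0 : ∀ j, p j ≠ 0 := fun j => by
    rw [hp]
    exact hℓ _
  obtain ⟨η, hη⟩ : ∃ η : Fin (e + 1) → K, ∀ j, η j = mD a (skp hq2 j) / ∏ b, mℓ a x (skp hq2 j b) :=
    ⟨_, fun _ => rfl⟩
  have hη0 : ∀ j, η j ≠ 0 := fun j => by
    rw [hη]
    exact div_ne_zero (h.gen _ (skp_inj hq2 j)) (Finset.prod_ne_zero_iff.2 fun _ _ => hℓ _)
  obtain ⟨Q, hQ⟩ : ∃ Q, Q = ∏ i : Fin (e + 2), mℓ a x (Fin.castLE hq2 i) := ⟨_, rfl⟩
  have hQ0 : Q ≠ 0 := by
    rw [hQ]
    exact Finset.prod_ne_zero_iff.2 fun _ _ => hℓ _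
  have hηp : ∀ j, η j = mD a (skp hq2 j) * p j / Q := by
    intro j
    have h1 := skp_prod hq2 (mℓ a x) j
    rw [← hQ, ← hp] at h1
    have h2 : ∏ b, mℓ a x (skp hq2 j b) ≠ 0 := Finset.prod_ne_zero_iff.2 fun _ _ => hℓ _
    rw [hη, ← h1]
    have := hp0 j
    field_simp
  refine ⟨q + 1, by omega, fun j => monof x (mE hq a x * η j) (q + 1), fun j => mono_fib
    fun P hPX hPd G hG => ?_, G, ?_, ?_⟩
  · have h1 := (h.ge hq (by omega) hPX hPd hG).2 (skp hq2 j) (skp_inj hq2 j) hN
    rw [← hη] at h1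
    exact h1
  · change mE hq a x * η 0 * (Matrix.of fun i j => (G i) (x j)).det ^ (q + 1) ≠ 0
    rw [hG, one_pow, mul_one]
    exact mul_ne_zero (h.mE_ne hq) (hη0 0)
  · have h1 : (fun i : Fin e => monof x (mE hq a x * η i.succ) (q + 1) G /
        monof x (mE hq a x * η 0) (q + 1) G) = fun i : Fin e => η i.succ / η 0 := by
      funext i
      unfold monof
      rw [hG, one_pow, mul_one, mul_one]
      have := h.mE_ne hq
      have := hη0 0
      field_simp
    change AlgebraicIndependent L (fun i : Fin e => monof x (mE hq a x * η i.succ) (q + 1) G /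
        monof x (mE hq a x * η 0) (q + 1) G)
    rw [h1]
    refine indep_of_der h.bas fun D hD => ?_
    -- the constants
    obtain ⟨F, hF⟩ : ∃ F : IntermediateField ℂ K, F = consts (D.restrictScalars ℂ) := ⟨_, rfl⟩
    have hFm : ∀ z, z ∈ F ↔ D z = 0 := fun z => by
      rw [hF, mem_consts]
      rfl
    have hFa : ∀ z, IsAlgebraic L z → z ∈ F := fun z hz => (hFm z).2 (der_alg D hz)
    have haF : ∀ i j, a i j ∈ F := fun i j => hFa _ (h.alg i j)
    have hpF : ∀ b : Fin (e + 1), p b / p 0 ∈ F := by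
      intro b
      refine Fin.cases ?_ (fun i => ?_) b
      · rw [div_self (hp0 0)]
        exact one_mem F
      · have h2 : η i.succ / η 0 ∈ F := (hFm _).2 (hD i)
        have h3 : p i.succ / p 0 =
            η i.succ / η 0 * (mD a (skp hq2 0) / mD a (skp hq2 i.succ)) := by
          rw [hηp, hηp]
          have h4 := h.gen _ (skp_inj hq2 0)
          have h5 := h.gen _ (skp_inj hq2 i.succ)
          have h6 := hp0 0
          have h7 := hp0 i.succ
          field_simp
        rw [h3]
        exact mul_mem h2 (div_mem (hFa _ (h.algD _)) (hFa _ (h.algD _)))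
    obtain ⟨τ, hτ⟩ : ∃ τ : Fin (e + 1) → Fin q, ∀ b, τ b = Fin.castLE hq2 b.castSucc :=
      ⟨_, fun _ => rfl⟩
    have hτi : Function.Injective τ := by
      intro b b' hb
      rw [hτ, hτ] at hb
      exact Fin.castSucc_injective _ (Fin.castLE_injective hq2 hb)
    obtain ⟨A, hA⟩ : ∃ A : Matrix (Fin (e + 1)) (Fin (e + 1)) K,
      A = Matrix.of fun k j => a (τ k) j := ⟨_, rfl⟩
    have hA0 : A.det ≠ 0 := by
      rw [hA]
      exact h.gen τ hτi
    have hdetF : ∀ B : Matrix (Fin (e + 1)) (Fin (e + 1)) K, (∀ i j, B i j ∈ F) → B.det ∈ F := by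
      intro B hB
      rw [Matrix.det_apply]
      refine sum_mem fun σ _ => ?_
      rw [Units.smul_def]
      exact zsmul_mem (prod_mem fun i _ => hB _ _) _
    have hAF : ∀ i j, A i j ∈ F := fun i j => by
      rw [hA]
      exact haF _ _
    have hadj : ∀ i j, A.adjugate i j ∈ F := by
      intro i j
      rw [Matrix.adjugate_apply]
      refine hdetF _ fun r s => ?_
      rw [Matrix.updateRow_apply]
      split_ifs
      · rw [Pi.single_apply]
        split_ifs
        · exact one_mem F
        · exact zero_mem F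
      · exact hAF _ _
    obtain ⟨z, hz⟩ : ∃ z : Fin (e + 1) → K, z = Fin.cons 1 x := ⟨_, rfl⟩
    have h2 : A.mulVec z = p := by
      funext b
      rw [hp, ← hτ, hA, hz]
      rfl
    have h3 : A.det • z = A.adjugate.mulVec p := by
      rw [← h2, Matrix.mulVec_mulVec, Matrix.adjugate_mul, Matrix.smul_mulVec,
        Matrix.one_mulVec]
    have hzF : ∀ j, z j / p 0 ∈ F := by
      intro j
      have h4 := congrFun h3 j
      rw [Pi.smul_apply, smul_eq_mul] at h4
      have h5 : z j / p 0 = (A.det)⁻¹ * ∑ b, A.adjugate j b * (p b / p 0) := by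
        have h6 : ∑ b, A.adjugate j b * (p b / p 0) = (A.adjugate.mulVec p) j / p 0 := by
          change _ = (∑ b, A.adjugate j b * p b) / p 0
          rw [Finset.sum_div]
          exact Finset.sum_congr rfl fun b _ => by ring
        rw [h6, ← h4]
        field_simp
      rw [h5]
      exact mul_mem (inv_mem (hdetF A hAF)) (sum_mem fun b _ => mul_mem (hadj _ _) (hpF b))
    have hp0F : p 0 ∈ F := by
      have h4 := hzF 0
      rw [hz, Fin.cons_zero] at h4
      have h5 : p 0 = (1 / p 0)⁻¹ := by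
        rw [one_div, inv_inv]
      rw [h5]
      exact inv_mem h4
    intro j
    rw [← hFm]
    have h4 := hzF j.succ
    rw [hz, Fin.cons_succ] at h4
    have h5 : x j = x j / p 0 * p 0 := by
      have := hp0 0
      field_simp
    rw [h5]
    exact mul_mem h4 hp0F

end Pool.Agent.TH585.SV
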