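import Pool.Agent.TH585.SV.Blk
import Pool.Agent.TH152.HY.SubGT
import Pool.Agent.TH766.MC.Wts

/-!
The orders of the generalised Wronskians with a first block, and of the pluricanonical forms.
-/

set_option autoImplicit false

open FF Pool.Agent.W603.LV Pool.Agent.W602.GT Pool.Agent.W602.Cov Pool.Agent.W602.Cov.G
open Pool.Agent.W168.CG.PGR Pool.Agent.TH152.AC Pool.Agent.TH152.HY Pool.Agent.TH766.MC

namespace Pool.Agent.TH585.SV

variable {d k n q : ℕ} {K : Type} [Field K] [Algebra ℂ K]

theorem ge_det' {ι : Type} [Fintype ι] [DecidableEq ι] (P : Place ℂ K) (M : Matrix ι ι K) (L : ℤ)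
    (e : ι → ι → ℤ) (hM : ∀ i j, Ge P (e i j) (M i j))
    (hL : ∀ σ : Equiv.Perm ι, L ≤ ∑ i, e (σ i) i) : Ge P L M.det := by
  rw [Matrix.det_apply']
  refine Ge.sum _ _ fun σ _ => ?_
  have h1 := (Ge.intCast (P := P) (Equiv.Perm.sign σ : ℤ)).mul
    (Ge.prod Finset.univ (fun i => M (σ i) i) (fun i => e (σ i) i) (fun i _ => hM _ _))
  exact h1.mono (by rw [zero_add]; exact hL σ)

/-- a regular vector field which is logarithmic on the uniformizer is logarithmic -/
theorem log_of_reg {P : Place ℂ K} {D : Derivation ℂ K K} (hD : DerReg P D) {π : K}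
    (hπ : P.ord π = 1) (h : Ge P 0 (D π / π)) : DerLog P D := by
  intro f
  by_cases hf : f = 0
  · rw [hf, map_zero, zero_div]
    exact P.reg_zero
  · obtain ⟨u, hu, hu0, -, e⟩ := logder_eq P D hπ hf
    rw [e, reg_iff_ge]
    refine Ge.add (ge_logder_reg hD hu hu0) ?_
    simpa using (Ge.intCast (P := P) (P.ord f)).mul h

/-- the operators of the rows -/
noncomputable def rl (D : Fin d → Derivation ℂ K K) (g : Fin q → K)
    (S : Fin k → List (Letter d q)) : Fin (d + 1) ⊕ Fin k → K →ₗ[ℂ] K :=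
  Sum.elim (fun i => Fin.cases LinearMap.id (fun l => ((D l : Derivation ℂ K K) : K →ₗ[ℂ] K)) i)
    (fun a => wd D g (S a))

theorem rl_zero (D : Fin d → Derivation ℂ K K) (g : Fin q → K) (S : Fin k → List (Letter d q))
    (f : K) : rl D g S (Sum.inl 0) f = f := rfl

theorem rl_succ (D : Fin d → Derivation ℂ K K) (g : Fin q → K) (S : Fin k → List (Letter d q))
    (l : Fin d) (f : K) : rl D g S (Sum.inl l.succ) f = D l f := rfl

theorem rl_inr (D : Fin d → Derivation ℂ K K) (g : Fin q → K) (S : Fin k → List (Letter d q))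
    (a : Fin k) (f : K) : rl D g S (Sum.inr a) f = wd D g (S a) f := rfl

/-- the determinant of the rows -/
noncomputable def pw (e : Fin (d + 1) ⊕ Fin k ≃ Fin (n + 1)) (D : Fin d → Derivation ℂ K K)
    (g : Fin q → K) (x : Fin (n + 1) → K) (S : Fin k → List (Letter d q)) : K :=
  (Matrix.of fun a b : Fin (d + 1) ⊕ Fin k => rl D g S a (x (e b))).det

theorem phi_eq_pw (e : Fin (d + 1) ⊕ Fin k ≃ Fin (n + 1)) (D : Fin d → Derivation ℂ K K)
    (g : Fin q → K) (x : Fin (n + 1) → K) (S : Fin k → List (Letter d q)) :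
    phi e D x (fun a => wv D g x (S a)) = pw e D g x S := by
  unfold phi dt pw
  congr 1
  ext a b
  rcases a with i | a
  · refine Fin.cases ?_ (fun l => ?_) i <;> rfl
  · rfl

theorem pw_change {e : Fin (d + 1) ⊕ Fin k ≃ Fin (n + 1)} {D : Fin d → Derivation ℂ K K}
    {g : Fin q → K} {x : Fin (n + 1) → K} {S : Fin k → List (Letter d q)} (hS : MinW e D g x S)
    (A : Matrix (Fin d) (Fin d) K) :
    pw e (fun i => ∑ j, A i j • D j) g x S = A.det ^ (1 + ∑ a, (S a).length) * pw e D g x S := by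
  rw [← phi_eq_pw, ← phi_eq_pw, phi_wv_change hS]

/-- the coordinates given by a basis -/
theorem pw_basis {ℓ : Fin q → Form n} (e : Fin (d + 1) ⊕ Fin k ≃ Fin (n + 1))
    (D : Fin d → Derivation ℂ K K) (g : Fin q → K) (x : Fin (n + 1) → K)
    (S : Fin k → List (Letter d q)) (B : Bases ℓ) :
    ∃ c : ℂ, c ≠ 0 ∧ pw e D g (fun b => lf (ℓ (B.1 b)) x) S = algebraMap ℂ K c * pw e D g x S := by
  obtain ⟨c, hc⟩ : ∃ c : Matrix (Fin (n + 1)) (Fin (n + 1)) ℂ,
    c = Matrix.of fun a j : Fin (n + 1) => ℓ (B.1 a) (Pi.single j 1) := ⟨_, rfl⟩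
  refine ⟨c.det, ?_, ?_⟩
  · rw [hc]
    exact det_ne_zero (m := fun a => ℓ (B.1 a)) B.2
  · have h1 : (Matrix.of fun a b : Fin (d + 1) ⊕ Fin k => rl D g S a (lf (ℓ (B.1 (e b))) x)) =
        (Matrix.of fun a b : Fin (d + 1) ⊕ Fin k => rl D g S a (x (e b))) *
          ((c.submatrix e e).map (algebraMap ℂ K)).transpose := by
      ext a b
      rw [Matrix.mul_apply, Matrix.of_apply, lf_eq_smul, map_sum]
      rw [← Equiv.sum_comp e]
      refine Finset.sum_congr rfl fun j _ => ?_
      rw [map_smul, Algebra.smul_def, mul_comm, hc]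
      rfl
    unfold pw
    rw [h1, Matrix.det_mul, Matrix.det_transpose, mul_comm]
    congr 1
    rw [← Matrix.det_submatrix_equiv_self e c]
    exact (RingHom.map_det (algebraMap ℂ K) (c.submatrix e e)).symm

/-- the loss of a row -/
def ls (l0 : Fin d) (S : Fin k → List (Letter d q)) : Fin (d + 1) ⊕ Fin k → ℤ :=
  Sum.elim (fun i => if i = l0.succ then 1 else 0) (fun a => (S a).length)

theorem sum_ls (l0 : Fin d) (S : Fin k → List (Letter d q)) :
    ∑ a, ls l0 S a = 1 + ∑ a, ((S a).length : ℤ) := by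
  rw [Fintype.sum_sum_type]
  simp [ls]

/-- logarithmic vector fields -/
theorem ge_pw_log {P : Place ℂ K} {D : Fin d → Derivation ℂ K K} (hD : ∀ i, DerLog P (D i))
    {g : Fin q → K} (hg : ∀ i, g i ≠ 0) (e : Fin (d + 1) ⊕ Fin k ≃ Fin (n + 1))
    (y : Fin (n + 1) → K) (S : Fin k → List (Letter d q)) :
    Ge P (∑ b, P.ord (y b)) (pw e D g y S) := by
  refine ge_det' P _ _ (fun _ b => P.ord (y (e b))) (fun a b => ?_) fun σ => ?_
  · change Ge P _ (rl D g S a (y (e b)))
    rcases a with i | a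
    · refine Fin.cases ?_ (fun l => ?_) i
      · exact Pool.Agent.W602.GT.ge_ord P _
      · rw [rl_succ]
        by_cases h0 : y (e b) = 0
        · rw [h0, map_zero]
          exact Ge.zero
        · have h1 := (Pool.Agent.W602.GT.ge_ord P (y (e b))).mul (hD l (y (e b)))
          rw [mul_div_cancel₀ _ h0, add_zero] at h1
          exact h1
    · rw [rl_inr]
      have h1 := ge_wd (P := P) (D := D) hg (e := 0) (fun f hf => by
        have := bw_ge_log P D f hD hf
        simpa using this) (S a) (Pool.Agent.W602.GT.ge_ord P (y (e b)))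
      simpa using h1
  · exact (Equiv.sum_comp e fun b => P.ord (y b)).ge

/-- **Regular vector fields**: the first block loses only `1`. -/
theorem ge_pw_reg {P : Place ℂ K} {D : Fin d → Derivation ℂ K K} (hD : ∀ i, DerReg P (D i))
    {g : Fin q → K} (hg : ∀ i, g i ≠ 0) (e : Fin (d + 1) ⊕ Fin k ≃ Fin (n + 1))
    (y : Fin (n + 1) → K) (hy : ∀ b, y b ≠ 0) (S : Fin k → List (Letter d q)) :
    Ge P ((∑ b, P.ord (y b)) - (1 + ∑ a, ((S a).length : ℤ))) (pw e D g y S) := by
  classical
  obtain ⟨π, hπ0, hπ⟩ := P.surj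
  by_cases hall : ∀ l, Ge P 0 (D l π / π)
  · refine (ge_pw_log (fun l => log_of_reg (hD l) hπ (hall l)) hg e y S).mono ?_
    have : (0 : ℤ) ≤ ∑ a, ((S a).length : ℤ) := by positivity
    linarith
  · push Not at hall
    obtain ⟨l0, hl0⟩ := hall
    have hρge : ∀ l, Ge P (-1) (D l π / π) := by
      intro l
      have := ge_div hπ0 (hD l π (Or.inr (by omega)))
      rw [hπ] at this
      simpa using this
    have hρ0 : D l0 π / π ≠ 0 := fun h => hl0 (Or.inl h)
    have hρ1 : P.ord (D l0 π / π) = -1 := by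
      rcases hρge l0 with h | h
      · exact absurd h hρ0
      · by_contra hne
        apply hl0
        right
        omega
    obtain ⟨c, hc⟩ : ∃ c : Fin d → K, ∀ l, c l = (D l π / π) / (D l0 π / π) :=
      ⟨fun l => (D l π / π) / (D l0 π / π), fun _ => rfl⟩
    have hcge : ∀ l, Ge P 0 (c l) := by
      intro l
      have h1 := ge_div hρ0 (hρge l)
      rw [hρ1] at h1
      rw [hc]
      simpa using h1
    have hlog : ∀ l, DerLog P (D l - c l • D l0) := by
      intro l
      refine log_of_reg (fun f hf => ?_) hπ ?_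
      · rw [Derivation.sub_apply, Derivation.smul_apply, smul_eq_mul, reg_iff_ge]
        have h1 := (hcge l).mul (hD l0 f hf)
        rw [zero_add] at h1
        exact Ge.sub (hD l f hf) h1
      · left
        rw [Derivation.sub_apply, Derivation.smul_apply, smul_eq_mul, hc]
        have h2 : D l0 π ≠ 0 := fun h => hρ0 (by rw [h, zero_div])
        field_simp
        ring
    let cc : Fin (d + 1) ⊕ Fin k → K := Sum.elim (fun i => Fin.cases 0
      (fun l => if l = l0 then 0 else c l) i) (fun _ => 0)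
    have hcc0 : cc (Sum.inl 0) = 0 := rfl
    have hccs : ∀ l : Fin d, cc (Sum.inl l.succ) = if l = l0 then 0 else c l := fun _ => rfl
    have hccr : ∀ a : Fin k, cc (Sum.inr a) = 0 := fun _ => rfl
    have hk : cc (Sum.inl l0.succ) = 0 := by rw [hccs, if_pos rfl]
    obtain ⟨N, hN⟩ : ∃ N : Matrix (Fin (d + 1) ⊕ Fin k) (Fin (d + 1) ⊕ Fin k) K,
        ∀ a b, N a b = rl D g S a (y (e b)) - cc a * rl D g S (Sum.inl l0.succ) (y (e b)) :=
      ⟨Matrix.of fun a b => rl D g S a (y (e b)) -
        cc a * rl D g S (Sum.inl l0.succ) (y (e b)), fun _ _ => rfl⟩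
    have hdet : pw e D g y S = N.det := by
      unfold pw
      refine Matrix.det_eq_of_forall_row_eq_smul_add_const cc (Sum.inl l0.succ) hk fun a b => ?_
      rw [hN, hN, hk, Matrix.of_apply]
      ring
    rw [hdet]
    refine ge_det' P _ _ (fun a b => P.ord (y (e b)) - ls l0 S a) (fun a b => ?_) fun σ => ?_
    · rw [hN]
      rcases a with i | a
      · refine Fin.cases ?_ (fun l => ?_) i
        · rw [hcc0, zero_mul, sub_zero, rl_zero]
          have h1 : ls l0 S (Sum.inl 0) = 0 := by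
            change (if (0 : Fin (d + 1)) = l0.succ then (1 : ℤ) else 0) = 0
            exact if_neg (Fin.succ_ne_zero l0).symm
          rw [h1, sub_zero]
          exact Pool.Agent.W602.GT.ge_ord P _
        · rw [hccs, rl_succ, rl_succ]
          by_cases hl : l = l0
          · subst hl
            have h1 : ls l S (Sum.inl l.succ) = 1 := by
              change (if l.succ = l.succ then (1 : ℤ) else 0) = 1
              exact if_pos rfl
            rw [if_pos rfl, zero_mul, sub_zero, h1]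
            have h2 := ge_div (hy (e b)) (Pool.Agent.W602.GT.ge_ord P (D l (y (e b))))
            -- logarithmic derivatives have order at least `-1`
            obtain ⟨u, hu, hu0, -, e1⟩ := logder_eq P (D l) hπ (hy (e b))
            have h3 : Ge P (-1) (D l (y (e b)) / y (e b)) := by
              rw [e1]
              refine Ge.add ((ge_logder_reg (hD l) hu hu0).mono (by omega)) ?_
              simpa using (Ge.intCast (P := P) (P.ord (y (e b)))).mul (hρge l)
            have h4 := (Pool.Agent.W602.GT.ge_ord P (y (e b))).mul h3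
            rw [mul_div_cancel₀ _ (hy (e b))] at h4
            exact h4
          · have h1 : ls l0 S (Sum.inl l.succ) = 0 :=
              if_neg fun h => hl (Fin.succ_injective _ h)
            rw [if_neg hl, h1, sub_zero]
            have h4 := (Pool.Agent.W602.GT.ge_ord P (y (e b))).mul (hlog l (y (e b)))
            rw [mul_div_cancel₀ _ (hy (e b)), add_zero, Derivation.sub_apply,
              Derivation.smul_apply, smul_eq_mul] at h4
            exact h4
      · rw [hccr, zero_mul, sub_zero, rl_inr]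
        have h1 := ge_wd (P := P) (D := D) hg (e := 1) (fun f hf => by
          exact_mod_cast (bwb d K).1 P D f hD hf) (S a) (Pool.Agent.W602.GT.ge_ord P (y (e b)))
        simpa [ls] using h1
    · rw [Finset.sum_sub_distrib, Equiv.sum_comp σ (fun a => ls l0 S a), sum_ls,
        Equiv.sum_comp e fun b => P.ord (y b)]

/-- words and scalars -/
theorem op_scale (D : Fin d → Derivation ℂ K K) (g : Fin q → K) (I : Letter d q) {lam : K}
    (hlam : lam ≠ 0) (f : K) : op D (fun i => lam * g i) I (lam * f) = lam * op D g I f := by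
  classical
  rw [op_apply, op_apply]
  have h1 : Function.update (fun j => lam * g (I.1 j)) I.2 (lam * f) =
      fun j => lam * Function.update (fun j => g (I.1 j)) I.2 f j := by
    funext j
    by_cases hj : j = I.2
    · subst hj
      simp
    · simp [hj]
  have h2 : oth (fun i => lam * g i) I = lam ^ d * oth g I := by
    unfold oth
    rw [Finset.prod_mul_distrib, Finset.prod_const, Finset.card_erase_of_mem (Finset.mem_univ _),
      Finset.card_univ, Fintype.card_fin, Nat.add_sub_cancel]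
  rw [h1, (bwa d K).1 D, h2, pow_succ, mul_assoc, mul_div_mul_left _ _ (pow_ne_zero _ hlam),
    mul_div_assoc]

theorem wd_scale (D : Fin d → Derivation ℂ K K) (g : Fin q → K) (w : List (Letter d q)) {lam : K}
    (hlam : lam ≠ 0) (f : K) : wd D (fun i => lam * g i) w (lam * f) = lam * wd D g w f := by
  induction w with
  | nil => rfl
  | cons I w ih =>
    change op D (fun i => lam * g i) I (wd D (fun i => lam * g i) w (lam * f)) = _
    rw [ih, op_scale D g I hlam]
    rfl

theorem pw_scale (e : Fin (d + 1) ⊕ Fin k ≃ Fin (n + 1)) (D : Fin d → Derivation ℂ K K)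
    (g : Fin q → K) (y : Fin (n + 1) → K) (S : Fin k → List (Letter d q)) {lam : K}
    (hlam : lam ≠ 0) :
    pw e D (fun i => lam * g i) (fun b => lam * y b) S = lam ^ (n + 1) * pw e D g y S := by
  classical
  have hcard : Fintype.card (Fin (d + 1) ⊕ Fin k) = n + 1 := by
    rw [Fintype.card_congr e, Fintype.card_fin]
  let cc : Fin (d + 1) ⊕ Fin k → K := Sum.elim (fun i => Fin.cases 0
    (fun l => D l lam / lam) i) (fun _ => 0)
  have h1 : pw e D (fun i => lam * g i) (fun b => lam * y b) S =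
      (lam • Matrix.of fun a b : Fin (d + 1) ⊕ Fin k => rl D g S a (y (e b))).det := by
    unfold pw
    refine Matrix.det_eq_of_forall_row_eq_smul_add_const cc (Sum.inl 0) rfl fun a b => ?_
    rw [Matrix.of_apply, Matrix.smul_apply, Matrix.smul_apply, Matrix.of_apply, Matrix.of_apply,
      smul_eq_mul, smul_eq_mul, rl_zero]
    rcases a with i | a
    · refine Fin.cases ?_ (fun l => ?_) i
      · rw [rl_zero, rl_zero]
        have : cc (Sum.inl 0) = 0 := rfl
        rw [this]
        ring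
      · rw [rl_succ, rl_succ]
        have : cc (Sum.inl l.succ) = D l lam / lam := rfl
        rw [this, (D l).leibniz, smul_eq_mul, smul_eq_mul]
        field_simp
    · rw [rl_inr, rl_inr, wd_scale D g _ hlam]
      have : cc (Sum.inr a) = 0 := rfl
      rw [this]
      ring
  rw [h1, Matrix.det_smul, hcard]
  rfl

/-- places where all forms have the same order -/
theorem ge_pw_unit {P : Place ℂ K} {D : Fin d → Derivation ℂ K K} (hD : ∀ i, DerReg P (D i))
    {g : Fin q → K} (hg : ∀ i, g i ≠ 0) {a : ℤ} (ha : ∀ i, P.ord (g i) = a)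
    (e : Fin (d + 1) ⊕ Fin k ≃ Fin (n + 1)) {y : Fin (n + 1) → K} (hy : ∀ b, Ge P a (y b))
    (S : Fin k → List (Letter d q)) : Ge P ((n + 1) * a) (pw e D g y S) := by
  obtain ⟨π, hπ0, hπ⟩ := P.surj
  have hlam : π ^ (-a) ≠ 0 := zpow_ne_zero _ hπ0
  have hordlam : P.ord (π ^ (-a)) = -a := by rw [P.ord_zpow, hπ, mul_one]
  have h3 : ∀ b, Ge P 0 (π ^ (-a) * y b) := by
    intro b
    have := (Pool.Agent.W602.GT.ge_ord P (π ^ (-a))).mul (hy b)
    rw [hordlam] at this
    simpa using this
  have h4 : Ge P 0 (pw e D (fun i => π ^ (-a) * g i) (fun b => π ^ (-a) * y b) S) := by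
    refine ge_det' P _ _ (fun _ _ => 0) (fun a' b => ?_) fun σ => by simp
    change Ge P 0 (rl D (fun i => π ^ (-a) * g i) S a' (π ^ (-a) * y (e b)))
    rcases a' with i | a'
    · refine Fin.cases ?_ (fun l => ?_) i
      · exact h3 _
      · exact hD l _ (h3 _)
    · rw [rl_inr]
      refine ge_wd_unit (fun i => mul_ne_zero hlam (hg i)) (a := 0) (fun i => ?_)
        (fun f hf => (bwb d K).2.1 P D f hD hf) (S a') (h3 _)
      rw [P.ord_mul hlam (hg i), hordlam, ha]
      ring
  rw [pw_scale e D g y S hlam] at h4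
  have h5 := Ge.of_mul (pow_ne_zero _ hlam) h4
  rw [P.ord_pow, hordlam] at h5
  refine h5.mono (le_of_eq ?_)
  push_cast
  ring

/-- the pluricanonical form -/
noncomputable def sg (ℓ : Fin q → Form n) (x : Fin (n + 1) → K) (p : Bases ℓ → ℕ) (t : ℕ)
    (e : Fin (d + 1) ⊕ Fin k ≃ Fin (n + 1)) (S : Fin k → List (Letter d q))
    (D : Fin d → Derivation ℂ K K) : K :=
  pw e D (fun i => lf (ℓ i) x) x S ^ (t * ∑ B, p B) / den ℓ x p t

/-- the order of the form -/
theorem sg_ord {ℓ : Fin q → Form n} {Fa : Finset (Fin q) → Prop} {R : ℕ} {p : Bases ℓ → ℕ}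
    (hp : Wt ℓ Fa R p) (hspan : Submodule.span ℂ (Set.range ℓ) = ⊤) (t : ℕ) {x : Fin (n + 1) → K}
    (hx : ∀ i, lf (ℓ i) x ≠ 0) (P : Place ℂ K) (i0 : Fin q)
    (e : Fin (d + 1) ⊕ Fin k ≃ Fin (n + 1)) (S : Fin k → List (Letter d q))
    {D : Fin d → Derivation ℂ K K} (hD : ∀ i, DerReg P (D i)) :
    ∃ (a : ℤ) (v : Fin q → ℕ), (∃ i, v i = 0) ∧ (∀ i, P.ord (lf (ℓ i) x) = a + v i) ∧
      (∀ j, Ge P a (x j)) ∧
      ∃ c : ℤ, Ge P c (sg ℓ x p t e S D) ∧ (v = 0 → 0 ≤ c) ∧
      ∀ v', Dec ℓ Fa v v' → ∀ i, (t * (∑ B, p B) * v' i : ℤ) ≤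
        R * (c + ((1 + ∑ a, (S a).length : ℕ) : ℤ) * (t * ∑ B, (p B : ℤ))) := by
  obtain ⟨i1, -, hmin⟩ := Finset.exists_min_image Finset.univ (fun i => P.ord (lf (ℓ i) x))
    ⟨i0, Finset.mem_univ _⟩
  obtain ⟨a, ha⟩ : ∃ a, a = P.ord (lf (ℓ i1) x) := ⟨_, rfl⟩
  let v : Fin q → ℕ := fun i => (P.ord (lf (ℓ i) x) - a).toNat
  have hvi : ∀ i, P.ord (lf (ℓ i) x) = a + v i := by
    intro i
    have h3 := hmin i (Finset.mem_univ i)
    have h4 : (v i : ℤ) = P.ord (lf (ℓ i) x) - a := by
      show (((P.ord (lf (ℓ i) x) - a).toNat : ℕ) : ℤ) = _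
      rw [Int.toNat_of_nonneg]
      rw [ha]
      linarith
    rw [h4]
    ring
  have hi1 : v i1 = 0 := by
    have := hvi i1
    omega
  have hxj : ∀ j, Ge P a (x j) := by
    intro j
    have h3 := ge_span P a (Set.range ℓ) x (by
      rintro _ ⟨i, rfl⟩
      right
      rw [hvi i]
      have : (0 : ℤ) ≤ v i := by positivity
      linarith) (LinearMap.proj j) (by rw [hspan]; trivial)
    rwa [lf_proj] at h3
  refine ⟨a, v, ⟨i1, hi1⟩, hvi, hxj, ?_⟩
  have hden : P.ord (den ℓ x p t) = t * (∑ B, (p B : ℤ)) * ((n + 1) * a) +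
      t * ∑ B, (p B : ℤ) * ∑ b, (v (B.1 b) : ℤ) := by
    rw [ord_den P hx p t]
    simp only [hvi, Finset.sum_add_distrib, Finset.sum_const, Finset.card_univ, Fintype.card_fin,
      nsmul_eq_mul, mul_add]
    rw [← Finset.sum_mul]
    push_cast
    ring
  by_cases hv0 : v = 0
  · have h1 := (ge_pw_unit (P := P) hD (g := fun i => lf (ℓ i) x) hx (a := a)
      (fun i => by rw [hvi i, hv0]; simp) e hxj S).pow (t * ∑ B, p B)
    have h2 := ge_div (den_ne hx p t) h1
    rw [hden, hv0] at h2
    refine ⟨0, h2.mono (le_of_eq ?_), fun _ => le_rfl, fun v' hv' i => ?_⟩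
    · push_cast
      simp only [Pi.zero_apply, Nat.cast_zero, Finset.sum_const_zero, mul_zero, add_zero]
      ring
    · obtain ⟨B', -, hB'⟩ := orders2 hp (exists_bases hspan) v
      have h6 := hB' v' hv' i
      rw [hv0] at h6
      simp only [Pi.zero_apply, Finset.sum_const_zero, mul_zero, zero_add, nonpos_iff_eq_zero,
        mul_eq_zero] at h6
      rcases h6 with h6 | h6
      · exact absurd h6 hp.1.ne'
      · rw [h6]
        simp only [Nat.cast_zero, mul_zero]
        positivity
  · obtain ⟨B', -, hB'⟩ := orders2 hp (exists_bases hspan) v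
    obtain ⟨c0, hc00, hc0⟩ := pw_basis (ℓ := ℓ) e D (fun i => lf (ℓ i) x) x S B'
    have h3 := ge_pw_reg (P := P) hD (g := fun i => lf (ℓ i) x) hx e
      (fun b => lf (ℓ (B'.1 b)) x) (fun b => hx _) S
    rw [hc0] at h3
    have h4 := (Ge.const (P := P) c0⁻¹).mul h3
    rw [← mul_assoc, ← map_mul, inv_mul_cancel₀ hc00, map_one, one_mul, zero_add] at h4
    have h5 := ge_div (den_ne hx p t) (h4.pow (t * ∑ B, p B))
    rw [hden] at h5
    refine ⟨_, h5, fun h => absurd h hv0, fun v' hv' i => ?_⟩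
    have h6 : (R : ℤ) * (∑ B, (p B : ℤ) * ∑ a, (v (B.1 a) : ℤ)) +
        (∑ B, (p B : ℤ)) * v' i ≤ R * ((∑ B, (p B : ℤ)) * ∑ a, (v (B'.1 a) : ℤ)) := by
      exact_mod_cast hB' v' hv' i
    have h7 := mul_le_mul_of_nonneg_left h6 (by positivity : (0 : ℤ) ≤ t)
    simp only [hvi, Finset.sum_add_distrib, Finset.sum_const, Finset.card_univ, Fintype.card_fin,
      nsmul_eq_mul]
    push_cast
    nlinarith [h7]

end Pool.Agent.TH585.SV
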