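import Pool.Agent.TH585.SV.Ord
import Pool.Agent.TH766.MC.Irr

/-!
Pairs on varieties with a map to projective space which is generically finite onto its image.
-/

set_option autoImplicit false

open FF Module Pool.Agent.W603.LV Pool.Agent.W602.GT Pool.Agent.W602.Cov Pool.Agent.W602.Cov.G
open Pool.Agent.W168.CG.PGR Pool.Agent.TH152.AC Pool.Agent.TH152.HY Pool.Agent.TH766.MC

namespace Pool.Agent.TH585.SV

variable {d k n q c : ℕ} {ℓ : Fin q → Form n} {γ : Fin q → Fin c} {K : Type} [Field K] [Algebra ℂ K]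

/-- algebraically independent ratios inside the blocks -/
theorem indep_v (B0 : Bases ℓ) {x : Fin (n + 1) → K} (hlx : ∀ i, lf (ℓ i) x ≠ 0)
    (σ : Fin (d + 1) → Fin (n + 1))
    (hbas : IsTranscendenceBasis ℂ (fun j : Fin d => x (σ j.succ) / x (σ 0)))
    (rr : Fin c → Fin (n + 1)) (hrr : ∀ j, γ (B0.1 (rr j)) = j) {h : ℕ} (hh : h + c = d + 1) :
    ∃ ι : Fin h → Fin (n + 1), AlgebraicIndependent ℂ fun i =>
      lf (ℓ (B0.1 (ι i))) x / lf (ℓ (B0.1 (rr (γ (B0.1 (ι i)))))) x := by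
  classical
  set X : Fin (n + 1) → K := fun a => lf (ℓ (B0.1 a)) x with hX
  have hX0 : ∀ a, X a ≠ 0 := fun a => hlx _
  set r : Fin (n + 1) → Fin (n + 1) := fun a => rr (γ (B0.1 a)) with hr
  have hrrr : ∀ j, r (rr j) = rr j := fun j => by simp only [hr, hrr]
  have hr2 : ∀ a, r (r a) = r a := fun a => hrrr _
  set a0 : Fin (n + 1) := r 0 with ha0
  have hra0 : r a0 = a0 := hr2 0
  let f : {a // a ≠ a0} → K := fun a => if r a = a then X a / X a0 else X a / X (r a)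
  set E := IntermediateField.adjoin ℂ (Set.range f) with hE
  have hE1' : ∀ a, r a = a → X a / X a0 ∈ E := by
    intro a ha
    by_cases haa : a = a0
    · rw [haa, div_self (hX0 _)]
      exact one_mem _
    · have h1 : f ⟨a, haa⟩ ∈ E := IntermediateField.subset_adjoin ℂ _ ⟨_, rfl⟩
      simp only [f, if_pos ha] at h1
      exact h1
  have hE1 : ∀ a, X a / X a0 ∈ E := by
    intro a
    by_cases ha : r a = a
    · exact hE1' a ha
    · have haa : a ≠ a0 := by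
        rintro rfl
        exact ha hra0
      have h1 : f ⟨a, haa⟩ ∈ E := IntermediateField.subset_adjoin ℂ _ ⟨_, rfl⟩
      simp only [f, if_neg ha] at h1
      have h2 := mul_mem h1 (hE1' (r a) (hr2 a))
      rwa [div_mul_div_cancel₀ (hX0 _)] at h2
  have hE2 : ∀ φ : Form n, lf φ x / X a0 ∈ E := by
    intro φ
    have hφ : φ ∈ Submodule.span ℂ (Set.range (bas B0)) := by
      rw [(bas B0).span_eq]; trivial
    induction hφ using Submodule.span_induction with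
    | mem φ hφ =>
      obtain ⟨a, rfl⟩ := hφ
      rw [bas_apply]
      exact hE1 a
    | zero => rw [lf_zero, zero_div]; exact zero_mem _
    | add φ ψ _ _ h1 h2 => rw [lf_add, add_div]; exact add_mem h1 h2
    | smul c φ _ h1 =>
      rw [lf_smul, mul_div_assoc]
      exact mul_mem (E.algebraMap_mem c) h1
  have hE3 : ∀ j, x j / X a0 ∈ E := fun j => by
    have := hE2 (LinearMap.proj j)
    rwa [lf_proj] at this
  have hle : Algebra.adjoin ℂ (Set.range fun j : Fin d => x (σ j.succ) / x (σ 0)) ≤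
      E.toSubalgebra := by
    rw [Algebra.adjoin_le_iff]
    rintro _ ⟨j, rfl⟩
    have h1 := div_mem (hE3 (σ j.succ)) (hE3 (σ 0))
    rwa [div_div_div_cancel_right₀ (hX0 _)] at h1
  have halg : Algebra.IsAlgebraic E K := by
    have h1 := hbas.isAlgebraic
    constructor
    intro z
    have h2 := h1.isAlgebraic z
    obtain ⟨P, hP0, hP⟩ := h2
    refine ⟨P.map (Subalgebra.inclusion hle).toRingHom, ?_, ?_⟩
    · rw [Ne, Polynomial.map_eq_zero_iff]
      · exact hP0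
      · exact Subalgebra.inclusion_injective hle
    · rw [Polynomial.aeval_def, Polynomial.eval₂_map]
      rw [Polynomial.aeval_def] at hP
      exact hP
  have halg2 : Algebra.IsAlgebraic (Algebra.adjoin ℂ (Set.range f)) K := alg_adjoin halg
  have htr : Algebra.trdeg ℂ K = d := trdeg_of_basis hbas
  obtain ⟨T, hTf, hT⟩ := exists_isTranscendenceBasis_subset (R := ℂ) (Set.range f)
  have hTcard : Cardinal.mk T = d := by
    rw [hT.cardinalMk_eq_trdeg, htr]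
  have hTfin : Finite T := by
    rw [← Cardinal.lt_aleph0_iff_finite, hTcard]
    exact Cardinal.natCast_lt_aleph0
  let _ : Fintype T := Fintype.ofFinite T
  have hTc : Fintype.card T = d := by
    have := hTcard
    rw [Cardinal.mk_fintype] at this
    exact_mod_cast this
  choose b hb using fun t : T => hTf t.2
  -- the elements of the second kind
  have hcard1 : Fintype.card {a : Fin (n + 1) // r a = a} = c := by
    rw [← Fintype.card_fin c]
    refine Fintype.card_congr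
      { toFun := fun a => γ (B0.1 a)
        invFun := fun j => ⟨rr j, hrrr j⟩
        left_inv := fun a => Subtype.ext a.2
        right_inv := fun j => hrr j }
  have hcard2 : Fintype.card {a : Fin (n + 1) // r a = a ∧ a ≠ a0} + 1 = c := by
    rw [← hcard1, Fintype.card_subtype, Fintype.card_subtype]
    have e1 : (Finset.univ.filter fun a => r a = a ∧ a ≠ a0) =
        (Finset.univ.filter fun a => r a = a).erase a0 := by
      ext a
      simp only [Finset.mem_filter, Finset.mem_univ, true_and, Finset.mem_erase]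
      exact and_comm
    rw [e1]
    exact Finset.card_erase_add_one (Finset.mem_filter.2 ⟨Finset.mem_univ _, hra0⟩)
  have hbinj : Function.Injective b := by
    intro t t' h
    apply Subtype.ext
    rw [← hb t, ← hb t', h]
  have hcard3 : Fintype.card {t : T // r (b t).1 = (b t).1} + 1 ≤ c := by
    rw [← hcard2]
    refine Nat.add_le_add_right (Fintype.card_le_of_injective
      (fun t : {t : T // r (b t).1 = (b t).1} =>
        (⟨(b t.1).1, t.2, (b t.1).2⟩ : {a : Fin (n + 1) // r a = a ∧ a ≠ a0})) ?_) 1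
    intro t t' h
    have h1 : (b t.1).1 = (b t'.1).1 :=
      congrArg (fun z : {a : Fin (n + 1) // r a = a ∧ a ≠ a0} => z.1) h
    exact Subtype.ext (hbinj (Subtype.ext h1))
  have hcard4 : h ≤ Fintype.card {t : T // ¬ r (b t).1 = (b t).1} := by
    rw [Fintype.card_subtype_compl, hTc]
    omega
  obtain ⟨e⟩ : Nonempty (Fin h ↪ {t : T // ¬ r (b t).1 = (b t).1}) := by
    refine Function.Embedding.nonempty_of_card_le ?_
    rw [Fintype.card_fin]
    exact hcard4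
  refine ⟨fun i => (b (e i).1).1, ?_⟩
  have hind : AlgebraicIndependent ℂ (fun i : Fin h => (((e i).1 : T) : K)) :=
    hT.1.comp (fun i : Fin h => (e i).1) fun i i' hii => e.injective (Subtype.ext hii)
  convert hind using 2 with i
  rw [← hb (e i).1]
  simp only [f, if_neg (e i).2]
  rfl

/-- the multiplicities over the arrangement -/
def HighV (d : ℕ) (ℓ : Fin q → Form n) (γ : Fin q → Fin c) (x : Fin (n + 1) → K)
    (X : Set (Place ℂ K)) (δ : Place ℂ K → ℝ) (s : ℝ) : Prop :=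
  ∀ P ∈ X, Divisorial d P → ∀ (a : ℤ) (v : Fin q → ℕ),
    (∀ φ : Form n, lf φ x = 0 ∨ a ≤ P.ord (lf φ x)) →
    (∃ φ : Form n, lf φ x ≠ 0 ∧ P.ord (lf φ x) = a) →
    (∀ i, P.ord (lf (ℓ i) x) = a + v i) → v ≠ 0 →
    ∃ i i', γ i' = γ i ∧ s * (1 - δ P) ≤ (v i : ℝ) - v i'

/-- the main estimate -/
theorem sub_ord (hB : Blocks ℓ γ) (hspan : Submodule.span ℂ (Set.range ℓ) = ⊤)
    {p : Bases ℓ → ℕ} {R : ℕ} (hp : Wt ℓ (Fam ℓ γ) R p) {x : Fin (n + 1) → K}
    (hlx : ∀ i, lf (ℓ i) x ≠ 0) {X : Set (Place ℂ K)} {δ : Place ℂ K → ℝ} {s : ℝ}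
    (h : HighV d ℓ γ x X δ s) (t : ℕ) (e : Fin (d + 1) ⊕ Fin k ≃ Fin (n + 1))
    (S : Fin k → List (Letter d q)) {P : Place ℂ K} (hPX : P ∈ X) (hPd : Divisorial d P)
    {D : Fin d → Derivation ℂ K K} (hD : ∀ i, DerReg P (D i)) :
    ∃ (a : ℤ) (v v' : Fin q → ℕ) (m : Fin c → ℕ) (c' : ℤ) (M : ℝ),
      (∀ i, P.ord (lf (ℓ i) x) = a + v i) ∧ (∀ i, v i = v' i + m (γ i)) ∧
      Ge P c' (sg ℓ x p t e S D) ∧ (∀ i, (v' i : ℝ) ≤ M) ∧ 0 ≤ M ∧
      ((M = 0 ∧ 0 ≤ (c' : ℝ)) ∨ (s * (1 - δ P) ≤ M ∧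
        (t * ∑ B, (p B : ℝ)) * M ≤
          R * (c' + ((1 + ∑ a, (S a).length : ℕ) : ℝ) * (t * ∑ B, (p B : ℝ))))) := by
  obtain ⟨B0⟩ := exists_bases hspan
  have i0 : Fin q := B0.1 0
  obtain ⟨a, v, ⟨i1, hi1⟩, hv, -, c', hc, hc1, hc3⟩ := sg_ord hp hspan t hlx P i0 e S hD
  obtain ⟨v', m, hdec, hm, -⟩ := hB.dec hspan hlx P hv
  by_cases hv0 : v = 0
  · have hv' : v' = 0 := by
      funext i
      have h1 := hm i
      rw [hv0] at h1
      simp only [Pi.zero_apply] at h1 ⊢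
      omega
    refine ⟨a, v, v', m, c', 0, hv, hm, hc, fun i => by rw [hv']; simp, le_rfl, Or.inl ⟨rfl, ?_⟩⟩
    exact_mod_cast hc1 hv0
  · obtain ⟨i, i', hii, hs⟩ := h P hPX hPd a v (fun φ => by
      refine Pool.Agent.W168.CG.PGR.ge_span P a (Set.range ℓ) x ?_ φ (by rw [hspan]; trivial)
      rintro _ ⟨i, rfl⟩
      right
      rw [hv i]
      have : (0 : ℤ) ≤ v i := by positivity
      linarith) ⟨ℓ i1, hlx i1, by rw [hv i1, hi1]; simp⟩ hv hv0
    obtain ⟨im, -, hmax⟩ := Finset.exists_max_image Finset.univ v' ⟨i0, Finset.mem_univ _⟩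
    have h1 := hc3 v' hdec im
    have h2 : ((t : ℝ) * (∑ B, (p B : ℝ)) * v' im) ≤
        R * (c' + ((1 + ∑ a, (S a).length : ℕ) : ℝ) * (t * ∑ B, (p B : ℝ))) := by
      exact_mod_cast h1
    refine ⟨a, v, v', m, c', v' im, hv, hm, hc, fun i => by
      exact_mod_cast hmax i (Finset.mem_univ i), by positivity, Or.inr ⟨?_, h2⟩⟩
    have h3 : ((v i : ℝ) - v i') ≤ v' im := by
      rw [hm i, hm i', hii]
      push_cast
      have h4 : (v' i : ℝ) ≤ v' im := by exact_mod_cast hmax i (Finset.mem_univ i)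
      have h5 : (0 : ℝ) ≤ v' i' := by positivity
      linarith
    exact hs.trans h3

/-- the words and the form -/
theorem exists_form (hℓ : ∀ i, ℓ i ≠ 0) (hspan : Submodule.span ℂ (Set.range ℓ) = ⊤)
    {x : Fin (n + 1) → K} (hli : LinearIndependent ℂ x) (hdk : d + k = n)
    (σ : Fin (d + 1) → Fin (n + 1)) (hσ : x (σ 0) ≠ 0)
    (hbas : IsTranscendenceBasis ℂ (fun j : Fin d => x (σ j.succ) / x (σ 0)))
    (p : Bases ℓ → ℕ) :
    ∃ (e : Fin (d + 1) ⊕ Fin k ≃ Fin (n + 1)) (S : Fin k → List (Letter d q))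
      (D : Fin d → Derivation ℂ K K), 2 * (1 + ∑ a, (S a).length) ≤ (k + 1) * (k + 2) ∧
      ∀ t, IsPluri ((1 + ∑ a, (S a).length) * (t * ∑ B, p B)) (sg ℓ x p t e S) ∧
        sg ℓ x p t e S D ≠ 0 := by
  classical
  have hlx : ∀ i, lf (ℓ i) x ≠ 0 := fun i => lf_ne_of_li hli (hℓ i)
  obtain ⟨D, hD⟩ := (bwb d K).2.2 (fun j => x (σ j)) hσ hbas
  obtain ⟨I0, hI0⟩ := exists_index hspan D σ hD
  have hDt : (Matrix.of fun i j : Fin d => D i (x (σ j.succ) / x (σ 0))).det ≠ 0 := by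
    have h1 := Pool.Agent.W930.CG.bw_eq bwa D (fun j => x (σ j)) hσ
    rw [h1] at hD
    exact right_ne_zero_of_mul hD
  obtain ⟨hall, hconst⟩ := consts_basis hbas hDt
  let e : Fin (d + 1) ⊕ Fin k ≃ Fin (n + 1) :=
    finSumFinEquiv.trans (finCongr (by omega))
  obtain ⟨S, hS⟩ := exists_minW e hconst hlx hI0 hli (blk_li hD)
  have hne : pw e D (fun i => lf (ℓ i) x) x S ≠ 0 := by
    rw [← phi_eq_pw]
    exact hS.ne
  refine ⟨e, S, D, hS.le, fun t => ⟨?_, ?_⟩⟩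
  · intro M E
    obtain ⟨M1, rfl⟩ := hall E
    have e1 : (fun i => ∑ j, M i j • (fun i => ∑ j, M1 i j • D j) j) =
        fun i => ∑ j, (M * M1) i j • D j := by
      funext i
      simp only [Finset.smul_sum, smul_smul, Matrix.mul_apply, Finset.sum_smul]
      rw [Finset.sum_comm]
    have h1 : pw e (fun i => ∑ j, M i j • (fun i => ∑ j, M1 i j • D j) j)
        (fun i => lf (ℓ i) x) x S = M.det ^ (1 + ∑ a, (S a).length) *
          pw e (fun i => ∑ j, M1 i j • D j) (fun i => lf (ℓ i) x) x S := by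
      rw [e1, pw_change hS, pw_change hS, Matrix.det_mul, mul_pow, mul_assoc]
    unfold sg
    rw [h1, mul_pow, ← pow_mul, mul_div_assoc]
  · unfold sg
    exact div_ne_zero (pow_ne_zero _ hne) (den_ne hlx p t)

/-- the bound in the form which is used -/
theorem arith0 {R W k : ℕ} {s δ M : ℝ} (hW : 2 * W ≤ (k + 1) * (k + 2))
    (hs : (R : ℝ) * ((k + 1) * (k + 2)) ≤ 2 * s) (hM : 0 ≤ M) (h : s * (1 - δ) ≤ M) :
    (R : ℝ) * W * (1 - δ) ≤ M := by
  have hW' : (2 : ℝ) * W ≤ (k + 1) * (k + 2) := by exact_mod_cast hW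
  have hR0 : (0 : ℝ) ≤ R := by positivity
  by_cases hδ : 0 ≤ 1 - δ
  · have h1 : (R : ℝ) * (2 * W) ≤ R * ((k + 1) * (k + 2)) := mul_le_mul_of_nonneg_left hW' hR0
    have h2 : (R : ℝ) * (2 * W) * (1 - δ) ≤ 2 * s * (1 - δ) :=
      mul_le_mul_of_nonneg_right (h1.trans hs) hδ
    nlinarith
  · push Not at hδ
    have h1 : (R : ℝ) * W * (1 - δ) ≤ 0 :=
      mul_nonpos_of_nonneg_of_nonpos (by positivity) hδ.le
    linarith

/-- **Nonvanishing.** -/
theorem sub_nonvanishing (hn : 1 ≤ n) (hℓ : ∀ i, ℓ i ≠ 0) (hγ : Comps ℓ γ)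
    (hc1 : ¬ Splits ℓ (c + 1)) (hspan : Submodule.span ℂ (Set.range ℓ) = ⊤) {R : ℕ}
    (hR : Bound ℓ c R) {x : Fin (n + 1) → K} (hli : LinearIndependent ℂ x) (hdk : d + k = n)
    (σ : Fin (d + 1) → Fin (n + 1)) (hσ : x (σ 0) ≠ 0)
    (hbas : IsTranscendenceBasis ℂ (fun j : Fin d => x (σ j.succ) / x (σ 0)))
    (X : Set (Place ℂ K)) (δ : Place ℂ K → ℝ) (hδ : ∀ P ∈ X, 0 ≤ δ P) {s : ℝ}
    (hs : (R : ℝ) * ((k + 1) * (k + 2)) ≤ 2 * s) (h : HighV d ℓ γ x X δ s) :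
    ∃ N : ℕ, 0 < N ∧ ∃ ω : (Fin d → Derivation ℂ K K) → K, PairSec d X δ N ω ∧ ∃ D, ω D ≠ 0 := by
  have hlx : ∀ i, lf (ℓ i) x ≠ 0 := fun i => lf_ne_of_li hli (hℓ i)
  obtain ⟨hB, hconn⟩ := hγ.blocks hℓ hspan hc1
  obtain ⟨p, hp⟩ := exists_wt hn hℓ hR (splits_le hγ.splits).1 hspan hB hconn
  have hR1 := hR.pos hγ.splits
  have hp0 := hp.1
  obtain ⟨e, S, D, hW, hform⟩ := exists_form hℓ hspan hli hdk σ hσ hbas p
  obtain ⟨W, hWd⟩ : ∃ W : ℕ, W = 1 + ∑ a, (S a).length := ⟨_, rfl⟩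
  have hW1 : 1 ≤ W := by omega
  obtain ⟨hpl, hne⟩ := hform 1
  rw [← hWd] at hW hpl
  refine ⟨W * (1 * ∑ B, p B), Nat.mul_pos hW1 (by omega), sg ℓ x p 1 e S, ⟨hpl, ?_⟩, D, hne⟩
  intro P hPX hPd D hD
  obtain ⟨a, v, v', m, c', M, -, -, hc, -, hM0, hM⟩ :=
    sub_ord hB hspan hp hlx h 1 e S hPX hPd hD
  rw [← hWd] at hM
  rcases hc with hc | hc
  · exact Or.inl hc
  right
  have hc' : (c' : ℝ) ≤ P.ord (sg ℓ x p 1 e S D) := by exact_mod_cast hc
  refine le_trans ?_ hc'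
  have hN0 : (0 : ℝ) ≤ ∑ B, (p B : ℝ) := by positivity
  have hW0 : (0 : ℝ) ≤ W := by positivity
  push_cast
  rcases hM with ⟨-, h0⟩ | ⟨h1, h2⟩
  · have h3 := mul_nonneg (mul_nonneg hW0 hN0) (hδ P hPX)
    linarith
  · have h1' := arith0 hW hs hM0 h1
    have h4 := mul_le_mul_of_nonneg_left h1' hN0
    have hpos : (0 : ℝ) < R := by exact_mod_cast hR1
    push_cast at h2
    refine le_of_mul_le_mul_left ?_ hpos
    nlinarith

/-- **The Kodaira dimension of pairs.** -/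
theorem sub_kod (hn : 1 ≤ n) (hℓ : ∀ i, ℓ i ≠ 0) (hγ : Comps ℓ γ)
    (hc1 : ¬ Splits ℓ (c + 1)) (hspan : Submodule.span ℂ (Set.range ℓ) = ⊤) {R : ℕ}
    (hR : Bound ℓ c R) {x : Fin (n + 1) → K} (hli : LinearIndependent ℂ x) (hdk : d + k = n)
    (σ : Fin (d + 1) → Fin (n + 1)) (hσ : x (σ 0) ≠ 0)
    (hbas : IsTranscendenceBasis ℂ (fun j : Fin d => x (σ j.succ) / x (σ 0)))
    (X : Set (Place ℂ K)) (δ : Place ℂ K → ℝ) (hδ : ∀ P ∈ X, 0 ≤ δ P) {s : ℝ}
    (hs : (R : ℝ) * ((k + 1) * (k + 2)) < 2 * s) (h : HighV d ℓ γ x X δ s) {κ : ℕ}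
    (hκ : κ + c = d + 1) :
    ∃ N : ℕ, 0 < N ∧ ∃ ω : Fin (κ + 1) → (Fin d → Derivation ℂ K K) → K,
      (∀ j, PairSec d X δ N (ω j)) ∧
      ∃ D, ω 0 D ≠ 0 ∧ AlgebraicIndependent ℂ (fun i : Fin κ => ω i.succ D / ω 0 D) := by
  have hlx : ∀ i, lf (ℓ i) x ≠ 0 := fun i => lf_ne_of_li hli (hℓ i)
  obtain ⟨hB, hconn⟩ := hγ.blocks hℓ hspan hc1
  obtain ⟨p, hp⟩ := exists_wt hn hℓ hR (splits_le hγ.splits).1 hspan hB hconn
  have hR1 := hR.pos hγ.splits
  have hRpos : (0 : ℝ) < R := by exact_mod_cast hR1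
  obtain ⟨B0⟩ := exists_bases hspan
  have i0 : Fin q := B0.1 0
  obtain ⟨e, S, D, hW, hform⟩ := exists_form hℓ hspan hli hdk σ hσ hbas p
  obtain ⟨W, hWd⟩ : ∃ W : ℕ, W = 1 + ∑ a, (S a).length := ⟨_, rfl⟩
  have hW1 : 1 ≤ W := by omega
  rw [← hWd] at hW
  have hW1' : (1 : ℝ) ≤ W := by exact_mod_cast hW1
  have hW' : (2 : ℝ) * W ≤ (k + 1) * (k + 2) := by exact_mod_cast hW
  have hRW : (R : ℝ) * W < s := by
    have h1 : (R : ℝ) * (2 * W) ≤ R * ((k + 1) * (k + 2)) :=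
      mul_le_mul_of_nonneg_left hW' hRpos.le
    linarith
  have hN1 : (1 : ℝ) ≤ ∑ B, (p B : ℝ) := by exact_mod_cast hp.1
  obtain ⟨t, ht⟩ := exists_nat_gt ((R : ℝ) * s / (s - R * W))
  have hsR : 0 < s - R * W := sub_pos.2 hRW
  have hspos : 0 < s := lt_of_le_of_lt (by positivity) hRW
  have ht0 : (0 : ℝ) < t := lt_trans (by positivity) ht
  have ht0' : 0 < t := by exact_mod_cast ht0
  have htA : (R : ℝ) * s ≤ (t * ∑ B, (p B : ℝ)) * (s - R * W) := by
    have h1 := (div_lt_iff₀ hsR).1 ht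
    have h2 : (t : ℝ) * (s - R * W) ≤ (t * ∑ B, (p B : ℝ)) * (s - R * W) :=
      mul_le_mul_of_nonneg_right (le_mul_of_one_le_right ht0.le hN1) hsR.le
    linarith
  choose rr hrr using fun j => hB.cp_ne B0 j
  have hrr' : ∀ j, γ (B0.1 (rr j)) = j := fun j => mem_cp.1 (hrr j)
  obtain ⟨ι, hι⟩ := indep_v B0 hlx σ hbas rr hrr' hκ
  let u : Fin κ → K := fun i => lf (ℓ (B0.1 (ι i))) x / lf (ℓ (B0.1 (rr (γ (B0.1 (ι i)))))) x
  let w : Fin (κ + 1) → K := Fin.cons 1 u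
  have hw : ∀ (P : Place ℂ K) (a : ℤ) (v v' : Fin q → ℕ) (m : Fin c → ℕ),
      (∀ i, P.ord (lf (ℓ i) x) = a + v i) → (∀ i, v i = v' i + m (γ i)) →
      ∀ j, ∃ i, Ge P (-(v' i : ℤ)) (w j) := by
    intro P a v v' m hord hm j
    refine Fin.cases ?_ (fun i => ?_) j
    · refine ⟨i0, Or.inr ?_⟩
      change _ ≤ P.ord (1 : K)
      rw [P.ord_one]
      linarith [Int.natCast_nonneg (v' i0)]
    · refine ⟨B0.1 (rr (γ (B0.1 (ι i)))), Or.inr ?_⟩
      change _ ≤ P.ord (lf (ℓ (B0.1 (ι i))) x / lf (ℓ (B0.1 (rr (γ (B0.1 (ι i)))))) x)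
      rw [P.ord_div (hlx _) (hlx _), hord, hord, hm (B0.1 (ι i)), hm (B0.1 (rr _)), hrr']
      push_cast
      linarith [Int.natCast_nonneg (v' (B0.1 (ι i)))]
  obtain ⟨hpl, hne⟩ := hform t
  rw [← hWd] at hpl
  refine ⟨W * (t * ∑ B, p B), Nat.mul_pos hW1 (Nat.mul_pos ht0' hp.1),
    fun j D => sg ℓ x p t e S D * w j, fun j => ⟨?_, ?_⟩, D, ?_, ?_⟩
  · intro A D'
    change sg ℓ x p t e S _ * w j = _
    rw [hpl A D']
    ring
  · intro P hPX hPd D hD
    obtain ⟨a, v, v', m, c', M, hv, hm, hc, hvM, hM0, hM⟩ :=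
      sub_ord hB hspan hp hlx h t e S hPX hPd hD
    rw [← hWd] at hM
    obtain ⟨i, hi⟩ := hw P a v v' m hv hm j
    have h5 := hc.mul hi
    rcases h5 with h5 | h5
    · exact Or.inl h5
    right
    have h6 : ((c' + -(v' i : ℤ) : ℤ) : ℝ) ≤ P.ord (sg ℓ x p t e S D * w j) := by
      exact_mod_cast h5
    refine le_trans ?_ h6
    push_cast
    obtain ⟨A, hA⟩ : ∃ A : ℝ, A = t * ∑ B, (p B : ℝ) := ⟨_, rfl⟩
    rw [← hA] at htA hM ⊢
    have hA0 : (0 : ℝ) ≤ A := by rw [hA]; positivity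
    have hMi := hvM i
    have hδA := mul_nonneg (mul_nonneg (by positivity : (0 : ℝ) ≤ W) hA0) (hδ P hPX)
    rcases hM with ⟨hM1, hM2⟩ | ⟨hM1, hM2⟩
    · rw [hM1] at hMi
      linarith
    · -- `M ≤ c' + W A δ`
      have hWA : (0 : ℝ) ≤ W * A := by positivity
      have e1 : (W * A) * (s * (1 - δ P)) ≤ (W * A) * M := mul_le_mul_of_nonneg_left hM1 hWA
      have e2 : (R : ℝ) * s * M ≤ A * (s - R * W) * M := mul_le_mul_of_nonneg_right htA hM0
      have e3 : s * (A * M) ≤ s * (R * (c' + W * A)) := mul_le_mul_of_nonneg_left hM2 hspos.le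
      have e4 : (R : ℝ) * ((W * A) * (s * (1 - δ P))) ≤ R * ((W * A) * M) :=
        mul_le_mul_of_nonneg_left e1 hRpos.le
      have e5 : M ≤ c' + W * A * δ P := by
        have hpp : (0 : ℝ) < R * s := mul_pos hRpos hspos
        refine le_of_mul_le_mul_left ?_ hpp
        nlinarith
      linarith
  · change sg ℓ x p t e S D * w 0 ≠ 0
    refine mul_ne_zero hne ?_
    change (1 : K) ≠ 0
    exact one_ne_zero
  · have e : (fun i : Fin κ => sg ℓ x p t e S D * w i.succ / (sg ℓ x p t e S D * w 0)) = u := by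
      funext i
      have e1 : w 0 = 1 := rfl
      have e2 : w i.succ = u i := rfl
      rw [e1, e2, mul_one, mul_div_cancel_left₀ _ hne]
    change AlgebraicIndependent ℂ (fun i : Fin κ => sg ℓ x p t _ S D * w i.succ /
        (sg ℓ x p t _ S D * w 0))
    rw [e]
    exact hι

end Pool.Agent.TH585.SV
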